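import Pool.Agent.W_MP_e80488_al.PhiMap

set_option autoImplicit false

/-!
# The operator `Z`
-/

namespace Pool.Agent.W_MP_e80488_al

open Finset TensorProduct

attribute [local instance 100] LieRing.ofAssociativeRing

section ZOp

variable {k B ι : Type*} [Field k] [CommRing B] [Algebra k B] [Fintype ι] (F : Frob k B ι)
variable (p : ℕ) (ψ : B →ₗ[k] k)

/-- `id ⊗ lam` -/
noncomputable def lamR : Phi p ψ ⊗[k] B →ₗ[k] Phi p ψ :=
  (TensorProduct.rid k (Phi p ψ)).toLinearMap ∘ₗ F.lam.lTensor (Phi p ψ)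

lemma lamR_tmul (r : Phi p ψ) (f : B) : lamR F p ψ (r ⊗ₜ f) = F.lam f • r := by
  simp [lamR]

lemma lamR_expand (u : Phi p ψ ⊗[k] B) :
    u = ∑ i, lamR F p ψ (u * (1 ⊗ₜ F.b' i)) ⊗ₜ F.b i := by
  induction u using TensorProduct.induction_on with
  | zero => simp
  | add x y hx hy =>
    conv_lhs => rw [hx, hy]
    rw [← sum_add_distrib]
    refine sum_congr rfl fun i _ => ?_
    rw [add_mul, map_add, add_tmul]
  | tmul r f =>
    conv_lhs => rw [F.expand f, tmul_sum]
    refine sum_congr rfl fun i _ => ?_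
    rw [Algebra.TensorProduct.tmul_mul_tmul, mul_one, lamR_tmul, tmul_smul, smul_tmul']

lemma lamR_smul (r : Phi p ψ) (u : Phi p ψ ⊗[k] B) :
    lamR F p ψ ((r ⊗ₜ 1) * u) = r * lamR F p ψ u := by
  induction u using TensorProduct.induction_on with
  | zero => simp
  | add x y hx hy => rw [mul_add, map_add, hx, hy, map_add, mul_add]
  | tmul s f =>
    rw [Algebra.TensorProduct.tmul_mul_tmul, one_mul, lamR_tmul, lamR_tmul, mul_smul_comm]

lemma lamR_ext {u v : Phi p ψ ⊗[k] B}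
    (h : ∀ b, lamR F p ψ (u * (1 ⊗ₜ b)) = lamR F p ψ (v * (1 ⊗ₜ b))) : u = v := by
  rw [lamR_expand F p ψ u, lamR_expand F p ψ v]
  simp only [h]

/-- the element `h` -/
noncomputable def hEl : Phi p ψ ⊗[k] B := ∑ i, Phi.z p ψ (F.b i) ⊗ₜ F.b' i

lemma lamR_hEl (b : B) : lamR F p ψ (hEl F p ψ * (1 ⊗ₜ b)) = Phi.z p ψ b := by
  conv_rhs => rw [F.expand b]
  rw [hEl, sum_mul, map_sum, map_sum]
  refine sum_congr rfl fun i _ => ?_
  rw [Algebra.TensorProduct.tmul_mul_tmul, mul_one, lamR_tmul, map_smul, mul_comm b]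

variable [hp : Fact p.Prime] [CharP k p]

/-- `h ^ p` is a scalar -/
lemma hEl_pow [CharP B p] (ε : B →ₗ[k] k) (hε : ∀ f : B, f ^ p = algebraMap k B (ε f ^ p))
    (h1 : ∑ i, ψ (F.b i) * ε (F.b' i) = 1) [CharP (Phi p ψ ⊗[k] B) p] : hEl F p ψ ^ p = 1 := by
  rw [hEl, sum_pow_char]
  have h2 : ∀ i, (Phi.z p ψ (F.b i) ⊗ₜ[k] F.b' i) ^ p
      = algebraMap k (Phi p ψ ⊗[k] B) ((ψ (F.b i) * ε (F.b' i)) ^ p) := by
    intro i
    rw [Algebra.TensorProduct.tmul_pow, Phi.z_pow, hε, mul_pow, map_mul,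
      Algebra.TensorProduct.algebraMap_apply, Algebra.TensorProduct.algebraMap_apply']
    rw [Algebra.TensorProduct.tmul_mul_tmul, one_mul, mul_one]
  rw [sum_congr rfl fun i _ => h2 i, ← map_sum, ← sum_pow_char, h1, one_pow, map_one]

lemma rhoG_zero_mul (D : Derivation k B B) (u v : Phi p ψ ⊗[k] B) :
    rhoG p ψ D 0 (u * v) = rhoG p ψ D 0 u * v + u * rhoG p ψ D 0 v := by
  induction u using TensorProduct.induction_on with
  | zero => simp
  | add x y hx hy => rw [add_mul, map_add, hx, hy, map_add]; ring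
  | tmul r f =>
    induction v using TensorProduct.induction_on with
    | zero => simp
    | add x y hx hy => rw [mul_add, map_add, hx, hy, map_add]; ring
    | tmul s g =>
      rw [Algebra.TensorProduct.tmul_mul_tmul, rhoG_tmul, rhoG_tmul, rhoG_tmul]
      simp only [map_zero, zero_mul, add_zero, Derivation.leibniz, smul_eq_mul, add_mul, mul_add,
        Algebra.TensorProduct.tmul_mul_tmul, add_tmul, tmul_add]
      rw [mul_comm s (Phi.dstar p ψ D r), mul_comm g (D f)]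
      abel

lemma rhoG_eq (D : Derivation k B B) (b : B) (u : Phi p ψ ⊗[k] B) :
    rhoG p ψ D b u = rhoG p ψ D 0 u + (Phi.z p ψ b ⊗ₜ 1) * u := by
  induction u using TensorProduct.induction_on with
  | zero => simp
  | add x y hx hy => rw [map_add, hx, hy, map_add]; ring
  | tmul r f =>
    rw [rhoG_tmul, rhoG_tmul, Algebra.TensorProduct.tmul_mul_tmul, map_zero, zero_mul, add_zero,
      one_mul, add_tmul]
    abel

lemma rhoG_add (D D' : Derivation k B B) (b b' : B) :
    rhoG p ψ (D + D') (b + b') = rhoG p ψ D b + rhoG p ψ D' b' := by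
  refine TensorProduct.ext' fun r f => ?_
  rw [LinearMap.add_apply, rhoG_tmul, rhoG_tmul, rhoG_tmul]
  simp only [map_add, Derivation.add_apply, add_mul, add_tmul, tmul_add]
  abel

lemma rhoG_smul (c : k) (D : Derivation k B B) (b : B) :
    rhoG p ψ (c • D) (c • b) = c • rhoG p ψ D b := by
  refine TensorProduct.ext' fun r f => ?_
  rw [LinearMap.smul_apply, rhoG_tmul, rhoG_tmul]
  simp only [map_smul, Derivation.smul_apply, smul_add, smul_mul_assoc, add_tmul, smul_tmul',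
    tmul_smul]

lemma rhoG_sum {κ : Type*} (s : Finset κ) (D : κ → Derivation k B B) (b : κ → B) :
    rhoG p ψ (∑ i ∈ s, D i) (∑ i ∈ s, b i) = ∑ i ∈ s, rhoG p ψ (D i) (b i) := by
  classical
  induction s using Finset.induction_on with
  | empty =>
    simp only [sum_empty]
    refine TensorProduct.ext' fun r f => ?_
    rw [rhoG_tmul]
    simp
  | insert a s ha ih => rw [sum_insert ha, sum_insert ha, sum_insert ha, rhoG_add, ih]

variable (d : Derivation k B B)

/-- `1 ⊗ ∂` -/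
noncomputable def dE : Module.End k (Phi p ψ ⊗[k] B) := (d : B →ₗ[k] B).lTensor (Phi p ψ)

omit hp [CharP k p] in
lemma dE_tmul (r : Phi p ψ) (f : B) : dE p ψ d (r ⊗ₜ f) = r ⊗ₜ d f := rfl

lemma T_dE (c : B) (u : Phi p ψ ⊗[k] B) :
    rhoG p ψ (c • d) 0 (dE p ψ d u) = dE p ψ d (rhoG p ψ (c • d) 0 u)
      - (1 ⊗ₜ d c) * dE p ψ d u := by
  induction u using TensorProduct.induction_on with
  | zero => simp
  | add x y hx hy => simp only [map_add, mul_add, hx, hy]; ring
  | tmul r f =>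
    simp only [rhoG_tmul, dE_tmul, map_add, map_zero, zero_mul, add_zero, Derivation.smul_apply,
      smul_eq_mul, Derivation.leibniz, Algebra.TensorProduct.tmul_mul_tmul, one_mul, tmul_add]
    rw [mul_comm (d f) (d c)]
    abel

variable (hd : ∀ f, F.lam (d f) = 0)
include hd

lemma lamR_T (c : B) (u : Phi p ψ ⊗[k] B) :
    lamR F p ψ (rhoG p ψ (c • d) 0 u)
      = Phi.dstar p ψ (c • d) (lamR F p ψ u) - lamR F p ψ ((1 ⊗ₜ d c) * u) := by
  induction u using TensorProduct.induction_on with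
  | zero => simp
  | add x y hx hy => simp only [map_add, mul_add, hx, hy]; ring
  | tmul r f =>
    have h1 := hd (c * f)
    rw [Derivation.leibniz, smul_eq_mul, smul_eq_mul, map_add] at h1
    have h2 : F.lam (d c * f) = - F.lam (c * d f) := by
      rw [mul_comm (d c)]
      linear_combination h1
    rw [rhoG_tmul, map_zero, zero_mul, add_zero, map_add, lamR_tmul, lamR_tmul, lamR_tmul,
      Algebra.TensorProduct.tmul_mul_tmul, one_mul, lamR_tmul, h2, Derivation.smul_apply,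
      smul_eq_mul, Derivation.map_smul, neg_smul]
    ring

lemma T_hEl (c : B) :
    rhoG p ψ (c • d) 0 (hEl F p ψ) = - ((1 ⊗ₜ d c) * hEl F p ψ) := by
  refine lamR_ext F p ψ fun b => ?_
  have h1 := rhoG_zero_mul p ψ (c • d) (hEl F p ψ) (1 ⊗ₜ b)
  have h2 := lamR_T F p ψ d hd c (hEl F p ψ * (1 ⊗ₜ b))
  rw [lamR_hEl, Phi.dstar_z, h1, map_add, rhoG_tmul] at h2
  simp only [map_zero, zero_mul, add_zero, Derivation.map_one_eq_zero, zero_tmul, zero_add,
    lamR_hEl, Derivation.smul_apply, smul_eq_mul] at h2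
  rw [neg_mul, map_neg, mul_assoc]
  linear_combination h2

/-- the inverse of `h` -/
lemma T_g (c : B) {g : Phi p ψ ⊗[k] B} (hg : hEl F p ψ * g = 1) :
    rhoG p ψ (c • d) 0 g = (1 ⊗ₜ d c) * g := by
  have h1 := rhoG_zero_mul p ψ (c • d) (hEl F p ψ) g
  have h2 : rhoG p ψ (c • d) 0 (1 : Phi p ψ ⊗[k] B) = 0 := by
    rw [Algebra.TensorProduct.one_def, rhoG_tmul]
    simp
  rw [hg, h2, T_hEl F p ψ d hd] at h1
  have h3 : rhoG p ψ (c • d) 0 g = g * (hEl F p ψ * rhoG p ψ (c • d) 0 g) := by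
    rw [← mul_assoc, mul_comm g, hg, one_mul]
  rw [h3]
  have h4 : hEl F p ψ * rhoG p ψ (c • d) 0 g = (1 ⊗ₜ d c) * (hEl F p ψ * g) := by
    linear_combination -h1
  rw [h4, hg]
  ring

omit hp [CharP k p] hd in
/-- the operator `Z` -/
noncomputable def Zop (g : Phi p ψ ⊗[k] B) : Module.End k (Phi p ψ ⊗[k] B) :=
  LinearMap.mulLeft k g * dE p ψ d

omit hp [CharP k p] hd in
lemma Zop_apply (g u : Phi p ψ ⊗[k] B) : Zop p ψ d g u = g * dE p ψ d u := rfl

omit hp [CharP k p] hd in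
lemma dE_smul (r : Phi p ψ) (u : Phi p ψ ⊗[k] B) :
    dE p ψ d ((r ⊗ₜ 1) * u) = (r ⊗ₜ 1) * dE p ψ d u := by
  induction u using TensorProduct.induction_on with
  | zero => simp
  | add x y hx hy => simp only [map_add, mul_add, hx, hy]
  | tmul s f =>
    rw [Algebra.TensorProduct.tmul_mul_tmul, one_mul, dE_tmul, dE_tmul,
      Algebra.TensorProduct.tmul_mul_tmul, one_mul]

lemma Zop_comm {g : Phi p ψ ⊗[k] B} (hg : hEl F p ψ * g = 1) (c b : B) (u : Phi p ψ ⊗[k] B) :
    Zop p ψ d g (rhoG p ψ (c • d) b u) = rhoG p ψ (c • d) b (Zop p ψ d g u) := by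
  rw [rhoG_eq p ψ _ b, rhoG_eq p ψ _ b, map_add, Zop_apply, Zop_apply, Zop_apply, dE_smul,
    rhoG_zero_mul, T_g F p ψ d hd c hg, T_dE]
  ring

/-- `Z` is a combination of the operators `T`. -/
lemma Zop_eq {g : Phi p ψ ⊗[k] B} (hg : hEl F p ψ * g = 1) (u : Phi p ψ ⊗[k] B) :
    Zop p ψ d g u = ∑ i, (lamR F p ψ (g * (1 ⊗ₜ F.b' i)) ⊗ₜ 1) *
      rhoG p ψ (F.b i • d) 0 u := by
  set G : ι → Phi p ψ := fun i => lamR F p ψ (g * (1 ⊗ₜ F.b' i)) with hG
  have hg' : g = ∑ i, G i ⊗ₜ F.b i := lamR_expand F p ψ g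
  -- the derivation part vanishes
  have h1 : ∀ x : Phi p ψ, ∑ i, G i * Phi.dstar p ψ (F.b i • d) x = 0 := by
    have h2 : (∑ i, G i • Phi.dstar p ψ (F.b i • d) : Derivation k (Phi p ψ) (Phi p ψ)) = 0 := by
      refine Phi.der_ext p ψ fun f => ?_
      rw [Derivation.zero_apply]
      have h3 : (∑ i, G i • Phi.dstar p ψ (F.b i • d) : Derivation k (Phi p ψ) (Phi p ψ))
          (Phi.z p ψ f) = ∑ i, G i * Phi.z p ψ (F.b i * d f) := by
        rw [← Derivation.coeFnAddMonoidHom_apply, map_sum, Finset.sum_apply]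
        refine sum_congr rfl fun i _ => ?_
        rw [Derivation.coeFnAddMonoidHom_apply, Derivation.smul_apply, Phi.dstar_z,
          Derivation.smul_apply, smul_eq_mul, smul_eq_mul]
      rw [h3]
      have h4 : ∀ i, G i * Phi.z p ψ (F.b i * d f)
          = lamR F p ψ (hEl F p ψ * (1 ⊗ₜ d f) * (G i ⊗ₜ F.b i)) := by
        intro i
        rw [← lamR_hEl F p ψ (F.b i * d f), ← lamR_smul]
        congr 1
        have h5 : (1 ⊗ₜ (F.b i * d f) : Phi p ψ ⊗[k] B) = (1 ⊗ₜ F.b i) * (1 ⊗ₜ d f) := by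
          rw [Algebra.TensorProduct.tmul_mul_tmul, one_mul]
        have h6 : (G i ⊗ₜ F.b i : Phi p ψ ⊗[k] B) = (G i ⊗ₜ 1) * (1 ⊗ₜ F.b i) := by
          rw [Algebra.TensorProduct.tmul_mul_tmul, one_mul, mul_one]
        rw [h5, h6]
        ring
      rw [sum_congr rfl fun i _ => h4 i, ← map_sum, ← mul_sum, ← hg']
      have h7 : hEl F p ψ * (1 ⊗ₜ d f) * g = 1 ⊗ₜ d f := by
        rw [mul_right_comm, hg, one_mul]
      rw [h7, lamR_tmul, hd, zero_smul]
    intro x
    have h3 := congrArg (fun D : Derivation k (Phi p ψ) (Phi p ψ) => D x) h2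
    simp only [Derivation.zero_apply] at h3
    rw [← h3, ← Derivation.coeFnAddMonoidHom_apply, map_sum, Finset.sum_apply]
    rfl
  induction u using TensorProduct.induction_on with
  | zero => simp
  | add x y hx hy => simp only [map_add, mul_add, hx, hy, sum_add_distrib]
  | tmul r f =>
    rw [Zop_apply, dE_tmul]
    conv_lhs => rw [hg', sum_mul]
    have h8 : ∀ i, (G i ⊗ₜ[k] (1 : B)) * rhoG p ψ (F.b i • d) 0 (r ⊗ₜ f)
        = (G i * Phi.dstar p ψ (F.b i • d) r) ⊗ₜ f + (G i ⊗ₜ F.b i) * (r ⊗ₜ d f) := by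
      intro i
      rw [rhoG_tmul, map_zero, zero_mul, add_zero, mul_add]
      simp only [Algebra.TensorProduct.tmul_mul_tmul, one_mul, Derivation.smul_apply, smul_eq_mul]
    rw [sum_congr rfl fun i _ => h8 i, sum_add_distrib, ← sum_tmul, h1, zero_tmul, zero_add]

end ZOp

section Ev

variable {k B : Type*} [Field k] [CommRing B] [Algebra k B]
variable (p : ℕ) (ψ : B →ₗ[k] k)

/-- evaluation `z f ↦ ψ f` -/
noncomputable def Phi.ev : Phi p ψ →ₐ[k] k :=
  Phi.lift p ψ ψ rfl (fun _ => rfl)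

lemma Phi.ev_z (f : B) : Phi.ev p ψ (Phi.z p ψ f) = ψ f := Phi.lift_z _ _ _ _ _ _

instance : Nontrivial (Phi p ψ) := (Phi.ev p ψ).toRingHom.domain_nontrivial

instance [CharP k p] : CharP (Phi p ψ) p :=
  charP_of_injective_algebraMap (algebraMap k (Phi p ψ)).injective p

/-- `ev ⊗ id` -/
noncomputable def evB : Phi p ψ ⊗[k] B →ₐ[k] B :=
  Algebra.TensorProduct.lift ((Algebra.ofId k B).comp (Phi.ev p ψ)) (AlgHom.id k B)
    (fun _ _ => Commute.all _ _)

lemma evB_tmul (r : Phi p ψ) (f : B) : evB p ψ (r ⊗ₜ f) = algebraMap k B (Phi.ev p ψ r) * f := by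
  simp [evB, Algebra.ofId_apply]

lemma evB_surjective : Function.Surjective (evB p ψ) := fun b => ⟨1 ⊗ₜ b, by
  rw [evB_tmul, map_one, map_one, one_mul]⟩

instance [Nontrivial B] : Nontrivial (Phi p ψ ⊗[k] B) := (evB p ψ).toRingHom.domain_nontrivial

instance [Nontrivial B] [CharP k p] : CharP (Phi p ψ ⊗[k] B) p :=
  charP_of_injective_algebraMap (algebraMap k (Phi p ψ ⊗[k] B)).injective p

lemma evB_dE (d : Derivation k B B) (u : Phi p ψ ⊗[k] B) :
    evB p ψ (dE p ψ d u) = d (evB p ψ u) := by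
  induction u using TensorProduct.induction_on with
  | zero => simp
  | add x y hx hy => simp only [map_add, hx, hy]
  | tmul r f =>
    rw [dE_tmul, evB_tmul, evB_tmul, Derivation.leibniz, Derivation.map_algebraMap, smul_eq_mul,
      smul_zero, add_zero]

lemma evB_hEl {ι : Type*} [Fintype ι] (F : Frob k B ι) :
    evB p ψ (hEl F p ψ) = ∑ i, ψ (F.b i) • F.b' i := by
  rw [hEl, map_sum]
  refine sum_congr rfl fun i _ => ?_
  rw [evB_tmul, Phi.ev_z, Algebra.smul_def]

/-- Eigenvalues of `Z`. -/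
lemma exists_eigen {ι : Type*} [Fintype ι] (F : Frob k B ι) [Module.Finite k B]
    [Module.Finite k (Phi p ψ)] (d : Derivation k B B) {g : Phi p ψ ⊗[k] B}
    (hg : hEl F p ψ * g = 1) (ζ : k) (v : B) (hv : v ≠ 0)
    (hζ : d v = ζ • ((∑ i, ψ (F.b i) • F.b' i) * v)) :
    ∃ u : Phi p ψ ⊗[k] B, u ≠ 0 ∧ Zop p ψ d g u = ζ • u := by
  by_contra hcon
  push Not at hcon
  set T : Module.End k (Phi p ψ ⊗[k] B) := Zop p ψ d g - ζ • LinearMap.id with hT
  have hinj : Function.Injective T := by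
    rw [injective_iff_map_eq_zero]
    intro u hu
    by_contra hu0
    apply hcon u hu0
    rw [hT, LinearMap.sub_apply, LinearMap.smul_apply, LinearMap.id_apply, sub_eq_zero] at hu
    exact hu
  have hsurj : Function.Surjective T := LinearMap.injective_iff_surjective.1 hinj
  set D0 : Module.End k B := LinearMap.mulLeft k (evB p ψ g) * (d : B →ₗ[k] B) - ζ • LinearMap.id
    with hD0
  have hint : ∀ u, evB p ψ (T u) = D0 (evB p ψ u) := by
    intro u
    rw [hT, hD0, LinearMap.sub_apply, LinearMap.sub_apply, map_sub, Zop_apply, map_mul, evB_dE,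
      LinearMap.smul_apply, LinearMap.smul_apply, map_smul]
    rfl
  have hsurj' : Function.Surjective D0 := by
    intro b
    obtain ⟨u, hu⟩ := evB_surjective p ψ b
    obtain ⟨w, hw⟩ := hsurj u
    exact ⟨evB p ψ w, by rw [← hint, hw, hu]⟩
  have hinj' : Function.Injective D0 := LinearMap.injective_iff_surjective.2 hsurj'
  apply hv
  apply hinj'
  rw [map_zero, hD0, LinearMap.sub_apply, LinearMap.smul_apply, LinearMap.id_apply,
    Module.End.mul_apply, LinearMap.mulLeft_apply, Derivation.coeFn_coe, hζ, mul_smul_comm]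
  have h1 : evB p ψ g * ∑ i, ψ (F.b i) • F.b' i = 1 := by
    rw [← evB_hEl, ← map_mul, mul_comm, hg, map_one]
  rw [← mul_assoc, h1, one_mul, sub_self]

end Ev

end Pool.Agent.W_MP_e80488_al
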