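import Pool.Agent.W_MP_e80488_al.Gens
import Pool.Agent.W_MP_e80488_al.ZOp

set_option autoImplicit false

/-!
# The modules over the reduced enveloping algebra
-/

namespace Pool.Agent.W_MP_e80488_al

open Finset TensorProduct

attribute [local instance 100] LieRing.ofAssociativeRing

section Fin

variable {k : Type*} [Field k] {p n : ℕ} {m : Fin n → ℕ}

instance : Module.Finite k (DP k p m) := Module.Finite.of_basis (DP.basis k p m)

end Fin

section Act

variable {k : Type*} [Field k] {p M : ℕ} [hp : Fact p.Prime] [CharP k p]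

omit [CharP k p] in
lemma psiO_one (hM : M ≠ 0) (c : k) : psiO k p M c 1 = c := by
  rw [psiO, LinearMap.add_apply, LinearMap.smul_apply, DP.one_def, eps_mono,
    if_pos (show (fun _ : Fin 2 => 0) = 0 from rfl), coord_mono, if_neg, zero_add, smul_eq_mul,
    mul_one]
  intro h
  have h1 := congrFun h 1
  have h2 : 0 = p ^ M - 1 := h1
  have := one_lt_q (p := p) hM
  omega

omit [CharP k p] in
lemma psiB_one (hM : M ≠ 0) (c : k) : psiB k p M c 1 = c := by
  have h := psiO_iO (p := p) (M := M) c 1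
  rw [map_one, psiO_one hM] at h
  exact h.symm

/-- the space of the representation -/
abbrev FO (k : Type*) [Field k] (p M : ℕ) [hp : Fact p.Prime] [CharP k p] (c : k) : Type _ :=
  Phi p (psiO k p M c) ⊗[k] DP k p (mO M)

/-- the small space -/
abbrev EB (k : Type*) [Field k] (p M : ℕ) [hp : Fact p.Prime] [CharP k p] (c : k) : Type _ :=
  Phi p (psiB k p M c) ⊗[k] DP k p (mB M)

/-- the representation of the envelope -/
noncomputable def repO (c : k) : Env k p (mO M) →ₗ⁅k⁆ Module.End k (FO k p M c) :=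
  (rho (frobDP (k := k) (p := p) (m := mO M)) p (psiO k p M c)).comp toDer

lemma repO_pow (hM : M ≠ 0) {c : k} (hc : c ^ p = c) (x y : Env k p (mO M))
    (h : (y : Module.End k (DP k p (mO M))) = (x : Module.End k (DP k p (mO M))) ^ p) :
    repO c x ^ p = repO c y + algebraMap k _ (chi k p M x ^ p) := by
  have h1 := rho_pow (frobDP (k := k) (p := p) (m := mO M)) p (psiO k p M c) eps DP.pow_p
    (by rw [psiO_one hM, hc]) (coord (topO p M)) (by
      intro f
      rw [psiO_one hM, psiO, LinearMap.add_apply, LinearMap.smul_apply, smul_eq_mul]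
      ring) (toDer x)
  rw [← toDer_pow x y h] at h1
  exact h1

/-- the action of the reduced enveloping algebra -/
noncomputable def actO (hM : M ≠ 0) {c : k} (hc : c ^ p = c) :
    AA k p M →ₐ[k] Module.End k (FO k p M c) :=
  RedEnv.lift p _ (chi k p M) (repO c) (repO_pow hM hc)

lemma actO_gen (hM : M ≠ 0) {c : k} (hc : c ^ p = c) (f : DP k p (mO M)) (i : Fin 2) :
    actO hM hc (gen f i) = rhoG p (psiO k p M c) (f • pdD i) (pdD i f) := by
  rw [gen, actO, RedEnv.lift_iota]
  show rho _ p _ (toDer ⟨fpd f i, _⟩) = _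
  rw [toDer_fpd, rho_eq_rhoG, div_smul_pd]

/-- `ι` -/
noncomputable def iF (c : k) : EB k p M c →ₗ[k] FO k p M c :=
  tmap p (psiB k p M c) (psiO k p M c) iO (psiO_iO c)

/-- `π` -/
noncomputable def pF (c : k) : FO k p M c →ₗ[k] EB k p M c :=
  tmap p (psiO k p M c) (psiB k p M c) pO (psiB_pO c)

lemma pF_iF (c : k) (w : EB k p M c) : pF c (iF c w) = w := by
  have h1 : (PhiMap p (psiO k p M c) (psiB k p M c) pO (psiB_pO c)).comp
      (PhiMap p (psiB k p M c) (psiO k p M c) iO (psiO_iO c)) = AlgHom.id k _ := by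
    refine Phi.algHom_ext p _ fun x => ?_
    rw [AlgHom.comp_apply, PhiMap_z, PhiMap_z, pO_iO]
    rfl
  induction w using TensorProduct.induction_on with
  | zero => simp only [map_zero]
  | add x y hx hy => simp only [map_add, hx, hy]
  | tmul r f =>
    rw [iF, tmap_tmul, pF, tmap_tmul, pO_iO]
    have h2 := DFunLike.congr_fun h1 r
    rw [AlgHom.comp_apply] at h2
    rw [h2]
    rfl

lemma iF_injective (c : k) : Function.Injective (iF (p := p) (M := M) c) :=
  Function.LeftInverse.injective (pF_iF c)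

variable (hM : M ≠ 0) {c : k} (hc : c ^ p = c)
include hc

/-- action of `x b ∂_x` on the lowest part -/
lemma act_X1 (b : DP k p (mB M)) (w : EB k p M c) :
    actO hM hc (gen (mo k p M 1 0 * iO b) 0) (iF c w) = iF c (rhoG p (psiB k p M c) 0 b w) := by
  rw [actO_gen]
  have h1 : pdD 0 (mo k p M 1 0 * iO b) = iO b := by
    rw [Derivation.leibniz, pd_zero_iO, smul_zero, zero_add, pdD_apply, pd_mono_of_pos 0 (by simp)]
    · have : mono k p (mO M) (fun j => if j = 0 then ![1, 0] j - 1 else ![1, 0] j) = 1 := by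
        rw [DP.one_def]
        congr 1
        funext j
        fin_cases j <;> rfl
      rw [this, smul_eq_mul, mul_one]
    · intro j
      fin_cases j
      · show 1 < p ^ (mO M 0)
        simpa using hp.out.one_lt
      · exact pow_pos hp.out.pos _
  rw [h1, iF, tmap_rhoG p _ _ iO (psiO_iO c) 0 ((mo k p M 1 0 * iO b) • pdD 0) (by
    intro f
    rw [Derivation.zero_apply, map_zero, Derivation.smul_apply, pd_zero_iO, smul_zero])]

/-- action of `b ∂_y` on the lowest part -/
lemma act_Y0 (b : DP k p (mB M)) (w : EB k p M c) :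
    actO hM hc (gen (iO b) 1) (iF c w)
      = iF c (rhoG p (psiB k p M c) (b • pdD 0) (pdD 0 b) w) := by
  rw [actO_gen, pd_one_iO, iF, tmap_rhoG p _ _ iO (psiO_iO c) (b • pdD 0) (iO b • pdD 1) (by
    intro f
    rw [Derivation.smul_apply, Derivation.smul_apply, pd_one_iO, smul_eq_mul, smul_eq_mul,
      map_mul])]

/-- action of `b ∂_x` on the lowest part -/
lemma act_X0 (b : DP k p (mB M)) (w : EB k p M c) :
    actO hM hc (gen (iO b) 0) (iF c w) = 0 := by
  have h := tmap_rhoG p (psiB k p M c) (psiO k p M c) iO (psiO_iO c) 0 (iO b • pdD 0) (by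
    intro f
    rw [Derivation.zero_apply, map_zero, Derivation.smul_apply, pd_zero_iO, smul_zero]) 0 w
  rw [map_zero] at h
  rw [actO_gen, pd_zero_iO, iF, ← h]
  have h2 : rhoG p (psiB k p M c) 0 0 w = 0 := by
    have h3 : rhoG p (psiB k p M c) 0 0 = 0 := by
      refine TensorProduct.ext' fun r f => ?_
      rw [rhoG_tmul]
      simp
    rw [h3, LinearMap.zero_apply]
  rw [h2, map_zero]

/-- projections, general form -/
lemma pF_act (f : DP k p (mO M)) (i : Fin 2) (D : Derivation k (DP k p (mB M)) (DP k p (mB M)))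
    (hD : ∀ x, pO (f * pdD i x) = D (pO x)) (w : FO k p M c) :
    pF c (actO hM hc (gen f i) w) = rhoG p (psiB k p M c) D (pO (pdD i f)) (pF c w) := by
  rw [actO_gen, pF, tmap_rhoG p _ _ pO (psiB_pO c) (f • pdD i) D (by
    intro x
    rw [Derivation.smul_apply, smul_eq_mul, hD])]

lemma pF_act_pos (f : DP k p (mO M)) (i : Fin 2) (hD : ∀ x, pO (f * pdD i x) = 0)
    (hdiv : pO (pdD i f) = 0) (w : FO k p M c) :
    pF c (actO hM hc (gen f i) w) = 0 := by
  rw [pF_act hM hc f i 0 (by intro x; rw [hD, Derivation.zero_apply]) w, hdiv]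
  have h3 : rhoG p (psiB k p M c) 0 0 = 0 := by
    refine TensorProduct.ext' fun r f => ?_
    rw [rhoG_tmul]
    simp
  rw [h3, LinearMap.zero_apply]

omit hc in
lemma mo_zero_eq (b : ℕ) : mo k p M 0 b = iO (mono k p (mB M) (fun _ => b)) := by
  rw [iO_mono]

omit hc in
lemma mo_one_eq (b : ℕ) : mo k p M 1 b = mo k p M 1 0 * iO (mono k p (mB M) (fun _ => b)) := by
  rw [iO_mono, mono_mul_mono]
  have h1 : cc k ![1, 0] ![0, b] = 1 := by simp [cc]
  rw [h1, one_smul]
  show mono k p (mO M) ![1, b] = _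
  congr 1
  funext i
  fin_cases i <;> simp

/-- the generators of positive degree -/
lemma pF_gp {g : AA k p M} (hg : g ∈ gpS k p M) (w : FO k p M c) :
    pF c (actO hM hc g w) = 0 := by
  rcases hg with ⟨a, b, ha, rfl⟩ | ⟨a, b, ha, rfl⟩
  · refine pF_act_pos hM hc _ _ (fun x => pO_mono_mul (by
      show a ≠ 0
      omega) _) ?_ w
    rw [pdD_apply]
    by_cases h : ∀ j, (![a, b] : Fin 2 → ℕ) j < p ^ (mO M j)
    · rw [pd_mono_of_pos 0 (by show a ≠ 0; omega) h, pO_mono, if_neg]
      show a - 1 ≠ 0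
      omega
    · push Not at h
      obtain ⟨j, hj⟩ := h
      show pO (pd k p (mO M) 0 (mono k p (mO M) ![a, b])) = 0
      rw [mono_of_not j hj, map_zero, map_zero]
  · refine pF_act_pos hM hc _ _ (fun x => pO_mono_mul (by
      show a ≠ 0
      omega) _) ?_ w
    rw [pO_pd_one, pO_mono, if_neg (by show a ≠ 0; omega), map_zero]

/-- the generators of degree zero -/
lemma pF_g0 {g : AA k p M} (hg : g ∈ g0S k p M) (w : FO k p M c) (hw : pF c w = 0) :
    pF c (actO hM hc g w) = 0 := by
  rcases hg with ⟨b, rfl⟩ | ⟨b, rfl⟩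
  · rw [pF_act hM hc _ _ 0 (fun x => by
      rw [pO_mono_mul (by show 1 ≠ 0; omega), Derivation.zero_apply]), hw, map_zero]
  · rw [pF_act hM hc _ _ (mono k p (mB M) (fun _ => b) • pdD 0) (fun x => by
      rw [map_mul, mo_zero_eq, pO_iO, pO_pd_one, Derivation.smul_apply, smul_eq_mul]), hw,
      map_zero]

/-- elements acting by multiplication on the lowest part -/
lemma exists_mul (r : Phi p (psiB k p M c)) :
    ∃ a : AA k p M, ∀ w : EB k p M c, actO hM hc a (iF c w) = iF c ((r ⊗ₜ 1) * w) := by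
  induction r using Phi.induction p (psiB k p M c) with
  | h0 t =>
    refine ⟨algebraMap k _ t, fun w => ?_⟩
    rw [AlgHom.commutes, Module.algebraMap_end_apply, ← map_smul]
    congr 1
    rw [← Algebra.TensorProduct.algebraMap_apply]
    exact Algebra.smul_def t w
  | hadd x y hx hy =>
    obtain ⟨a, ha⟩ := hx
    obtain ⟨b, hb⟩ := hy
    refine ⟨a + b, fun w => ?_⟩
    rw [map_add, LinearMap.add_apply, ha, hb, ← map_add, add_tmul, add_mul]
  | hmul x f hx =>
    obtain ⟨a, ha⟩ := hx
    refine ⟨a * gen (mo k p M 1 0 * iO f) 0, fun w => ?_⟩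
    rw [map_mul, Module.End.mul_apply, act_X1, ha]
    congr 1
    rw [rhoG_eq]
    have h3 : rhoG p (psiB k p M c) 0 0 = 0 := by
      refine TensorProduct.ext' fun r f => ?_
      rw [rhoG_tmul]
      simp
    rw [h3, LinearMap.zero_apply, zero_add, ← mul_assoc, Algebra.TensorProduct.tmul_mul_tmul,
      mul_one]

/-- The operator `Z` comes from an element of the algebra. -/
lemma exists_Z {g : EB k p M c}
    (hg : hEl (frobDP (k := k) (p := p) (m := mB M)) p (psiB k p M c) * g = 1) :
    ∃ a : AA k p M, ∀ w : EB k p M c,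
      actO hM hc a (iF c w) = iF c (Zop p (psiB k p M c) (pdD 0) g w) := by
  have h1 := fun r => exists_mul hM hc r
  choose G hG using h1
  set F := frobDP (k := k) (p := p) (m := mB M) with hF
  refine ⟨∑ i, G (lamR F p (psiB k p M c) (g * (1 ⊗ₜ F.b' i))) *
    (gen (iO (F.b i)) 1 - gen (mo k p M 1 0 * iO (pdD 0 (F.b i))) 0), fun w => ?_⟩
  rw [Zop_eq F p (psiB k p M c) (pdD 0) (lam_pd 0) hg, map_sum, map_sum, LinearMap.sum_apply]
  refine sum_congr rfl fun i _ => ?_
  rw [map_mul, Module.End.mul_apply, map_sub, LinearMap.sub_apply, act_Y0, act_X1, ← map_sub,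
    hG]
  congr 2
  rw [← LinearMap.sub_apply]
  congr 1
  have h2 := rhoG_add p (psiB k p M c) (F.b i • pdD 0) 0 0 (pdD 0 (F.b i))
  rw [add_zero, zero_add] at h2
  rw [h2, add_sub_cancel_right]

end Act

end Pool.Agent.W_MP_e80488_al
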