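import Mathlib

set_option autoImplicit false

/-!
# Cartan type W Lie algebras, their minimal p-envelopes, and reduced enveloping algebras

Definitions used in the statement (MP_e80488_al). For `m : Fin n → ℕ` the algebra `O(n;m)` is the
divided power algebra with basis `x^(a)`, `0 ≤ a_i < p ^ (m i)`.
-/

namespace Pool.Agent.W_MP_e80488_al.Car

universe u

variable (k : Type u) [Field k] (p : ℕ) {n : ℕ} (m : Fin n → ℕ)

/-- The multi-indices `a = (a_1, …, a_n)` with `0 ≤ a_i < p ^ (m i)`. -/
abbrev Idx : Type := (i : Fin n) → Fin (p ^ m i)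

/-- The divided power algebra `O(n;m)`, as a `k`-space with one basis vector `x^(a)` for every
multi-index `a` in `Idx p m`. -/
def DP : Type u := Idx p m →₀ k

noncomputable instance : AddCommGroup (DP k p m) := Finsupp.instAddCommGroup

noncomputable instance : Module k (DP k p m) := Finsupp.module (Idx p m) k

/-- The basis `x^(a)` of `O(n;m)`. -/
noncomputable def DP.basis : Module.Basis (Idx p m) k (DP k p m) :=
  ⟨LinearEquiv.refl k (Idx p m →₀ k)⟩

/-- The linear operators on `O(n;m)`, with the composition product. -/
def Op : Type u := Module.End k (DP k p m)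

noncomputable instance : Ring (Op k p m) := Module.End.instRing

noncomputable instance : Algebra k (Op k p m) := Module.End.instAlgebra k k (DP k p m)

/-- The bracket of operators is the commutator. -/
noncomputable instance : LieRing (Op k p m) := LieRing.ofAssociativeRing

noncomputable instance : LieAlgebra k (Op k p m) := LieAlgebra.ofAssociativeAlgebra

/-- The monomial `x^(a)` of `O(n;m)`; it is `0` when some `a i ≥ p ^ (m i)`. -/
noncomputable def mono (a : Fin n → ℕ) : DP k p m :=
  if h : ∀ i, a i < p ^ m i then DP.basis k p m (fun i => ⟨a i, h i⟩) else 0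

/-- Multiplication by `x^(a)`: it sends `x^(b)` to `∏ i, C(a i + b i, a i) x^(a + b)`. -/
noncomputable def mulMono (a : Fin n → ℕ) : Op k p m :=
  (DP.basis k p m).constr k fun b : Idx p m =>
    (∏ i, ((a i + b i).choose (a i) : k)) • mono k p m (fun i => a i + b i)

/-- The derivation `∂_i`: it sends `x^(b)` to `x^(b - e_i)` if `b i ≠ 0` and to `0` otherwise. -/
noncomputable def pd (i : Fin n) : Op k p m :=
  (DP.basis k p m).constr k fun b : Idx p m =>
    if (b i : ℕ) = 0 then 0 else mono k p m (fun j => if j = i then b j - 1 else b j)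

/-- `W(n;m)`: the span of the derivations `x^(a) ∂_i` of `O(n;m)`, `a` in `Idx p m`. -/
noncomputable def W : Submodule k (Op k p m) :=
  Submodule.span k {D | ∃ (a : Idx p m) (i : Fin n),
    D = mulMono k p m (fun j => (a j : ℕ)) * pd k p m i}

/-- The minimal `p`-envelope of `W(n;m)`, realized by derivations: the smallest space of linear
operators on `O(n;m)` which contains `W(n;m)` and is closed under commutators and `p`-th powers.
Its `p`-map is `D ↦ D ^ p`. -/
noncomputable def Env : LieSubalgebra k (Op k p m) :=
  sInf {G | (W k p m : Set (Op k p m)) ⊆ G ∧ ∀ D ∈ G, D ^ p ∈ G}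

/-- The minimal `p`-envelope `Env k p m` as a Lie algebra. -/
def X : Type u := Env k p m

noncomputable instance : LieRing (X k p m) := LieSubalgebra.lieRing k (Op k p m) (Env k p m)

noncomputable instance : LieAlgebra k (X k p m) :=
  LieSubalgebra.lieAlgebra k (Op k p m) (Env k p m)

/-- An element of the minimal `p`-envelope as a linear operator on `O(n;m)`. -/
def X.op {k : Type u} [Field k] {p n : ℕ} {m : Fin n → ℕ} (x : X k p m) : Op k p m := x.1

/-- `X k p m` has the smallest dimension among the `p`-envelopes of `W(n;m)`. Here `G` runs over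
all finite-dimensional Lie algebras with a map `P` such that `ad (P x) = (ad x) ^ p` for all `x`
(a `p`-map is such a map) and with a linear map `ι` whose restriction to `W(n;m)` is an injective
homomorphism of Lie algebras. -/
def EnvMinimal : Prop :=
  ∀ (G : Type u) [LieRing G] [LieAlgebra k G] [Module.Finite k G] (P : G → G)
    (ι : Op k p m →ₗ[k] G),
    (∀ x y : G, ⁅P x, y⁆ = (LieAlgebra.ad k G x ^ p) y) →
    (∀ D ∈ W k p m, ι D = 0 → D = 0) →
    (∀ D ∈ W k p m, ∀ E ∈ W k p m, ι (D * E - E * D) = ⁅ι D, ι E⁆) →
    Module.finrank k (X k p m) ≤ Module.finrank k G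

/-- The degree `d` component of `O(n;m)`: the span of the `x^(a)` with `a_1 + ⋯ + a_n = d`. -/
noncomputable def homog (d : ℤ) : Submodule k (DP k p m) :=
  Submodule.span k {f | ∃ a : Idx p m, ∑ i, ((a i : ℕ) : ℤ) = d ∧
    f = mono k p m (fun i => (a i : ℕ))}

/-- The operator `D` raises the degree in `O(n;m)` by `d`. -/
def HasDegree (d : ℤ) (D : Module.End k (DP k p m)) : Prop :=
  ∀ e, ∀ f ∈ homog k p m e, D f ∈ homog k p m (e + d)

/-- The characters of the minimal `p`-envelope. -/
abbrev Chr : Type u := Module.Dual k (X k p m)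

/-- A character `χ` of the minimal `p`-envelope has non-maximal height when it vanishes on the
component of the largest degree `r` for which this component is nonzero. The component of degree
`d` consists of the elements of the envelope which raise the degree in `O(n;m)` by `d`. -/
def NonMaximalHeight (χ : Chr k p m) : Prop :=
  ∃ r : ℤ, IsGreatest {d : ℤ | ∃ x : X k p m, x ≠ 0 ∧ HasDegree k p m d x.op} r ∧
    ∀ x : X k p m, HasDegree k p m r x.op → χ x = 0

/-- The relations `x^p = x^[p] + χ(x)^p` in the universal enveloping algebra of the minimal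
`p`-envelope, where `x^[p]` is the `p`-th power of `x` as an operator. -/
def redRel (χ : Chr k p m) :
    UniversalEnvelopingAlgebra k (X k p m) → UniversalEnvelopingAlgebra k (X k p m) → Prop :=
  fun a b => ∃ x y : X k p m, y.op = x.op ^ p ∧ a = UniversalEnvelopingAlgebra.ι k x ^ p ∧
    b = UniversalEnvelopingAlgebra.ι k y + algebraMap k _ (χ x ^ p)

/-- The reduced enveloping algebra `u(X, χ)` of the minimal `p`-envelope `X` of `W(n;m)`. -/
def RedEnv (χ : Chr k p m) : Type u := RingQuot (redRel k p m χ)

noncomputable instance (χ : Chr k p m) : Ring (RedEnv k p m χ) := RingQuot.instRing _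

noncomputable instance (χ : Chr k p m) : Algebra k (RedEnv k p m χ) := RingQuot.instAlgebra _

/-- The maximal dimension of a torus in `W(n;m)`, a torus being a Lie algebra of operators
`t ⊆ W(n;m)` on which the `p`-th power map is a bijection `t → t`. For `m = (1, …, 1)` this is the
maximal toral rank of the restricted Lie algebra `W(n;m)`, whose `p`-map is `D ↦ D ^ p`. -/
noncomputable def mt : ℕ :=
  sSup {d | ∃ t : LieSubalgebra k (Op k p m), (t : Set (Op k p m)) ⊆ W k p m ∧
    Set.BijOn (fun x => x ^ p) (t : Set (Op k p m)) t ∧ Module.finrank k t = d}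

/-- The `k`-algebra `A` has at least `N` pairwise non-isomorphic simple modules of finite
dimension over `k`. -/
def AtLeastSimples (A : Type u) [Ring A] [Algebra k A] (N : ℕ) : Prop :=
  ∃ (V : Fin N → Type u) (_ : ∀ i, AddCommGroup (V i)) (_ : ∀ i, Module k (V i))
    (_ : ∀ i, Module A (V i)) (_ : ∀ i, IsScalarTower k A (V i)),
    (∀ i, IsSimpleModule A (V i)) ∧ (∀ i, Module.Finite k (V i)) ∧
      ∀ i j, Nonempty (V i ≃ₗ[A] V j) → i = j

/-- Some character `χ` of non-maximal height of the minimal `p`-envelope `X` of `W(n;m)` is such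
that `u(X, χ)` has at least `N` pairwise non-isomorphic simple modules. -/
def ManySimples (N : ℕ) : Prop :=
  ∃ χ : Chr k p m, NonMaximalHeight k p m χ ∧ AtLeastSimples k (RedEnv k p m χ) N

end Pool.Agent.W_MP_e80488_al.Car
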