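import Pool.Agent.W_MP_e80488_al.Final
import Pool.Agent.W_MP_e80488_al.Statement

set_option autoImplicit false

/-!
# From the internal definitions to the definitions of the statement
-/

namespace Pool.Agent.W_MP_e80488_al

attribute [local instance 100] LieRing.ofAssociativeRing

universe u

section Pull

variable {k A A' : Type u} [Field k] [Ring A] [Algebra k A] [Ring A'] [Algebra k A']

/-- pulling simple modules back along a surjection -/
lemma simples_of_surj (f : A' →ₐ[k] A) (hf : Function.Surjective f) {N : ℕ}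
    (h : AtLeastSimples k A N) : Car.AtLeastSimples k A' N := by
  obtain ⟨V, i1, i2, i3, i4, h1, h2, h3⟩ := h
  refine ⟨V, i1, i2, fun i => Module.compHom (V i) f.toRingHom, ?_, ?_, h2, ?_⟩
  · intro i
    let _ : Module A' (V i) := Module.compHom (V i) f.toRingHom
    refine ⟨fun c a v => ?_⟩
    show f (c • a) • v = c • (f a • v)
    rw [map_smul, smul_assoc]
  · intro i
    let _ : Module A' (V i) := Module.compHom (V i) f.toRingHom
    have h4 := isSimpleModule_iff_toSpanSingleton_surjective.1 (h1 i)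
    refine isSimpleModule_iff_toSpanSingleton_surjective.2 ⟨h4.1, fun x hx y => ?_⟩
    obtain ⟨a, ha⟩ := h4.2 x hx y
    obtain ⟨a', rfl⟩ := hf a
    exact ⟨a', ha⟩
  · intro i j hij
    let _ : Module A' (V i) := Module.compHom (V i) f.toRingHom
    let _ : Module A' (V j) := Module.compHom (V j) f.toRingHom
    obtain ⟨φ⟩ := hij
    refine h3 i j ⟨{ φ.toAddEquiv with map_smul' := ?_ }⟩
    intro a v
    obtain ⟨a', rfl⟩ := hf a
    exact φ.map_smul a' v

end Pull

section Bridge

variable {k : Type u} [Field k] {p n : ℕ} {m : Fin n → ℕ}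

lemma Env_bridge : Car.Env k p m = Env k p m := rfl

lemma mt_bridge : Car.mt k p m = mt p (W k p m) := rfl

/-- identity map -/
noncomputable def toOld : Car.X k p m →ₗ⁅k⁆ Env k p m where
  toFun x := ⟨x.op, x.2⟩
  map_add' _ _ := rfl
  map_smul' _ _ := rfl
  map_lie' := rfl

/-- identity map -/
noncomputable def toNew : Env k p m →ₗ⁅k⁆ Car.X k p m where
  toFun x := (⟨x.1, x.2⟩ : Car.Env k p m)
  map_add' _ _ := rfl
  map_smul' _ _ := rfl
  map_lie' := rfl

lemma toOld_toNew (x : Env k p m) : toOld (toNew x) = x := rfl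

lemma toNew_toOld (x : Car.X k p m) : toNew (toOld x) = x := rfl

/-- the new reduced enveloping algebra maps onto the old one -/
noncomputable def redMap (χ : Module.Dual k (Env k p m)) :
    Car.RedEnv k p m (χ ∘ₗ toOld.toLinearMap) →ₐ[k] RedEnv p (Env k p m) χ :=
  RingQuot.liftAlgHom k ⟨UniversalEnvelopingAlgebra.lift k
    (((⟨RedEnv.iota p (Env k p m) χ, by
      intro x y
      rw [Ring.lie_def]
      exact RedEnv.iota_lie p (Env k p m) χ x y⟩ : Env k p m →ₗ⁅k⁆ RedEnv p (Env k p m) χ)).comp
      toOld), by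
    rintro a b ⟨x, y, hxy, rfl, rfl⟩
    rw [map_pow, map_add, AlgHom.commutes, UniversalEnvelopingAlgebra.lift_ι_apply,
      UniversalEnvelopingAlgebra.lift_ι_apply]
    exact RedEnv.iota_pow p (Env k p m) χ (toOld x) (toOld y) hxy⟩

/-- projection -/
noncomputable def newMk (χ : Car.Chr k p m) :
    UniversalEnvelopingAlgebra k (Car.X k p m) →ₐ[k] Car.RedEnv k p m χ :=
  RingQuot.mkAlgHom k (Car.redRel k p m χ)

lemma redMap_mk (χ : Module.Dual k (Env k p m)) (x : Car.X k p m) :
    redMap χ (newMk _ (UniversalEnvelopingAlgebra.ι k x)) = RedEnv.iota p (Env k p m) χ (toOld x) :=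
  (RingQuot.liftAlgHom_mkAlgHom_apply k _ _ _).trans
    (UniversalEnvelopingAlgebra.lift_ι_apply k _ _)

lemma redMap_surjective (χ : Module.Dual k (Env k p m)) :
    Function.Surjective (redMap (p := p) (m := m) χ) := by
  rw [← AlgHom.range_eq_top, ← top_le_iff, ← RedEnv.adjoin_iota, Algebra.adjoin_le_iff]
  rintro _ ⟨x, rfl⟩
  exact ⟨newMk _ (UniversalEnvelopingAlgebra.ι k (toNew x)), redMap_mk χ (toNew x)⟩

lemma height_bridge (χ : Module.Dual k (Env k p m)) (h : NonMaximalHeight k p m χ) :
    Car.NonMaximalHeight k p m (χ ∘ₗ toOld.toLinearMap) := by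
  obtain ⟨r, ⟨h1, h2⟩, h3⟩ := h
  refine ⟨r, ⟨?_, ?_⟩, ?_⟩
  · have h4 : envDeg k p m r ≠ ⊥ := h1
    rw [Submodule.ne_bot_iff] at h4
    obtain ⟨D, hD, hD0⟩ := h4
    refine ⟨toNew D, fun h => hD0 ?_, hD⟩
    rw [← toOld_toNew D, h, map_zero]
  · rintro d ⟨D, hD0, hD1⟩
    apply h2
    show envDeg k p m d ≠ ⊥
    rw [Submodule.ne_bot_iff]
    refine ⟨toOld D, hD1, fun h => hD0 ?_⟩
    rw [← toNew_toOld D, h, map_zero]
  · intro D hD
    exact h3 (toOld D) hD

lemma finrank_bridge : Module.finrank k (Car.X k p m) = Module.finrank k (Env k p m) := by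
  refine LinearEquiv.finrank_eq ?_
  exact
    { toFun := toOld
      map_add' := fun x y => map_add toOld x y
      map_smul' := fun c x => map_smul toOld c x
      invFun := toNew
      left_inv := toNew_toOld
      right_inv := toOld_toNew }

lemma min_bridge (h : EnvMinimal k p m) : Car.EnvMinimal k p m := by
  intro G _ _ _ P ι hP hinj hlie
  rw [finrank_bridge]
  let ι' : W k p m →ₗ[k] G :=
    { toFun := fun w => ι w.1
      map_add' := fun x y => map_add ι x.1 y.1
      map_smul' := fun c x => map_smul ι c x.1 }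
  refine h G P ι' hP ?_ ?_
  · rw [injective_iff_map_eq_zero]
    intro x hx
    exact Subtype.ext (hinj x.1 x.2 hx)
  · intro D E F hF
    have h1 := hlie D.1 D.2 E.1 E.2
    show ι F.1 = _
    rw [hF]
    exact h1

/-- conclusion -/
lemma many_bridge {χ : Module.Dual k (Env k p m)} {N : ℕ} (h : NonMaximalHeight k p m χ)
    (h' : AtLeastSimples k (RedEnv p (Env k p m) χ) N) : Car.ManySimples k p m N :=
  ⟨_, height_bridge χ h, simples_of_surj (redMap χ) (redMap_surjective _) h'⟩

end Bridge

end Pool.Agent.W_MP_e80488_al
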