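import Pool.Agent.W_MP_e80488_al.Jac

set_option autoImplicit false

/-!
# Divergence on a Frobenius algebra
-/

namespace Pool.Agent.W_MP_e80488_al

open Finset

/-- A commutative algebra with a functional and a pair of dual bases. -/
structure Frob (k O ι : Type*) [Field k] [CommRing O] [Algebra k O] [Fintype ι] where
  lam : O →ₗ[k] k
  b : ι → O
  b' : ι → O
  expand : ∀ w : O, w = ∑ i, lam (w * b' i) • b i

namespace Frob

variable {k O ι : Type*} [Field k] [CommRing O] [Algebra k O] [Fintype ι] (F : Frob k O ι)

lemma eq_zero {w : O} (h : ∀ x, F.lam (w * x) = 0) : w = 0 := by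
  rw [F.expand w]
  exact sum_eq_zero fun i _ => by rw [h]; simp

lemma ext {w w' : O} (h : ∀ x, F.lam (w * x) = F.lam (w' * x)) : w = w' := by
  rw [← sub_eq_zero]
  refine F.eq_zero fun x => ?_
  rw [sub_mul, map_sub, h, sub_self]

/-- the divergence of a derivation -/
noncomputable def div : Derivation k O O →ₗ[k] O where
  toFun D := - ∑ i, F.lam (D (F.b i)) • F.b' i
  map_add' D E := by
    simp only [Derivation.add_apply, map_add, add_smul, sum_add_distrib, neg_add_rev]
    ring
  map_smul' c D := by
    simp only [Derivation.smul_apply, map_smul, smul_eq_mul, RingHom.id_apply, smul_neg,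
      smul_sum, smul_smul]

lemma lam_div (D : Derivation k O O) (x : O) : F.lam (F.div D * x) = - F.lam (D x) := by
  have h1 : F.lam (D x) = ∑ i, F.lam (x * F.b' i) * F.lam (D (F.b i)) := by
    conv_lhs => rw [F.expand x]
    simp only [map_sum, map_smul, smul_eq_mul, Derivation.map_smul]
  rw [h1]
  simp only [div, LinearMap.coe_mk, AddHom.coe_mk, neg_mul, map_neg, sum_mul, map_sum,
    smul_mul_assoc, map_smul, smul_eq_mul]
  congr 1
  refine sum_congr rfl fun i _ => ?_
  rw [mul_comm x, mul_comm (F.lam (D (F.b i)))]

lemma lam_adj (D : Derivation k O O) (x y : O) :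
    F.lam (D x * y) = - F.lam (x * tw D (F.div D) y) := by
  have h := F.lam_div D (x * y)
  rw [Derivation.leibniz] at h
  simp only [smul_eq_mul, map_add] at h
  rw [tw_apply, mul_add, map_add]
  have h1 : y * D x = D x * y := mul_comm _ _
  have h2 : x * (F.div D * y) = F.div D * (x * y) := by ring
  rw [h1] at h
  rw [h2, h]
  ring

lemma div_lie (D E : Derivation k O O) :
    F.div ⁅D, E⁆ = D (F.div E) - E (F.div D) := by
  refine F.ext fun x => ?_
  rw [lam_div, Derivation.commutator_apply, map_sub]
  have h1 : F.lam (D (E x)) = - F.lam (F.div D * E x) := by rw [lam_div]; ring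
  have h2 : F.lam (E (D x)) = - F.lam (F.div E * D x) := by rw [lam_div]; ring
  have h3 : F.lam (F.div D * E x) = - F.lam (F.div E * (F.div D * x))
      - F.lam (E (F.div D) * x) := by
    have := F.lam_div E (F.div D * x)
    rw [Derivation.leibniz] at this
    simp only [smul_eq_mul, map_add] at this
    have h4 : x * E (F.div D) = E (F.div D) * x := mul_comm _ _
    rw [h4] at this
    rw [this]
    ring
  have h5 : F.lam (F.div E * D x) = - F.lam (F.div D * (F.div E * x))
      - F.lam (D (F.div E) * x) := by
    have := F.lam_div D (F.div E * x)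
    rw [Derivation.leibniz] at this
    simp only [smul_eq_mul, map_add] at this
    have h4 : x * D (F.div E) = D (F.div E) * x := mul_comm _ _
    rw [h4] at this
    rw [this]
    ring
  have h6 : F.div D * (F.div E * x) = F.div E * (F.div D * x) := by ring
  rw [h6] at h5
  rw [h1, h2, h3, h5, sub_mul, map_sub]
  ring

lemma lam_adj_pow (D : Derivation k O O) (n : ℕ) (x y : O) :
    F.lam (((((D : O →ₗ[k] O) : Module.End k O) ^ n) x) * y)
      = (-1) ^ n * F.lam (x * (tw D (F.div D) ^ n) y) := by
  induction n generalizing x y with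
  | zero => simp
  | succ n ih =>
    rw [pow_succ', Module.End.mul_apply, Derivation.coeFn_coe, lam_adj, ih, pow_succ' (-1 : k),
      pow_succ (tw D (F.div D)), Module.End.mul_apply]
    ring

variable (p : ℕ) [hp : Fact p.Prime] [CharP k p] [CharP O p]

lemma div_derPow (D : Derivation k O O) :
    F.div (derPow D p) = D^[p - 1] (F.div D) + (F.div D) ^ p := by
  refine F.ext fun x => ?_
  have h := F.lam_adj_pow D p x 1
  rw [tw_pow_p_one, neg_one_pow_char, mul_one] at h
  rw [lam_div, derPow_apply, h, mul_comm x]
  ring

end Frob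

end Pool.Agent.W_MP_e80488_al
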