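import Pool.Agent.W_MP_e80488_al.DPRing
import Pool.Agent.W_MP_e80488_al.Frob

set_option autoImplicit false

/-!
# Frobenius structure on `O(n;m)`, p-th powers
-/

namespace Pool.Agent.W_MP_e80488_al

open Finset

section Choose

variable {k : Type*} [Field k] {p : ℕ} [hp : Fact p.Prime] [CharP k p]

lemma choose_pred_pow (m a : ℕ) (h : a < p ^ m) : (((p ^ m - 1).choose a : ℕ) : k) = (-1) ^ a := by
  induction a with
  | zero => simp
  | succ a ih =>
    have h1 := ih (by omega)
    have h2 : p ∣ (p ^ m).choose (a + 1) := hp.out.dvd_choose_pow (by omega) (by omega)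
    have h3 : (p ^ m).choose (a + 1) = (p ^ m - 1).choose a + (p ^ m - 1).choose (a + 1) := by
      conv_lhs => rw [show p ^ m = p ^ m - 1 + 1 by omega]
      rw [Nat.choose_succ_succ]
    have h4 : (((p ^ m - 1).choose a : ℕ) : k) + (((p ^ m - 1).choose (a + 1) : ℕ) : k) = 0 := by
      have := (CharP.cast_eq_zero_iff k p _).2 h2
      rw [h3] at this
      push_cast at this
      exact this
    rw [h1] at h4
    rw [pow_succ]
    linear_combination h4

omit hp [CharP k p] in
lemma dvd_choose_mul (p a : ℕ) (ha : a ≠ 0) : p ∣ (p * a).choose a := by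
  obtain ⟨b, rfl⟩ : ∃ b, a = b + 1 := ⟨a - 1, by omega⟩
  rcases Nat.eq_zero_or_pos p with h0 | h0
  · subst h0; simp
  refine ⟨(p * (b + 1) - 1).choose b, ?_⟩
  have h := Nat.add_one_mul_choose_eq (p * (b + 1) - 1) b
  have h1 : p * (b + 1) - 1 + 1 = p * (b + 1) := by
    have : 0 < p * (b + 1) := by positivity
    omega
  rw [h1] at h
  have h2 : (b + 1) * (p * (p * (b + 1) - 1).choose b) = (b + 1) * (p * (b + 1)).choose (b + 1) := by
    calc (b + 1) * (p * (p * (b + 1) - 1).choose b)
        = p * (b + 1) * (p * (b + 1) - 1).choose b := by ring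
      _ = (p * (b + 1)).choose (b + 1) * (b + 1) := h
      _ = _ := by ring
  exact (Nat.eq_of_mul_eq_mul_left (by omega) h2).symm

end Choose

section

variable {k : Type*} [Field k] {p : ℕ} {n : ℕ} {m : Fin n → ℕ}
variable [hp : Fact p.Prime]

/-- the top multi-index -/
def tau (p : ℕ) [hp : Fact p.Prime] {n : ℕ} (m : Fin n → ℕ) : Idx p m :=
  fun i => ⟨p ^ m i - 1, Nat.sub_lt (pow_pos hp.out.pos _) one_pos⟩

lemma tau_val (i : Fin n) : (tau p m i : ℕ) = p ^ m i - 1 := rfl

/-- the complementary multi-index -/
def compl (a : Idx p m) : Idx p m := fun i => ⟨p ^ m i - 1 - a i, by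
  have := (a i).2
  omega⟩

omit hp in
lemma compl_val (a : Idx p m) (i : Fin n) : (compl a i : ℕ) = p ^ m i - 1 - a i := rfl

/-- the coordinate functional at the multi-index `a` -/
noncomputable def coord (a : Idx p m) : DP k p m →ₗ[k] k := (DP.basis k p m).coord a

omit hp in
lemma coord_mono_coe (a b : Idx p m) :
    coord (k := k) a (mono k p m (fun i => (b i : ℕ))) = if b = a then 1 else 0 := by
  classical
  rw [mono_coe, coord, Module.Basis.coord_apply, Module.Basis.repr_self, Finsupp.single_apply]

omit hp in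
lemma coord_mono (a : Idx p m) (b : Fin n → ℕ) :
    coord (k := k) a (mono k p m b) = if b = (fun i => (a i : ℕ)) then 1 else 0 := by
  by_cases h : ∀ i, b i < p ^ m i
  · have h1 := coord_mono_coe (k := k) a (fun i => ⟨b i, h i⟩)
    simp only at h1
    rw [h1]
    refine if_congr ?_ rfl rfl
    constructor
    · intro h2
      funext i
      rw [← h2]
    · intro h2
      funext i
      exact Fin.ext (congrFun h2 i)
  · push Not at h
    obtain ⟨i, hi⟩ := h
    rw [mono_of_not i hi, map_zero, if_neg]
    intro h2
    have := congrFun h2 i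
    have := (a i).2
    omega

variable [CharP k p]

/-- signs -/
def sgn (k : Type*) [Field k] {p n : ℕ} {m : Fin n → ℕ} (a : Idx p m) : k := ∏ i, (-1) ^ (a i : ℕ)

omit hp [CharP k p] in
lemma sgn_mul_self (a : Idx p m) : sgn k a * sgn k a = 1 := by
  unfold sgn
  rw [← prod_mul_distrib]
  refine prod_eq_one fun i _ => ?_
  rw [← pow_add, ← two_mul, pow_mul]
  simp

lemma coord_tau_mul (c a : Idx p m) :
    coord (k := k) (tau p m) (mono k p m (fun i => (c i : ℕ)) *
      mono k p m (fun i => (compl a i : ℕ))) = if c = a then sgn k a else 0 := by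
  rw [mono_mul_mono, map_smul, coord_mono]
  by_cases h : c = a
  · subst h
    rw [if_pos rfl, if_pos, smul_eq_mul, mul_one]
    · unfold cc sgn
      refine prod_congr rfl fun i _ => ?_
      simp only
      rw [compl_val, show (c i : ℕ) + (p ^ m i - 1 - c i) = p ^ m i - 1 by
        have := (c i).2
        omega]
      exact choose_pred_pow _ _ (c i).2
    · funext i
      rw [compl_val, tau_val]
      have := (c i).2
      omega
  · rw [if_neg h, if_neg, smul_zero]
    intro h2
    apply h
    funext i
    have h3 := congrFun h2 i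
    simp only [compl_val, tau_val] at h3
    have := (c i).2
    have := (a i).2
    exact Fin.ext (by omega)

/-- The Frobenius structure of `O(n;m)`. -/
noncomputable def frobDP : Frob k (DP k p m) (Idx p m) where
  lam := coord (tau p m)
  b a := mono k p m (fun i => (a i : ℕ))
  b' a := sgn k a • mono k p m (fun i => (compl a i : ℕ))
  expand w := by
    classical
    induction w using DP.induction with
    | h0 => simp
    | hadd f g hf hg =>
      conv_lhs => rw [hf, hg]
      rw [← sum_add_distrib]
      refine sum_congr rfl fun a _ => ?_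
      rw [add_mul, map_add, add_smul]
    | hsmul c a =>
      have h : ∀ b : Idx p m, coord (k := k) (tau p m)
          (c • mono k p m (fun i => (a i : ℕ)) *
            sgn k b • mono k p m (fun i => (compl b i : ℕ)))
          • mono k p m (fun i => (b i : ℕ))
          = if a = b then c • mono k p m (fun i => (b i : ℕ)) else 0 := by
        intro b
        rw [smul_mul_smul_comm, map_smul, coord_tau_mul]
        by_cases hab : a = b
        · rw [if_pos hab, if_pos hab, smul_eq_mul, mul_assoc, sgn_mul_self, mul_one]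
        · rw [if_neg hab, if_neg hab, smul_zero, zero_smul]
      rw [sum_congr rfl fun b _ => h b]
      rw [sum_ite_eq univ a, if_pos (mem_univ a)]

lemma frobDP_lam : (frobDP (k := k) (p := p) (m := m)).lam = coord (tau p m) := rfl

/-- the top coordinate vanishes on derivatives -/
lemma lam_pd (i : Fin n) (f : DP k p m) :
    (frobDP (k := k) (p := p) (m := m)).lam (pdD i f) = 0 := by
  rw [frobDP_lam, pdD_apply]
  induction f using DP.induction with
  | h0 => simp
  | hadd f g hf hg => rw [map_add, map_add, hf, hg, add_zero]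
  | hsmul c a =>
    rw [map_smul, map_smul, pd_mono_coe]
    by_cases h : (a i : ℕ) = 0
    · rw [if_pos h]; simp
    · rw [if_neg h, coord_mono, if_neg, smul_zero]
      intro h2
      have h3 := congrFun h2 i
      simp only [if_true, tau_val] at h3
      have := (a i).2
      omega

/-- divergence of `f ∂_i` -/
lemma div_smul_pd (i : Fin n) (f : DP k p m) :
    (frobDP (k := k) (p := p) (m := m)).div (f • pdD i) = pdD i f := by
  refine (frobDP (k := k) (p := p) (m := m)).ext fun x => ?_
  rw [Frob.lam_div, Derivation.smul_apply, smul_eq_mul]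
  have h := lam_pd i (f * x)
  rw [Derivation.leibniz, smul_eq_mul, smul_eq_mul, map_add] at h
  rw [mul_comm (pdD i f) x]
  linear_combination -h

omit [CharP k p] in
lemma mono_zero_ne : mono k p m (fun _ => 0) ≠ 0 := by
  rw [mono_of_lt (fun _ => pow_pos hp.out.pos _)]
  exact (DP.basis k p m).ne_zero _

omit [CharP k p] in
instance : Nontrivial (DP k p m) := ⟨⟨1, 0, mono_zero_ne⟩⟩

instance : CharP (DP k p m) p :=
  charP_of_injective_algebraMap (algebraMap k (DP k p m)).injective p

/-- the zero multi-index -/
def zeroIdx (p : ℕ) [hp : Fact p.Prime] {n : ℕ} (m : Fin n → ℕ) : Idx p m :=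
  fun i => ⟨0, pow_pos hp.out.pos _⟩

/-- the augmentation -/
noncomputable def eps : DP k p m →ₗ[k] k := coord (zeroIdx p m)

omit hp [CharP k p] in
lemma mono_pow (a : Fin n → ℕ) (j : ℕ) :
    ∃ c : k, mono k p m a ^ j = c • mono k p m (fun i => j * a i) := by
  induction j with
  | zero =>
    refine ⟨1, ?_⟩
    rw [pow_zero, one_smul, DP.one_def]
    congr 1
    funext i
    simp
  | succ j ih =>
    obtain ⟨c, hc⟩ := ih
    refine ⟨c * cc k (fun i => j * a i) a, ?_⟩
    rw [pow_succ, hc, smul_mul_assoc, mono_mul_mono, smul_smul]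
    congr 2
    funext i
    ring

lemma mono_pow_p (a : Idx p m) (ha : a ≠ zeroIdx p m) :
    mono k p m (fun i => (a i : ℕ)) ^ p = 0 := by
  obtain ⟨i, hi⟩ : ∃ i, (a i : ℕ) ≠ 0 := by
    by_contra h
    push Not at h
    apply ha
    funext i
    exact Fin.ext (h i)
  obtain ⟨c, hc⟩ := mono_pow (k := k) (p := p) (m := m) (fun i => (a i : ℕ)) (p - 1)
  have hp1 : p - 1 + 1 = p := by have := hp.out.pos; omega
  have hpow : mono k p m (fun i => (a i : ℕ)) ^ p
      = mono k p m (fun i => (a i : ℕ)) ^ (p - 1) * mono k p m (fun i => (a i : ℕ)) := by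
    rw [← pow_succ, hp1]
  rw [hpow, hc, smul_mul_assoc, mono_mul_mono]
  have h0 : cc k (fun i => (p - 1) * (a i : ℕ)) (fun i => (a i : ℕ)) = 0 := by
    unfold cc
    refine prod_eq_zero (mem_univ i) ?_
    rw [CharP.cast_eq_zero_iff k p]
    have h1 : (p - 1) * (a i : ℕ) + a i = p * a i := by
      have : (p - 1) * (a i : ℕ) + a i = (p - 1 + 1) * a i := by ring
      rw [this, hp1]
    show p ∣ ((p - 1) * (a i : ℕ) + a i).choose ((p - 1) * (a i : ℕ))
    rw [Nat.choose_symm_add, h1]
    exact dvd_choose_mul p _ hi
  rw [h0]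
  simp

lemma DP.pow_p (f : DP k p m) : f ^ p = algebraMap k (DP k p m) (eps f ^ p) := by
  induction f using DP.induction with
  | h0 =>
    rw [map_zero, zero_pow hp.out.ne_zero, zero_pow hp.out.ne_zero, map_zero]
  | hadd f g hf hg => rw [add_pow_char, hf, hg, map_add, add_pow_char, map_add]
  | hsmul c a =>
    rw [map_smul, smul_pow, smul_eq_mul, eps, coord_mono_coe]
    by_cases h : a = zeroIdx p m
    · rw [if_pos h, mul_one, h]
      have : mono k p m (fun i => (zeroIdx p m i : ℕ)) = 1 := rfl
      rw [this, one_pow, Algebra.algebraMap_eq_smul_one]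
    · rw [if_neg h, mul_zero, zero_pow hp.out.ne_zero, map_zero, mono_pow_p a h, smul_zero]

end

end Pool.Agent.W_MP_e80488_al
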