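import Pool.Agent.W_MP_e80488_al.Defs

set_option autoImplicit false

/-!
# The ring structure of the divided power algebra `O(n;m)` and its derivations
-/

namespace Pool.Agent.W_MP_e80488_al

open Finset

section DPRing

variable (k : Type*) [Field k] (p : ℕ) {n : ℕ} (m : Fin n → ℕ)

/-- structure constants -/
def cc (a b : Fin n → ℕ) : k := ∏ i, ((a i + b i).choose (a i) : k)

variable {k p m}

lemma cc_comm (a b : Fin n → ℕ) : cc k a b = cc k b a := by
  unfold cc
  refine prod_congr rfl fun i _ => ?_
  rw [add_comm (a i), Nat.choose_symm_add]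

lemma cc_assoc (a b c : Fin n → ℕ) :
    cc k a b * cc k (fun i => a i + b i) c = cc k b c * cc k a (fun i => b i + c i) := by
  unfold cc
  rw [← prod_mul_distrib, ← prod_mul_distrib]
  refine prod_congr rfl fun i _ => ?_
  norm_cast
  have h := Nat.choose_mul (n := a i + b i + c i) (k := a i + b i) (s := a i) (by omega)
  rw [show a i + b i + c i - a i = b i + c i by omega, show a i + b i - a i = b i by omega] at h
  rw [mul_comm ((a i + b i).choose (a i)), h, mul_comm, add_assoc]

lemma cc_zero_left (b : Fin n → ℕ) : cc k (fun _ => 0) b = 1 := by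
  unfold cc
  simp

lemma mono_of_lt {a : Fin n → ℕ} (h : ∀ i, a i < p ^ m i) :
    mono k p m a = DP.basis k p m (fun i => ⟨a i, h i⟩) := by
  rw [mono, dif_pos h]

lemma mono_of_not {a : Fin n → ℕ} (i : Fin n) (h : p ^ m i ≤ a i) : mono k p m a = 0 := by
  rw [mono, dif_neg]
  intro h'
  exact absurd (h' i) (not_lt.2 h)

lemma mono_coe (a : Idx p m) : mono k p m (fun i => (a i : ℕ)) = DP.basis k p m a :=
  mono_of_lt fun i => (a i).2

lemma DP.expand (f : DP k p m) :
    f = ∑ a : Idx p m, ((DP.basis k p m).repr f a) • mono k p m (fun i => (a i : ℕ)) := by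
  conv_lhs => rw [← (DP.basis k p m).sum_repr f]
  simp only [mono_coe]

lemma DP.induction {P : DP k p m → Prop} (h0 : P 0) (hadd : ∀ f g, P f → P g → P (f + g))
    (hsmul : ∀ (c : k) (a : Idx p m), P (c • mono k p m (fun i => (a i : ℕ)))) (f : DP k p m) :
    P f := by
  rw [DP.expand f]
  exact Finset.sum_induction _ P hadd h0 fun a _ => hsmul _ _

lemma constr_mono {M : Type*} [AddCommGroup M] [Module k M] (v : Idx p m → M)
    (a : Idx p m) :
    (DP.basis k p m).constr k v (mono k p m (fun i => (a i : ℕ))) = v a := by
  rw [mono_coe, Module.Basis.constr_basis]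

lemma mulMono_mono (a b : Fin n → ℕ) :
    mulMono k p m a (mono k p m b) = cc k a b • mono k p m (fun i => a i + b i) := by
  by_cases h : ∀ i, b i < p ^ m i
  · exact constr_mono (fun b : Idx p m => (∏ i, ((a i + b i).choose (a i) : k)) •
        mono k p m (fun i => a i + b i)) (fun i => ⟨b i, h i⟩)
  · push Not at h
    obtain ⟨i, hi⟩ := h
    rw [mono_of_not i hi, map_zero, mono_of_not i (by omega), smul_zero]

/-- multiplication, as a linear map -/
noncomputable def mulL : DP k p m →ₗ[k] Module.End k (DP k p m) :=
  (DP.basis k p m).constr k (fun a : Idx p m => mulMono k p m (fun i => (a i : ℕ)))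

lemma mulL_mono (a : Fin n → ℕ) : mulL (mono k p m a) = mulMono k p m a := by
  by_cases h : ∀ i, a i < p ^ m i
  · exact constr_mono (fun a : Idx p m => mulMono k p m (fun i => (a i : ℕ)))
      (fun i => ⟨a i, h i⟩)
  · push Not at h
    obtain ⟨i, hi⟩ := h
    rw [mono_of_not i hi, map_zero]
    refine (LinearMap.ext fun f => ?_).symm
    induction f using DP.induction with
    | h0 => simp
    | hadd f g hf hg => rw [map_add, map_add, hf, hg]
    | hsmul c b =>
      rw [map_smul, mulMono_mono, mono_of_not i (by omega)]
      simp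

noncomputable instance : Mul (DP k p m) := ⟨fun f g => mulL f g⟩
noncomputable instance : One (DP k p m) := ⟨mono k p m (fun _ => 0)⟩

lemma DP.mul_def (f g : DP k p m) : f * g = mulL f g := rfl
lemma DP.one_def : (1 : DP k p m) = mono k p m (fun _ => 0) := rfl

lemma mono_mul_mono (a b : Fin n → ℕ) :
    mono k p m a * mono k p m b = cc k a b • mono k p m (fun i => a i + b i) := by
  rw [DP.mul_def, mulL_mono, mulMono_mono]

lemma DP.add_mul' (f g h : DP k p m) : (f + g) * h = f * h + g * h := by
  simp only [DP.mul_def, map_add, LinearMap.add_apply]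

lemma DP.mul_add' (f g h : DP k p m) : f * (g + h) = f * g + f * h := by
  simp only [DP.mul_def, map_add]

lemma DP.smul_mul' (c : k) (f g : DP k p m) : (c • f) * g = c • (f * g) := by
  simp only [DP.mul_def, map_smul, LinearMap.smul_apply]

lemma DP.mul_smul' (c : k) (f g : DP k p m) : f * (c • g) = c • (f * g) := by
  simp only [DP.mul_def, map_smul]

lemma DP.zero_mul' (f : DP k p m) : (0 : DP k p m) * f = 0 := by
  simp only [DP.mul_def, map_zero, LinearMap.zero_apply]

lemma DP.mul_zero' (f : DP k p m) : f * (0 : DP k p m) = 0 := by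
  simp only [DP.mul_def, map_zero]

lemma DP.mul_comm' (f g : DP k p m) : f * g = g * f := by
  induction f using DP.induction with
  | h0 => rw [DP.zero_mul', DP.mul_zero']
  | hadd f f' hf hf' => rw [DP.add_mul', DP.mul_add', hf, hf']
  | hsmul c a =>
    rw [DP.smul_mul', DP.mul_smul']
    congr 1
    induction g using DP.induction with
    | h0 => rw [DP.zero_mul', DP.mul_zero']
    | hadd f f' hf hf' => rw [DP.add_mul', DP.mul_add', hf, hf']
    | hsmul c b =>
      rw [DP.smul_mul', DP.mul_smul', mono_mul_mono, mono_mul_mono, cc_comm]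
      congr 3
      funext i
      rw [add_comm]

lemma DP.mul_assoc' (f g h : DP k p m) : f * g * h = f * (g * h) := by
  induction f using DP.induction with
  | h0 => simp only [DP.zero_mul']
  | hadd f f' hf hf' => simp only [DP.add_mul', hf, hf']
  | hsmul c a =>
    simp only [DP.smul_mul']
    congr 1
    induction g using DP.induction with
    | h0 => simp only [DP.zero_mul', DP.mul_zero']
    | hadd f f' hf hf' => simp only [DP.add_mul', DP.mul_add', hf, hf']
    | hsmul c b =>
      simp only [DP.smul_mul', DP.mul_smul']
      congr 1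
      induction h using DP.induction with
      | h0 => simp only [DP.mul_zero']
      | hadd f f' hf hf' => simp only [DP.mul_add', hf, hf']
      | hsmul c d =>
        simp only [DP.mul_smul']
        congr 1
        rw [mono_mul_mono, mono_mul_mono, DP.smul_mul', DP.mul_smul', mono_mul_mono, mono_mul_mono,
          smul_smul, smul_smul, cc_assoc]
        congr 2
        funext i
        rw [add_assoc]

lemma DP.one_mul' (f : DP k p m) : 1 * f = f := by
  induction f using DP.induction with
  | h0 => exact DP.mul_zero' _
  | hadd f g hf hg => rw [DP.mul_add', hf, hg]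
  | hsmul c a =>
    rw [DP.mul_smul', DP.one_def, mono_mul_mono, cc_zero_left, one_smul]
    simp

noncomputable instance : CommRing (DP k p m) :=
  { (inferInstance : AddCommGroup (DP k p m)) with
    mul := fun f g => f * g
    one := 1
    left_distrib := DP.mul_add'
    right_distrib := DP.add_mul'
    zero_mul := DP.zero_mul'
    mul_zero := DP.mul_zero'
    mul_assoc := DP.mul_assoc'
    one_mul := DP.one_mul'
    mul_one := fun f => by
      have h := DP.mul_comm' f 1
      rw [DP.one_mul'] at h
      exact h
    mul_comm := DP.mul_comm' }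

noncomputable instance : Algebra k (DP k p m) :=
  Algebra.ofModule DP.smul_mul' (fun c f g => DP.mul_smul' c f g)

lemma mulMono_apply (a : Fin n → ℕ) (f : DP k p m) :
    mulMono k p m a f = mono k p m a * f := by
  rw [DP.mul_def, mulL_mono]

lemma pd_mono_coe (i : Fin n) (b : Idx p m) :
    pd k p m i (mono k p m (fun j => (b j : ℕ))) =
      if (b i : ℕ) = 0 then 0 else mono k p m (fun j => if j = i then b j - 1 else b j) :=
  constr_mono _ b

lemma pd_mono_of_zero (i : Fin n) {b : Fin n → ℕ} (h : b i = 0) :
    pd k p m i (mono k p m b) = 0 := by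
  by_cases hb : ∀ j, b j < p ^ m j
  · have := pd_mono_coe (k := k) i (fun j => ⟨b j, hb j⟩)
    simp only [h, if_true] at this
    exact this
  · push Not at hb
    obtain ⟨j, hj⟩ := hb
    rw [mono_of_not j hj, map_zero]

lemma pd_mono_of_pos (i : Fin n) {b : Fin n → ℕ} (h : b i ≠ 0) (hb : ∀ j, b j < p ^ m j) :
    pd k p m i (mono k p m b) = mono k p m (fun j => if j = i then b j - 1 else b j) := by
  have := pd_mono_coe (k := k) i (fun j => ⟨b j, hb j⟩)
  simp only [h, if_false] at this
  exact this

lemma cc_split (i : Fin n) (a b : Fin n → ℕ) :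
    cc k a b = ((a i + b i).choose (a i) : k) * ∏ j ∈ univ.erase i, ((a j + b j).choose (a j) : k) := by
  unfold cc
  exact (Finset.mul_prod_erase univ (fun i => ((a i + b i).choose (a i) : k)) (mem_univ i)).symm

variable [hp : Fact p.Prime] [CharP k p]

lemma pd_leibniz_mono (i : Fin n) (a b : Idx p m) :
    pd k p m i (mono k p m (fun j => (a j : ℕ)) * mono k p m (fun j => (b j : ℕ))) =
      mono k p m (fun j => (a j : ℕ)) * pd k p m i (mono k p m (fun j => (b j : ℕ)))
        + mono k p m (fun j => (b j : ℕ)) * pd k p m i (mono k p m (fun j => (a j : ℕ))) := by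
  classical
  set P : k := ∏ j ∈ univ.erase i, (((a j : ℕ) + (b j : ℕ)).choose (a j) : k) with hP
  set s : Fin n → ℕ := fun j => if j = i then (a j : ℕ) + b j - 1 else (a j : ℕ) + b j with hs
  -- the two terms on the right
  have hR1 : mono k p m (fun j => (a j : ℕ)) * pd k p m i (mono k p m (fun j => (b j : ℕ)))
      = (if (b i : ℕ) = 0 then 0 else (((a i : ℕ) + b i - 1).choose (a i) : k) * P)
        • mono k p m s := by
    rw [pd_mono_coe]
    by_cases hb : (b i : ℕ) = 0
    · simp [hb]
    · rw [if_neg hb, if_neg hb, mono_mul_mono, cc_split i]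
      congr 1
      · congr 1
        · simp only [if_true]
          rw [show (a i : ℕ) + ((b i : ℕ) - 1) = (a i : ℕ) + b i - 1 by omega]
        · rw [hP]
          refine prod_congr rfl fun j hj => ?_
          rw [if_neg (ne_of_mem_erase hj)]
      · congr 1
        funext j
        simp only [hs]
        by_cases hj : j = i
        · subst hj
          simp only [if_true]
          omega
        · simp only [if_neg hj]
  have hR2 : mono k p m (fun j => (b j : ℕ)) * pd k p m i (mono k p m (fun j => (a j : ℕ)))
      = (if (a i : ℕ) = 0 then 0 else (((a i : ℕ) + b i - 1).choose (b i) : k) * P)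
        • mono k p m s := by
    rw [pd_mono_coe]
    by_cases ha : (a i : ℕ) = 0
    · simp [ha]
    · rw [if_neg ha, if_neg ha, mono_mul_mono, cc_split i]
      congr 1
      · congr 1
        · simp only [if_true]
          rw [show (b i : ℕ) + ((a i : ℕ) - 1) = (a i : ℕ) + b i - 1 by omega]
        · rw [hP]
          refine prod_congr rfl fun j hj => ?_
          rw [if_neg (ne_of_mem_erase hj), add_comm (b j : ℕ), Nat.choose_symm_add]
      · congr 1
        funext j
        simp only [hs]
        by_cases hj : j = i
        · subst hj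
          simp only [if_true]
          omega
        · simp only [if_neg hj]
          rw [add_comm]
  rw [hR1, hR2, ← add_smul, mono_mul_mono, map_smul, cc_split i, ← hP]
  -- Pascal
  have pascal : (if (b i : ℕ) = 0 then 0 else (((a i : ℕ) + b i - 1).choose (a i) : k) * P)
      + (if (a i : ℕ) = 0 then 0 else (((a i : ℕ) + b i - 1).choose (b i) : k) * P)
      = (if (a i : ℕ) + b i = 0 then 0 else (((a i : ℕ) + b i).choose (a i) : k) * P) := by
    by_cases ha : (a i : ℕ) = 0
    · by_cases hb : (b i : ℕ) = 0
      · simp [ha, hb]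
      · simp [ha, hb]
    · by_cases hb : (b i : ℕ) = 0
      · simp [ha, hb]
      · rw [if_neg hb, if_neg ha, if_neg (by omega), ← add_mul]
        congr 1
        norm_cast
        obtain ⟨a', ha'⟩ : ∃ a', (a i : ℕ) = a' + 1 := ⟨a i - 1, by omega⟩
        obtain ⟨b', hb'⟩ : ∃ b', (b i : ℕ) = b' + 1 := ⟨b i - 1, by omega⟩
        rw [ha', hb', show a' + 1 + (b' + 1) - 1 = a' + b' + 1 by omega,
          show a' + 1 + (b' + 1) = a' + b' + 1 + 1 by omega, Nat.choose_succ_succ (a' + b' + 1) a']
        have h2 : (a' + b' + 1).choose (b' + 1) = (a' + b' + 1).choose a' := by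
          rw [← Nat.choose_symm (by omega : a' ≤ a' + b' + 1)]
          congr 1
          omega
        rw [h2, add_comm]
  rw [pascal]
  by_cases h0 : (a i : ℕ) + b i = 0
  · rw [pd_mono_of_zero i h0, if_pos h0]
    simp
  · rw [if_neg h0]
    by_cases hr : ∀ j, (a j : ℕ) + b j < p ^ m j
    · rw [pd_mono_of_pos i h0 hr]
    · push Not at hr
      obtain ⟨j, hj⟩ := hr
      rw [mono_of_not j hj, map_zero, smul_zero]
      by_cases hji : j = i
      · subst hji
        rcases Nat.lt_or_ge (p ^ m j) ((a j : ℕ) + b j) with h1 | h1
        · rw [mono_of_not (a := s) j (by simp only [hs, if_true]; omega), smul_zero]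
        · have h2 : (a j : ℕ) + b j = p ^ m j := le_antisymm h1 hj
          have h3 : p ∣ ((a j : ℕ) + b j).choose (a j) := by
            rw [h2]
            refine hp.out.dvd_choose_pow ?_ ?_
            · have := (b j).2
              omega
            · exact ((a j).2).ne
          rw [(CharP.cast_eq_zero_iff k p _).2 h3]
          simp
      · rw [mono_of_not (a := s) j (by simp only [hs, if_neg hji]; omega), smul_zero]

/-- `∂_i` as a derivation of the ring `O(n;m)`. -/
noncomputable def pdD (i : Fin n) : Derivation k (DP k p m) (DP k p m) :=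
  Derivation.mk' (pd k p m i) (by
    intro f g
    simp only [smul_eq_mul]
    induction f using DP.induction with
    | h0 => simp
    | hadd f f' hf hf' =>
      rw [add_mul, map_add, hf, hf', map_add]
      ring
    | hsmul c a =>
      induction g using DP.induction with
      | h0 => simp
      | hadd f f' hf hf' =>
        rw [mul_add, map_add, hf, hf', map_add]
        ring
      | hsmul d b =>
        rw [smul_mul_smul_comm, map_smul, map_smul, map_smul, pd_leibniz_mono, smul_add,
          smul_mul_smul_comm, smul_mul_smul_comm, mul_comm d c])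

lemma pdD_coe (i : Fin n) : ((pdD i : Derivation k (DP k p m) (DP k p m)) :
    DP k p m →ₗ[k] DP k p m) = pd k p m i := rfl

lemma pdD_apply (i : Fin n) (f : DP k p m) : pdD i f = pd k p m i f := rfl

end DPRing

end Pool.Agent.W_MP_e80488_al
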