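import Mathlib

set_option autoImplicit false

/-!
# Cartan type W Lie algebras, their minimal p-envelopes, and reduced enveloping algebras

Definitions used in the statement (MP_e80488_al).
-/

namespace Pool.Agent.W_MP_e80488_al

/- the commutator bracket of an associative algebra (Mathlib's, here as a local instance) -/
attribute [local instance 100] LieRing.ofAssociativeRing

section CartanTypeW

variable (k : Type*) [Field k] (p : ℕ) {n : ℕ} (m : Fin n → ℕ)

/-- The multi-indices `a = (a_1, …, a_n)` with `0 ≤ a_i < p ^ (m i)`. -/
abbrev Idx : Type := (i : Fin n) → Fin (p ^ m i)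

/-- The divided power algebra `O(n;m)`, as a `k`-space with one basis vector `x^(a)` for every
multi-index `a` in `Idx p m`. -/
def DP : Type _ := Idx p m →₀ k

noncomputable instance : AddCommGroup (DP k p m) := inferInstanceAs (AddCommGroup (Idx p m →₀ k))
noncomputable instance : Module k (DP k p m) := inferInstanceAs (Module k (Idx p m →₀ k))

/-- The basis `x^(a)` of `O(n;m)`. -/
noncomputable def DP.basis : Module.Basis (Idx p m) k (DP k p m) :=
  ⟨LinearEquiv.refl k (Idx p m →₀ k)⟩

/-- The monomial `x^(a)` of `O(n;m)`; it is `0` when some `a i ≥ p ^ (m i)`. -/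
noncomputable def mono (a : Fin n → ℕ) : DP k p m :=
  if h : ∀ i, a i < p ^ m i then DP.basis k p m (fun i => ⟨a i, h i⟩) else 0

/-- Multiplication by `x^(a)`: it sends `x^(b)` to `∏ i, C(a i + b i, a i) x^(a + b)`. -/
noncomputable def mulMono (a : Fin n → ℕ) : Module.End k (DP k p m) :=
  (DP.basis k p m).constr k fun b : Idx p m =>
    (∏ i, ((a i + b i).choose (a i) : k)) • mono k p m (fun i => a i + b i)

/-- The derivation `∂_i`: it sends `x^(b)` to `x^(b - e_i)` if `b i ≠ 0` and to `0` otherwise. -/
noncomputable def pd (i : Fin n) : Module.End k (DP k p m) :=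
  (DP.basis k p m).constr k fun b : Idx p m =>
    if (b i : ℕ) = 0 then 0 else mono k p m (fun j => if j = i then b j - 1 else b j)

/-- `W(n;m)`: the span of the derivations `x^(a) ∂_i` of `O(n;m)`, `a` in `Idx p m`. -/
noncomputable def W : Submodule k (Module.End k (DP k p m)) :=
  Submodule.span k {D | ∃ (a : Idx p m) (i : Fin n),
    D = mulMono k p m (fun j => (a j : ℕ)) * pd k p m i}

/-- The minimal `p`-envelope of `W(n;m)`, realized by derivations: the smallest space of linear
operators on `O(n;m)` which contains `W(n;m)` and is closed under commutators and `p`-th powers.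
Its `p`-map is `D ↦ D ^ p`. -/
noncomputable def Env : LieSubalgebra k (Module.End k (DP k p m)) :=
  sInf {G | (W k p m : Set (Module.End k (DP k p m))) ⊆ G ∧ ∀ D ∈ G, D ^ p ∈ G}

/-- The degree `d` component of `O(n;m)`: the span of the `x^(a)` with `a_1 + ⋯ + a_n = d`. -/
noncomputable def homog (d : ℤ) : Submodule k (DP k p m) :=
  Submodule.span k {f | ∃ a : Idx p m, ∑ i, ((a i : ℕ) : ℤ) = d ∧
    f = mono k p m (fun i => (a i : ℕ))}

/-- The component of degree `d` of the minimal `p`-envelope: its elements which raise the degree
in `O(n;m)` by `d`. -/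
noncomputable def envDeg (d : ℤ) : Submodule k (Env k p m) where
  carrier := {D | ∀ e, ∀ f ∈ homog k p m e, (D : Module.End k (DP k p m)) f ∈ homog k p m (e + d)}
  add_mem' := fun {D E} hD hE e f hf => by
    have := (homog k p m (e + d)).add_mem (hD e f hf) (hE e f hf)
    simpa using this
  zero_mem' := fun e f _ => by simp
  smul_mem' := fun c D hD e f hf => by
    have := (homog k p m (e + d)).smul_mem c (hD e f hf)
    simpa using this

/-- A character `χ` of the minimal `p`-envelope has non-maximal height when it vanishes on the
component of the largest degree `r` for which this component is nonzero. -/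
def NonMaximalHeight (χ : Module.Dual k (Env k p m)) : Prop :=
  ∃ r : ℤ, IsGreatest {d : ℤ | envDeg k p m d ≠ ⊥} r ∧ ∀ D ∈ envDeg k p m r, χ D = 0

end CartanTypeW

section Restricted

variable {k V : Type*} [Field k] [AddCommGroup V] [Module k V] (p : ℕ)

/-- The relations `x^p = x^[p] + χ(x)^p` in the universal enveloping algebra of a Lie algebra `G`
of linear operators (closed under `p`-th powers), where `x^[p]` is the `p`-th power of `x` as an
operator. -/
def redRel (G : LieSubalgebra k (Module.End k V)) (χ : Module.Dual k G) :
    UniversalEnvelopingAlgebra k G → UniversalEnvelopingAlgebra k G → Prop :=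
  fun a b => ∃ x y : G, (y : Module.End k V) = (x : Module.End k V) ^ p ∧
    a = UniversalEnvelopingAlgebra.ι k x ^ p ∧
    b = UniversalEnvelopingAlgebra.ι k y + algebraMap k _ (χ x ^ p)

/-- The reduced enveloping algebra `u(G, χ)`. -/
abbrev RedEnv (G : LieSubalgebra k (Module.End k V)) (χ : Module.Dual k G) : Type _ :=
  RingQuot (redRel p G χ)

/-- The maximal toral rank of a Lie algebra `G` of linear operators: the maximal dimension of a
torus in `G`, a torus being a Lie subalgebra `t` on which the `p`-th power map is a bijection
`t → t`. -/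
noncomputable def mt (G : Submodule k (Module.End k V)) : ℕ :=
  sSup {d | ∃ t : LieSubalgebra k (Module.End k V), t.toSubmodule ≤ G ∧
    Set.BijOn (fun x => x ^ p) (t : Set (Module.End k V)) t ∧ Module.finrank k t = d}

end Restricted

section Counting

universe u

/-- The `k`-algebra `A` has at least `N` pairwise non-isomorphic simple modules of finite
dimension over `k`. -/
def AtLeastSimples (k A : Type u) [Field k] [Ring A] [Algebra k A] (N : ℕ) : Prop :=
  ∃ (V : Fin N → Type u) (_ : ∀ i, AddCommGroup (V i)) (_ : ∀ i, Module k (V i))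
    (_ : ∀ i, Module A (V i)) (_ : ∀ i, IsScalarTower k A (V i)),
    (∀ i, IsSimpleModule A (V i)) ∧ (∀ i, Module.Finite k (V i)) ∧
      ∀ i j, Nonempty (V i ≃ₗ[A] V j) → i = j

/-- `Env k p m` has the smallest dimension among the `p`-envelopes of `W(n;m)`. Here `G` runs over
all finite-dimensional Lie algebras with a map `P` such that `ad (P x) = (ad x) ^ p` for all `x`
(a `p`-map is such a map) and with an injective Lie homomorphism `ι` from `W(n;m)`. -/
def EnvMinimal (k : Type u) [Field k] (p : ℕ) {n : ℕ} (m : Fin n → ℕ) : Prop :=
  ∀ (G : Type u) [LieRing G] [LieAlgebra k G] [Module.Finite k G] (P : G → G)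
    (ι : W k p m →ₗ[k] G),
    (∀ x y : G, ⁅P x, y⁆ = (LieAlgebra.ad k G x ^ p) y) → Function.Injective ι →
    (∀ D E F : W k p m, (F : Module.End k (DP k p m)) =
      ⁅(D : Module.End k (DP k p m)), (E : Module.End k (DP k p m))⁆ → ι F = ⁅ι D, ι E⁆) →
    Module.finrank k (Env k p m) ≤ Module.finrank k G

end Counting

end Pool.Agent.W_MP_e80488_al
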