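import Pool.Agent.W_MP_e80488_al.DPFrob

set_option autoImplicit false

/-!
# The maps between `O(1;M)` and `O(2;(1,M))`
-/

namespace Pool.Agent.W_MP_e80488_al

open Finset

section Emb

variable {k : Type*} [Field k] {p : ℕ} {M : ℕ}

/-- exponents for one variable -/
abbrev mB (M : ℕ) : Fin 1 → ℕ := fun _ => M

/-- exponents for two variables -/
abbrev mO (M : ℕ) : Fin 2 → ℕ := ![1, M]

/-- linear embedding -/
noncomputable def iL : DP k p (mB M) →ₗ[k] DP k p (mO M) :=
  (DP.basis k p (mB M)).constr k fun b => mono k p (mO M) ![0, (b 0 : ℕ)]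

/-- linear projection -/
noncomputable def pL : DP k p (mO M) →ₗ[k] DP k p (mB M) :=
  (DP.basis k p (mO M)).constr k fun a =>
    if (a 0 : ℕ) = 0 then mono k p (mB M) (fun _ => (a 1 : ℕ)) else 0

lemma iL_mono [hp : Fact p.Prime] (b : Fin 1 → ℕ) :
    iL (k := k) (mono k p (mB M) b) = mono k p (mO M) ![0, b 0] := by
  by_cases h : ∀ i, b i < p ^ (mB M i)
  · exact constr_mono (fun b : Idx p (mB M) => mono k p (mO M) ![0, (b 0 : ℕ)])
      (fun i => ⟨b i, h i⟩)
  · push Not at h
    obtain ⟨i, hi⟩ := h
    rw [mono_of_not i hi, map_zero]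
    have h1 : i = 0 := Subsingleton.elim _ _
    subst h1
    exact (mono_of_not (m := mO M) 1 (by simpa using hi)).symm

lemma pL_mono [hp : Fact p.Prime] (a : Fin 2 → ℕ) : pL (k := k) (mono k p (mO M) a)
    = if a 0 = 0 then mono k p (mB M) (fun _ => a 1) else 0 := by
  by_cases h : ∀ i, a i < p ^ (mO M i)
  · exact constr_mono (fun a : Idx p (mO M) =>
      if (a 0 : ℕ) = 0 then mono k p (mB M) (fun _ => (a 1 : ℕ)) else 0) (fun i => ⟨a i, h i⟩)
  · push Not at h
    obtain ⟨i, hi⟩ := h
    rw [mono_of_not i hi, map_zero]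
    by_cases h0 : a 0 = 0
    · rw [if_pos h0]
      fin_cases i
      · simp only [Fin.zero_eta, Fin.isValue, h0, nonpos_iff_eq_zero] at hi
        have := pow_pos hp.out.pos (mO M 0)
        simp at hi
        exact absurd hi hp.out.ne_zero
      · exact (mono_of_not (m := mB M) 0 (by simpa using hi)).symm
    · rw [if_neg h0]

variable [hp : Fact p.Prime]

lemma iL_mul (f g : DP k p (mB M)) : iL (f * g) = iL f * iL g := by
  induction f using DP.induction with
  | h0 => simp
  | hadd f f' hf hf' => rw [add_mul, map_add, hf, hf', map_add, add_mul]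
  | hsmul c a =>
    induction g using DP.induction with
    | h0 => simp
    | hadd f f' hf hf' => rw [mul_add, map_add, hf, hf', map_add, mul_add]
    | hsmul d b =>
      rw [smul_mul_smul_comm, map_smul, map_smul, map_smul, smul_mul_smul_comm, mono_mul_mono,
        map_smul, iL_mono, iL_mono, iL_mono, mono_mul_mono]
      congr 1
      have h1 : cc k ![0, (a 0 : ℕ)] ![0, (b 0 : ℕ)] = cc k (fun i => (a i : ℕ))
          (fun i => (b i : ℕ)) := by
        simp [cc]
      rw [h1]
      congr 2
      funext i
      fin_cases i <;> simp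

lemma pL_mul (f g : DP k p (mO M)) : pL (f * g) = pL f * pL g := by
  induction f using DP.induction with
  | h0 => simp
  | hadd f f' hf hf' => rw [add_mul, map_add, hf, hf', map_add, add_mul]
  | hsmul c a =>
    induction g using DP.induction with
    | h0 => simp
    | hadd f f' hf hf' => rw [mul_add, map_add, hf, hf', map_add, mul_add]
    | hsmul d b =>
      rw [smul_mul_smul_comm, map_smul, map_smul, map_smul, smul_mul_smul_comm, mono_mul_mono,
        map_smul, pL_mono, pL_mono, pL_mono]
      congr 1
      by_cases ha : (a 0 : ℕ) = 0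
      · by_cases hb : (b 0 : ℕ) = 0
        · rw [if_pos (by omega), if_pos ha, if_pos hb, mono_mul_mono]
          congr 1
          simp [cc, ha, hb]
        · rw [if_neg (by omega), if_neg hb, smul_zero, mul_zero]
      · rw [if_neg (by omega), if_neg ha, smul_zero, zero_mul]

lemma iL_one : iL (1 : DP k p (mB M)) = 1 := by
  rw [DP.one_def, iL_mono, DP.one_def]
  congr 1
  funext i
  fin_cases i <;> simp

lemma pL_one : pL (1 : DP k p (mO M)) = 1 := by
  rw [DP.one_def, pL_mono, DP.one_def, if_pos rfl]

/-- embedding -/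
noncomputable def iO : DP k p (mB M) →ₐ[k] DP k p (mO M) :=
  AlgHom.ofLinearMap iL iL_one iL_mul

/-- projection -/
noncomputable def pO : DP k p (mO M) →ₐ[k] DP k p (mB M) :=
  AlgHom.ofLinearMap pL pL_one pL_mul

lemma iO_mono (b : Fin 1 → ℕ) : iO (mono k p (mB M) b) = mono k p (mO M) ![0, b 0] := iL_mono b

lemma pO_mono (a : Fin 2 → ℕ) : pO (mono k p (mO M) a)
    = if a 0 = 0 then mono k p (mB M) (fun _ => a 1) else 0 := pL_mono a

lemma pO_iO (f : DP k p (mB M)) : pO (iO f) = f := by
  induction f using DP.induction with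
  | h0 => simp
  | hadd f g hf hg => rw [map_add, map_add, hf, hg]
  | hsmul c b =>
    rw [map_smul, map_smul, iO_mono, pO_mono, if_pos (by simp)]
    congr 2
    funext i
    rw [Subsingleton.elim i 0]
    simp

variable [CharP k p]

lemma pd_zero_iO (f : DP k p (mB M)) : pdD 0 (iO f) = 0 := by
  induction f using DP.induction with
  | h0 => simp
  | hadd f g hf hg => rw [map_add, map_add, hf, hg, add_zero]
  | hsmul c b =>
    rw [map_smul, iO_mono, Derivation.map_smul, pdD_apply, pd_mono_of_zero 0 (by simp), smul_zero]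

lemma pd_one_iO (f : DP k p (mB M)) : pdD 1 (iO f) = iO (pdD 0 f) := by
  induction f using DP.induction with
  | h0 => simp
  | hadd f g hf hg => rw [map_add, map_add, hf, hg, map_add, map_add]
  | hsmul c b =>
    rw [map_smul, iO_mono, Derivation.map_smul, pdD_apply, Derivation.map_smul, pdD_apply,
      map_smul]
    congr 1
    by_cases hb : (b 0 : ℕ) = 0
    · rw [pd_mono_of_zero 1 (by simpa using hb), pd_mono_of_zero 0 (by simpa using hb), map_zero]
    · rw [pd_mono_of_pos 1 (by simpa using hb), pd_mono_of_pos 0 (by simpa using hb), iO_mono]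
      · congr 1
        funext i
        fin_cases i <;> simp
      · intro j
        exact (b j).2
      · intro j
        fin_cases j
        · simpa using hp.out.pos
        · simpa using (b 0).2

lemma pO_pd_one (f : DP k p (mO M)) : pO (pdD 1 f) = pdD 0 (pO f) := by
  induction f using DP.induction with
  | h0 => simp
  | hadd f g hf hg => rw [map_add, map_add, hf, hg, map_add, map_add]
  | hsmul c a =>
    rw [Derivation.map_smul, pdD_apply, map_smul, map_smul, Derivation.map_smul, pdD_apply]
    congr 1
    by_cases h1 : (a 1 : ℕ) = 0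
    · rw [pd_mono_of_zero 1 h1, map_zero, pO_mono]
      by_cases h0 : (a 0 : ℕ) = 0
      · rw [if_pos h0, pd_mono_of_zero 0 h1]
      · rw [if_neg h0, map_zero]
    · rw [pd_mono_of_pos 1 h1 (fun j => (a j).2), pO_mono, pO_mono]
      by_cases h0 : (a 0 : ℕ) = 0
      · rw [if_pos (by simpa using h0), if_pos h0, pd_mono_of_pos 0 h1]
        · congr 1
          funext i
          rw [Subsingleton.elim i 0]
          simp
        · intro j
          exact (a 1).2
      · rw [if_neg (by simpa using h0), if_neg h0, map_zero]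

omit [CharP k p] in
lemma pO_mono_mul {a : Fin 2 → ℕ} (h : a 0 ≠ 0) (f : DP k p (mO M)) :
    pO (mono k p (mO M) a * f) = 0 := by
  rw [map_mul, pO_mono, if_neg h, zero_mul]

omit [CharP k p] in
/-- the multi-index `(0, q - 1)` -/
def topO (p : ℕ) [Fact p.Prime] (M : ℕ) : Idx p (mO M) :=
  fun i => ⟨![0, p ^ M - 1] i, by
    have hp : p.Prime := Fact.out
    fin_cases i
    · simpa using hp.pos
    · exact Nat.sub_lt (pow_pos hp.pos _) one_pos⟩

omit [CharP k p] in
lemma topO_val : (fun i => (topO p M i : ℕ)) = ![0, p ^ M - 1] := rfl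

omit [CharP k p] in
lemma coord_top_iO (f : DP k p (mB M)) :
    coord (topO p M) (iO f) = coord (tau p (mB M)) f := by
  induction f using DP.induction with
  | h0 => simp
  | hadd f g hf hg => rw [map_add, map_add, hf, hg, map_add]
  | hsmul c b =>
    rw [map_smul, map_smul, map_smul, iO_mono, coord_mono, coord_mono]
    congr 1
    refine if_congr ?_ rfl rfl
    rw [topO_val]
    constructor
    · intro h
      funext i
      have h1 := congrFun h 1
      rw [Subsingleton.elim i 0]
      simpa [tau_val] using h1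
    · intro h
      have h1 := congrFun h 0
      rw [tau_val] at h1
      rw [h1]

omit [CharP k p] in
lemma coord_tau_pO (f : DP k p (mO M)) :
    coord (tau p (mB M)) (pO f) = coord (topO p M) f := by
  induction f using DP.induction with
  | h0 => simp
  | hadd f g hf hg => rw [map_add, map_add, hf, hg, map_add]
  | hsmul c a =>
    rw [map_smul, map_smul, map_smul, pO_mono, coord_mono]
    congr 1
    by_cases h0 : (a 0 : ℕ) = 0
    · rw [if_pos h0, coord_mono]
      refine if_congr ?_ rfl rfl
      rw [topO_val]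
      constructor
      · intro h
        have h1 := congrFun h 0
        rw [tau_val] at h1
        funext i
        fin_cases i
        · simpa using h0
        · simpa using h1
      · intro h
        have h1 := congrFun h 1
        funext i
        rw [tau_val]
        simpa using h1
    · rw [if_neg h0, map_zero, if_neg]
      intro h
      have h1 := congrFun h 0
      exact h0 (h1.trans rfl)

omit [CharP k p] in
lemma eps_mono {n : ℕ} {m : Fin n → ℕ} (a : Fin n → ℕ) :
    eps (mono k p m a) = if a = 0 then 1 else 0 := by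
  rw [eps, coord_mono]
  rfl

omit [CharP k p] in
lemma eps_iO (f : DP k p (mB M)) : eps (iO f) = eps f := by
  induction f using DP.induction with
  | h0 => simp
  | hadd f g hf hg => rw [map_add, map_add, hf, hg, map_add]
  | hsmul c b =>
    rw [map_smul, map_smul, map_smul, iO_mono, eps_mono, eps_mono]
    congr 1
    refine if_congr ?_ rfl rfl
    constructor
    · intro h
      funext i
      have h1 := congrFun h 1
      rw [Subsingleton.elim i 0]
      simpa using h1
    · intro h
      have h1 := congrFun h 0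
      funext i
      fin_cases i
      · simp
      · simpa using h1

omit [CharP k p] in
lemma eps_pO (f : DP k p (mO M)) : eps (pO f) = eps f := by
  induction f using DP.induction with
  | h0 => simp
  | hadd f g hf hg => rw [map_add, map_add, hf, hg, map_add]
  | hsmul c a =>
    rw [map_smul, map_smul, map_smul, pO_mono, eps_mono]
    congr 1
    by_cases h0 : (a 0 : ℕ) = 0
    · rw [if_pos h0, eps_mono]
      refine if_congr ?_ rfl rfl
      constructor
      · intro h
        have h1 := congrFun h 0
        funext i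
        fin_cases i
        · simpa using h0
        · simpa using h1
      · intro h
        have h1 := congrFun h 1
        funext i
        simpa using h1
    · rw [if_neg h0, map_zero, if_neg]
      intro h
      exact h0 (congrFun h 0)

/-- the functional `ψ` on `O(2;(1,M))` -/
noncomputable def psiO (k : Type*) [Field k] (p : ℕ) [Fact p.Prime] (M : ℕ) (c : k) :
    DP k p (mO M) →ₗ[k] k := coord (topO p M) + c • eps

/-- the functional `ψ` on `O(1;M)` -/
noncomputable def psiB (k : Type*) [Field k] (p : ℕ) [Fact p.Prime] (M : ℕ) (c : k) :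
    DP k p (mB M) →ₗ[k] k := coord (tau p (mB M)) + c • eps

omit [CharP k p] in
lemma psiO_iO (c : k) (f : DP k p (mB M)) : psiO k p M c (iO f) = psiB k p M c f := by
  simp [psiO, psiB, coord_top_iO, eps_iO]

omit [CharP k p] in
lemma psiB_pO (c : k) (f : DP k p (mO M)) : psiB k p M c (pO f) = psiO k p M c f := by
  simp [psiO, psiB, coord_tau_pO, eps_pO]

end Emb

section Eigen

variable {k : Type*} [Field k] {p : ℕ} {M : ℕ} [hp : Fact p.Prime] [CharP k p]

omit [CharP k p] in
lemma one_lt_q (hM : M ≠ 0) : 1 < p ^ M := Nat.one_lt_pow hM hp.out.one_lt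

/-- the element `h₀` -/
lemma sum_psi (hp2 : p ≠ 2) (c : k) {V : Type*} [AddCommGroup V] [Module k V]
    (φ : DP k p (mB M) →ₗ[k] V) :
    ∑ i, psiB k p M c ((frobDP (k := k) (p := p) (m := mB M)).b i) •
      φ ((frobDP (k := k) (p := p) (m := mB M)).b' i)
      = φ 1 + c • φ (mono k p (mB M) (fun _ => p ^ M - 1)) := by
  classical
  have h1 : ∀ i : Idx p (mB M), psiB k p M c ((frobDP (k := k) (p := p) (m := mB M)).b i) •
      φ ((frobDP (k := k) (p := p) (m := mB M)).b' i)
      = (if i = tau p (mB M) then φ ((frobDP (k := k) (p := p) (m := mB M)).b' i) else 0)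
        + (if i = zeroIdx p (mB M) then c • φ ((frobDP (k := k) (p := p) (m := mB M)).b' i)
            else 0) := by
    intro i
    have h2 : psiB k p M c ((frobDP (k := k) (p := p) (m := mB M)).b i)
        = (if i = tau p (mB M) then 1 else 0) + c * (if i = zeroIdx p (mB M) then 1 else 0) := by
      show psiB k p M c (mono k p (mB M) (fun j => (i j : ℕ))) = _
      simp [psiB, eps, coord_mono_coe]
    rw [h2, add_smul]
    congr 1
    · by_cases h : i = tau p (mB M) <;> simp [h]
    · by_cases h : i = zeroIdx p (mB M) <;> simp [h]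
  rw [sum_congr rfl fun i _ => h1 i, sum_add_distrib, sum_ite_eq' univ, sum_ite_eq' univ,
    if_pos (mem_univ _), if_pos (mem_univ _)]
  have h3 : (frobDP (k := k) (p := p) (m := mB M)).b' (tau p (mB M)) = 1 := by
    show sgn k (tau p (mB M)) • mono k p (mB M) (fun j => (compl (tau p (mB M)) j : ℕ)) = 1
    have h4 : sgn k (tau p (mB M)) = 1 := by
      unfold sgn
      refine prod_eq_one fun i _ => ?_
      rw [tau_val]
      refine Even.neg_one_pow ?_
      have hodd : Odd (p ^ (mB M i)) := (hp.out.odd_of_ne_two hp2).pow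
      obtain ⟨r, hr⟩ := hodd
      exact ⟨r, by omega⟩
    rw [h4, one_smul, DP.one_def]
    congr 1
    funext j
    rw [compl_val, tau_val, Nat.sub_self]
  have h5 : (frobDP (k := k) (p := p) (m := mB M)).b' (zeroIdx p (mB M))
      = mono k p (mB M) (fun _ => p ^ M - 1) := by
    show sgn k (zeroIdx p (mB M)) • mono k p (mB M) (fun j => (compl (zeroIdx p (mB M)) j : ℕ)) = _
    have h4 : sgn k (zeroIdx p (mB M)) = 1 := by
      unfold sgn zeroIdx
      simp
    rw [h4, one_smul]
    rfl
  rw [h3, h5]

omit [CharP k p] in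
lemma eps_top (hM : M ≠ 0) : eps (mono k p (mB M) (fun _ => p ^ M - 1)) = 0 := by
  rw [eps_mono, if_neg]
  intro h
  have h1 := congrFun h 0
  have := one_lt_q (p := p) hM
  simp only [Pi.zero_apply] at h1
  omega

/-- the eigenvector -/
noncomputable def eigV (k : Type*) [Field k] (p M : ℕ) (ζ : k) : DP k p (mB M) :=
  ∑ j ∈ range (p ^ M), ζ ^ j • mono k p (mB M) (fun _ => j)

omit [CharP k p] in
lemma eigV_ne (ζ : k) : eigV k p M ζ ≠ 0 := by
  intro h
  have h1 := congrArg eps h
  rw [eigV, map_sum, map_zero] at h1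
  have h2 : ∀ j ∈ range (p ^ M), eps (ζ ^ j • mono k p (mB M) (fun _ => j))
      = if j = 0 then (1 : k) else 0 := by
    intro j _
    rw [map_smul, eps_mono]
    by_cases hj : j = 0
    · subst hj
      rw [if_pos rfl, if_pos (show (fun _ : Fin 1 => 0) = 0 from rfl), pow_zero, one_smul]
    · rw [if_neg hj, if_neg, smul_zero]
      intro h
      exact hj (congrFun h 0)
  rw [sum_congr rfl h2, sum_ite_eq' (range (p ^ M)) 0, if_pos] at h1
  · exact one_ne_zero h1
  · exact mem_range.2 (pow_pos hp.out.pos _)

omit [CharP k p] in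
lemma top_mul_eigV (hM : M ≠ 0) (ζ : k) :
    mono k p (mB M) (fun _ => p ^ M - 1) * eigV k p M ζ
      = mono k p (mB M) (fun _ => p ^ M - 1) := by
  rw [eigV, mul_sum]
  have h2 : ∀ j ∈ range (p ^ M), mono k p (mB M) (fun _ => p ^ M - 1) *
      (ζ ^ j • mono k p (mB M) (fun _ => j))
      = if j = 0 then mono k p (mB M) (fun _ => p ^ M - 1) else 0 := by
    intro j _
    rw [mul_smul_comm, mono_mul_mono]
    by_cases hj : j = 0
    · subst hj
      rw [if_pos rfl, pow_zero, one_smul]
      simp [cc]
    · rw [if_neg hj, mono_of_not (m := mB M) 0 (by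
        show p ^ M ≤ p ^ M - 1 + j
        omega), smul_zero, smul_zero]
  rw [sum_congr rfl h2, sum_ite_eq' (range (p ^ M)) 0, if_pos]
  exact mem_range.2 (pow_pos hp.out.pos _)

lemma pd_eigV (hM : M ≠ 0) (ζ : k) :
    pdD 0 (eigV k p M ζ) = ζ • eigV k p M ζ - ζ ^ (p ^ M) • mono k p (mB M) (fun _ => p ^ M - 1) := by
  have hq := one_lt_q (p := p) hM
  obtain ⟨r, hr⟩ : ∃ r, p ^ M = r + 1 := ⟨p ^ M - 1, by omega⟩
  have h1 : pdD 0 (eigV k p M ζ) = ∑ j ∈ range r, ζ ^ (j + 1) • mono k p (mB M) (fun _ => j) := by
    rw [eigV, map_sum, hr, sum_range_succ']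
    have h0 : pdD 0 (ζ ^ 0 • mono k p (mB M) (fun _ => 0)) = 0 := by
      rw [Derivation.map_smul, pdD_apply, pd_mono_of_zero 0 rfl, smul_zero]
    rw [h0, add_zero]
    refine sum_congr rfl fun j hj => ?_
    have hj' := mem_range.1 hj
    rw [Derivation.map_smul, pdD_apply, pd_mono_of_pos 0 (by simp)]
    · congr 2
      funext i
      rw [Subsingleton.elim i 0]
      simp
    · intro i
      show j + 1 < p ^ M
      omega
  have h2 : ζ • eigV k p M ζ = ∑ j ∈ range (r + 1), ζ ^ (j + 1) • mono k p (mB M) (fun _ => j) := by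
    rw [eigV, smul_sum, hr]
    refine sum_congr rfl fun j _ => ?_
    rw [smul_smul, pow_succ']
  rw [h1, h2, sum_range_succ]
  rw [show p ^ M - 1 = r by omega, hr]
  abel

lemma eigV_eq (hM : M ≠ 0) (hp2 : p ≠ 2) (c ζ : k) (hζ : ζ ^ (p ^ M) = - (c * ζ)) :
    pdD 0 (eigV k p M ζ) = ζ • ((∑ i, psiB k p M c ((frobDP (k := k) (p := p) (m := mB M)).b i) •
      (frobDP (k := k) (p := p) (m := mB M)).b' i) * eigV k p M ζ) := by
  have h1 := sum_psi hp2 c (LinearMap.id : DP k p (mB M) →ₗ[k] DP k p (mB M))
  simp only [LinearMap.id_apply] at h1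
  rw [h1, add_mul, one_mul, smul_mul_assoc, top_mul_eigV hM, pd_eigV hM, hζ, smul_add, smul_smul,
    neg_smul, sub_neg_eq_add, mul_comm ζ c]

lemma sum_psi_eps (hM : M ≠ 0) (hp2 : p ≠ 2) (c : k) :
    ∑ i, psiB k p M c ((frobDP (k := k) (p := p) (m := mB M)).b i) *
      eps ((frobDP (k := k) (p := p) (m := mB M)).b' i) = 1 := by
  have h1 := sum_psi hp2 c (eps : DP k p (mB M) →ₗ[k] k)
  simp only [smul_eq_mul] at h1
  rw [h1, eps_top hM, mul_zero, add_zero, DP.one_def, eps_mono,
    if_pos (show (fun _ : Fin 1 => 0) = 0 from rfl)]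

end Eigen

end Pool.Agent.W_MP_e80488_al
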