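import Pool.Agent.W_MP_e80488_al.Phi

set_option autoImplicit false

/-!
# The representation of `Der(O)` on `Phi ⊗ O`
-/

namespace Pool.Agent.W_MP_e80488_al

open Finset TensorProduct

attribute [local instance 100] LieRing.ofAssociativeRing

section Rep

variable {k O ι : Type*} [Field k] [CommRing O] [Algebra k O] [Fintype ι] (F : Frob k O ι)
variable (p : ℕ) [hp : Fact p.Prime] [CharP k p] (ψ : O →ₗ[k] k)

/-- The action on `Phi`: a derivation plus multiplication by the divergence. -/
noncomputable def rho1 (D : Derivation k O O) : Module.End k (Phi p ψ) :=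
  tw (Phi.dstar p ψ D) (Phi.z p ψ (F.div D))

lemma rho1_apply (D : Derivation k O O) (x : Phi p ψ) :
    rho1 F p ψ D x = Phi.dstar p ψ D x + Phi.z p ψ (F.div D) * x := tw_apply _ _ _

lemma rho1_add (D E : Derivation k O O) :
    rho1 F p ψ (D + E) = rho1 F p ψ D + rho1 F p ψ E := by
  refine LinearMap.ext fun x => ?_
  rw [LinearMap.add_apply]
  simp only [rho1_apply, map_add, Derivation.add_apply]
  ring

lemma rho1_smul (c : k) (D : Derivation k O O) :
    rho1 F p ψ (c • D) = c • rho1 F p ψ D := by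
  refine LinearMap.ext fun x => ?_
  rw [LinearMap.smul_apply]
  simp only [rho1_apply, map_smul, Derivation.smul_apply, smul_add, smul_mul_assoc]

lemma rho1_lie (D E : Derivation k O O) :
    rho1 F p ψ ⁅D, E⁆ = rho1 F p ψ D * rho1 F p ψ E - rho1 F p ψ E * rho1 F p ψ D := by
  refine LinearMap.ext fun x => ?_
  rw [LinearMap.sub_apply, Module.End.mul_apply, Module.End.mul_apply]
  simp only [rho1_apply, LieHom.map_lie, Derivation.commutator_apply, Frob.div_lie, map_sub,
    map_add, Derivation.leibniz, smul_eq_mul, Phi.dstar_z]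
  ring

/-- The representation on `Phi ⊗ O`. -/
noncomputable def rho : Derivation k O O →ₗ⁅k⁆ Module.End k (Phi p ψ ⊗[k] O) where
  toFun D := (rho1 F p ψ D).rTensor O + (D : O →ₗ[k] O).lTensor (Phi p ψ)
  map_add' D E := by
    rw [rho1_add, LinearMap.rTensor_add, Derivation.coe_add_linearMap, LinearMap.lTensor_add]
    abel
  map_smul' c D := by
    rw [rho1_smul, LinearMap.rTensor_smul, Derivation.coe_smul_linearMap, LinearMap.lTensor_smul,
      RingHom.id_apply, smul_add]
  map_lie' := by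
    intro D E
    refine TensorProduct.ext' fun x f => ?_
    rw [Ring.lie_def]
    simp only [LinearMap.add_apply, LinearMap.sub_apply, Module.End.mul_apply,
      LinearMap.rTensor_tmul, LinearMap.lTensor_tmul, rho1_lie, Derivation.coeFn_coe,
      Derivation.commutator_apply, map_add, TensorProduct.tmul_sub, TensorProduct.sub_tmul]
    abel

lemma rho_apply (D : Derivation k O O) : rho F p ψ D
    = (rho1 F p ψ D).rTensor O + (D : O →ₗ[k] O).lTensor (Phi p ψ) := rfl

lemma rho_tmul (D : Derivation k O O) (x : Phi p ψ) (f : O) :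
    rho F p ψ D (x ⊗ₜ f) = rho1 F p ψ D x ⊗ₜ f + x ⊗ₜ D f := by
  simp [rho_apply]

variable (ε : O →ₗ[k] k)

lemma rho1_pow [CharP O p] [CharP (Phi p ψ) p]
    (hε : ∀ f : O, f ^ p = algebraMap k O (ε f ^ p)) (D : Derivation k O O) :
    rho1 F p ψ D ^ p = rho1 F p ψ (derPow D p)
      + algebraMap k _ (ψ (F.div D) ^ p - ε (F.div D) ^ p * ψ 1) := by
  refine LinearMap.ext fun x => ?_
  rw [rho1, tw_pow_p, LinearMap.add_apply, LinearMap.mulLeft_apply, ← derPow_coe,
    ← Phi.dstar_derPow, Derivation.coeFn_coe, LinearMap.add_apply, rho1_apply, Frob.div_derPow,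
    Phi.dstar_iterate_z, Phi.z_pow, hε, map_add, Module.algebraMap_end_apply]
  have h : Phi.z p ψ (algebraMap k O (ε (F.div D) ^ p))
      = algebraMap k _ (ε (F.div D) ^ p * ψ 1) := by
    rw [Algebra.algebraMap_eq_smul_one, map_smul, Phi.z_one, map_mul, Phi.smul_eq]
  have h' : (ψ (F.div D) ^ p - ε (F.div D) ^ p * ψ 1) • x
      = algebraMap k (Phi p ψ) (ψ (F.div D) ^ p - ε (F.div D) ^ p * ψ 1) * x :=
    Phi.smul_eq p ψ _ _
  rw [h, h', map_mul, map_sub, map_mul]
  ring

/-- The `p`-character of the representation. -/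
lemma rho_pow [CharP O p] [CharP (Phi p ψ) p]
    (hε : ∀ f : O, f ^ p = algebraMap k O (ε f ^ p)) (h1 : ψ 1 ^ p = ψ 1)
    (χ : O →ₗ[k] k) (hχ : ∀ f, χ f = ψ f - ε f * ψ 1) (D : Derivation k O O) :
    rho F p ψ D ^ p = rho F p ψ (derPow D p) + algebraMap k _ (χ (F.div D) ^ p) := by
  have h2 : ψ (F.div D) ^ p - ε (F.div D) ^ p * ψ 1 = χ (F.div D) ^ p := by
    rw [hχ, sub_pow_char, mul_pow, h1]
  rw [rho_apply, tensor_pow, rho1_pow F p ψ ε hε, h2, LinearMap.rTensor_add, rho_apply,
    ← derPow_coe]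
  have h3 : (algebraMap k (Module.End k (Phi p ψ)) (χ (F.div D) ^ p)).rTensor O
      = algebraMap k (Module.End k (Phi p ψ ⊗[k] O)) (χ (F.div D) ^ p) := by
    refine TensorProduct.ext' fun x f => ?_
    rw [LinearMap.rTensor_tmul, Module.algebraMap_end_apply, Module.algebraMap_end_apply,
      TensorProduct.smul_tmul']
  rw [h3]
  abel

end Rep

end Pool.Agent.W_MP_e80488_al
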