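import Pool.Agent.W_MP_e80488_al.DPFrob
import Pool.Agent.W_MP_e80488_al.Rep

set_option autoImplicit false

/-!
# The minimal p-envelope acts by derivations; reduced enveloping algebras
-/

namespace Pool.Agent.W_MP_e80488_al

open Finset

attribute [local instance 100] LieRing.ofAssociativeRing

section RedEnv

variable {k V : Type*} [Field k] [AddCommGroup V] [Module k V] (p : ℕ)
variable (G : LieSubalgebra k (Module.End k V)) (χ : Module.Dual k G)

/-- the canonical map `G → u(G, χ)` -/
noncomputable def RedEnv.iota : G →ₗ[k] RedEnv p G χ :=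
  (RingQuot.mkAlgHom k (redRel p G χ)).toLinearMap ∘ₗ
    (UniversalEnvelopingAlgebra.ι k : G →ₗ⁅k⁆ UniversalEnvelopingAlgebra k G).toLinearMap

lemma RedEnv.iota_apply (x : G) : RedEnv.iota p G χ x
    = RingQuot.mkAlgHom k (redRel p G χ) (UniversalEnvelopingAlgebra.ι k x) := rfl

lemma RedEnv.iota_lie (x y : G) : RedEnv.iota p G χ ⁅x, y⁆
    = RedEnv.iota p G χ x * RedEnv.iota p G χ y - RedEnv.iota p G χ y * RedEnv.iota p G χ x := by
  rw [RedEnv.iota_apply, RedEnv.iota_apply, RedEnv.iota_apply, LieHom.map_lie, Ring.lie_def,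
    map_sub, map_mul, map_mul]

lemma RedEnv.iota_pow (x y : G) (h : (y : Module.End k V) = (x : Module.End k V) ^ p) :
    RedEnv.iota p G χ x ^ p = RedEnv.iota p G χ y + algebraMap k _ (χ x ^ p) := by
  rw [RedEnv.iota_apply, RedEnv.iota_apply, ← map_pow]
  have h1 := RingQuot.mkAlgHom_rel k (s := redRel p G χ)
    (x := UniversalEnvelopingAlgebra.ι k x ^ p)
    (y := UniversalEnvelopingAlgebra.ι k y + algebraMap k _ (χ x ^ p)) ⟨x, y, h, rfl, rfl⟩
  rw [h1, map_add, AlgHom.commutes]

/-- the universal property -/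
noncomputable def RedEnv.lift {A : Type*} [Ring A] [Algebra k A] (φ : G →ₗ⁅k⁆ A)
    (h : ∀ x y : G, (y : Module.End k V) = (x : Module.End k V) ^ p →
      φ x ^ p = φ y + algebraMap k A (χ x ^ p)) : RedEnv p G χ →ₐ[k] A :=
  RingQuot.liftAlgHom k ⟨UniversalEnvelopingAlgebra.lift k φ, by
    rintro a b ⟨x, y, hxy, rfl, rfl⟩
    rw [map_pow, map_add, AlgHom.commutes, UniversalEnvelopingAlgebra.lift_ι_apply,
      UniversalEnvelopingAlgebra.lift_ι_apply, h x y hxy]⟩

lemma RedEnv.lift_iota {A : Type*} [Ring A] [Algebra k A] (φ : G →ₗ⁅k⁆ A)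
    (h : ∀ x y : G, (y : Module.End k V) = (x : Module.End k V) ^ p →
      φ x ^ p = φ y + algebraMap k A (χ x ^ p)) (x : G) :
    RedEnv.lift p G χ φ h (RedEnv.iota p G χ x) = φ x := by
  rw [RedEnv.iota_apply, RedEnv.lift, RingQuot.liftAlgHom_mkAlgHom_apply,
    UniversalEnvelopingAlgebra.lift_ι_apply]

lemma RedEnv.adjoin_iota :
    Algebra.adjoin k (Set.range (RedEnv.iota p G χ)) = ⊤ := by
  rw [eq_top_iff]
  rintro x -
  obtain ⟨y, rfl⟩ := RingQuot.mkAlgHom_surjective k (redRel p G χ) x
  have h1 : y ∈ (⊤ : Subalgebra k (UniversalEnvelopingAlgebra k G)) := trivial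
  set S : Subalgebra k (UniversalEnvelopingAlgebra k G) :=
    (Algebra.adjoin k (Set.range (RedEnv.iota p G χ))).comap
      (RingQuot.mkAlgHom k (redRel p G χ)) with hS
  have hmem : ∀ x : G, UniversalEnvelopingAlgebra.ι k x ∈ S := fun x => by
    rw [hS]
    exact Algebra.subset_adjoin (Set.mem_range_self x)
  -- the universal property gives a retraction onto `S`
  let φ : G →ₗ⁅k⁆ S :=
    { toFun := fun x => ⟨UniversalEnvelopingAlgebra.ι k x, hmem x⟩
      map_add' := fun x y => Subtype.ext (by simp)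
      map_smul' := fun c x => Subtype.ext (by simp)
      map_lie' := by
        intro x y
        refine Subtype.ext ?_
        exact (UniversalEnvelopingAlgebra.ι k : G →ₗ⁅k⁆ _).map_lie x y }
  have h2 : (S.val.comp (UniversalEnvelopingAlgebra.lift k φ)) = AlgHom.id k _ := by
    apply UniversalEnvelopingAlgebra.hom_ext
    ext x
    simp [φ]
  have h3 : ((UniversalEnvelopingAlgebra.lift k φ y : S) : UniversalEnvelopingAlgebra k G) = y := by
    have := DFunLike.congr_fun h2 y
    simpa using this
  have h4 : y ∈ S := by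
    rw [← h3]
    exact (UniversalEnvelopingAlgebra.lift k φ y).2
  exact h4

end RedEnv

section EnvDer

variable {k : Type*} [Field k] {p : ℕ} {n : ℕ} {m : Fin n → ℕ}

lemma mem_sInf_iff {S : Set (LieSubalgebra k (Module.End k (DP k p m)))}
    {D : Module.End k (DP k p m)} : D ∈ sInf S ↔ ∀ G ∈ S, D ∈ G := by
  rw [← SetLike.mem_coe, LieSubalgebra.coe_sInf, Set.mem_iInter₂]
  rfl

lemma W_le_Env : W k p m ≤ (Env k p m).toSubmodule := by
  intro D hD
  show D ∈ Env k p m
  rw [Env, mem_sInf_iff]
  intro G hG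
  exact hG.1 hD

lemma Env_pow_mem {D : Module.End k (DP k p m)} (hD : D ∈ Env k p m) : D ^ p ∈ Env k p m := by
  rw [Env, mem_sInf_iff] at hD ⊢
  intro G hG
  exact hG.2 D (hD G hG)

lemma Env_le {G : LieSubalgebra k (Module.End k (DP k p m))}
    (h1 : W k p m ≤ G.toSubmodule) (h2 : ∀ D ∈ G, D ^ p ∈ G) : Env k p m ≤ G :=
  sInf_le ⟨h1, h2⟩

variable [hp : Fact p.Prime] [CharP k p]

/-- the Lie algebra of all derivations, as operators -/
noncomputable def derSub (k : Type*) [Field k] (p : ℕ) {n : ℕ} (m : Fin n → ℕ)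
    [Fact p.Prime] [CharP k p] : LieSubalgebra k (Module.End k (DP k p m)) where
  carrier := {D | ∀ f g : DP k p m, D (f * g) = f * D g + g * D f}
  add_mem' := fun {D E} hD hE f g => by
    rw [LinearMap.add_apply, hD, hE, LinearMap.add_apply, LinearMap.add_apply]
    ring
  zero_mem' := fun f g => by simp
  smul_mem' := fun c D hD f g => by
    rw [LinearMap.smul_apply, hD, LinearMap.smul_apply, LinearMap.smul_apply, smul_add,
      mul_smul_comm, mul_smul_comm]
  lie_mem' := fun {D E} hD hE f g => by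
    rw [Ring.lie_def]
    simp only [LinearMap.sub_apply, Module.End.mul_apply]
    rw [hD, hE, map_add, map_add, hD, hD, hE, hE]
    ring

lemma W_le_derSub : W k p m ≤ (derSub k p m).toSubmodule := by
  rw [W, Submodule.span_le]
  rintro D ⟨a, i, rfl⟩ f g
  rw [Module.End.mul_apply, Module.End.mul_apply, Module.End.mul_apply, mulMono_apply,
    mulMono_apply, mulMono_apply, ← pdD_apply, ← pdD_apply, ← pdD_apply, Derivation.leibniz]
  simp only [smul_eq_mul]
  ring

lemma derSub_pow {D : Module.End k (DP k p m)} (hD : D ∈ derSub k p m) :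
    D ^ p ∈ derSub k p m := by
  intro f g
  exact (derPow (Derivation.mk' D hD) p).leibniz f g

lemma Env_le_derSub : Env k p m ≤ derSub k p m := Env_le W_le_derSub fun _ h => derSub_pow h

/-- The minimal `p`-envelope as a Lie algebra of derivations. -/
noncomputable def toDer : Env k p m →ₗ⁅k⁆ Derivation k (DP k p m) (DP k p m) where
  toFun D := Derivation.mk' (D : Module.End k (DP k p m)) (Env_le_derSub D.2)
  map_add' D E := Derivation.ext fun f => rfl
  map_smul' c D := Derivation.ext fun f => rfl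
  map_lie' := by
    intro D E
    exact Derivation.ext fun f => rfl

lemma toDer_apply (D : Env k p m) (f : DP k p m) :
    toDer D f = (D : Module.End k (DP k p m)) f := rfl

lemma toDer_pow (D E : Env k p m)
    (h : (E : Module.End k (DP k p m)) = (D : Module.End k (DP k p m)) ^ p) :
    toDer E = derPow (toDer D) p := by
  refine Derivation.ext fun f => ?_
  rw [toDer_apply, h]
  rfl

end EnvDer

end Pool.Agent.W_MP_e80488_al
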