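import Pool.Agent.W_MP_e80488_al.Torus

set_option autoImplicit false

/-!
# Minimality of the envelope
-/

namespace Pool.Agent.W_MP_e80488_al

open Finset

attribute [local instance 100] LieRing.ofAssociativeRing

section EnvMin

universe u

variable {k : Type u} [Field k] {p M : ℕ} [hp : Fact p.Prime] [CharP k p]

omit [CharP k p] in
lemma adS_pow_p {V : Type*} [AddCommGroup V] [Module k V] [CharP k p] (D : Module.End k V) :
    adS D ^ p = adS (D ^ p) := by
  have hc : Commute (adS D) (LinearMap.mulRight k D) := by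
    have h1 : Commute (LinearMap.mulLeft k D) (LinearMap.mulRight k D) :=
      LinearMap.commute_mulLeft_right D D
    exact h1.sub_left (Commute.refl _)
  have h2 := add_pow_p_of_commute p hc
  have h3 : adS D + LinearMap.mulRight k D = LinearMap.mulLeft k D := by
    rw [adS]
    abel
  rw [h3, LinearMap.pow_mulLeft, LinearMap.pow_mulRight] at h2
  show adS D ^ p = LinearMap.mulLeft k (D ^ p) - LinearMap.mulRight k (D ^ p)
  rw [h2]
  abel

lemma centralizer_zero {D : Module.End k (DP k p (mO M))} (hD : D ∈ Env k p (mO M))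
    (h : ∀ w ∈ W k p (mO M), adS D w = 0) : D = 0 := by
  have hder := Env_le_derSub hD
  have h1 : ∀ f x : DP k p (mO M), D (f * pd k p (mO M) 0 x) = f * pd k p (mO M) 0 (D x) := by
    intro f x
    have := LinearMap.congr_fun (h _ (fpd_mem_W f 0)) x
    rw [adS_apply, LinearMap.sub_apply, Module.End.mul_apply, Module.End.mul_apply, fpd_apply,
      fpd_apply, LinearMap.zero_apply, sub_eq_zero] at this
    exact this
  refine LinearMap.ext fun f => ?_
  have h2 := h1 f (mono k p (mO M) ![1, 0])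
  have h3 := h1 1 (mono k p (mO M) ![1, 0])
  have h4 : D (f * pd k p (mO M) 0 (mono k p (mO M) ![1, 0]))
      = f * D (pd k p (mO M) 0 (mono k p (mO M) ![1, 0]))
        + pd k p (mO M) 0 (mono k p (mO M) ![1, 0]) * D f := hder _ _
  rw [pd_x] at h2 h3 h4
  rw [one_mul, one_mul] at h3
  rw [h2, h3, one_mul] at h4
  rw [LinearMap.zero_apply]
  linear_combination -h4

/-- `Env` is minimal. -/
theorem envMinimal : EnvMinimal k p (mO M) := by
  intro G _ _ _ P ι hP hinj hlie
  classical
  -- the relation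
  let rel : Module.End k (DP k p (mO M)) → G → Prop := fun D x =>
    ∀ w : W k p (mO M), ∃ w' : W k p (mO M),
      (w' : Module.End k (DP k p (mO M))) = adS D w ∧ ι w' = ⁅x, ι w⁆
  have hadd : ∀ D E x y, rel D x → rel E y → rel (D + E) (x + y) := by
    intro D E x y hD hE w
    obtain ⟨w1, h1, h1'⟩ := hD w
    obtain ⟨w2, h2, h2'⟩ := hE w
    refine ⟨w1 + w2, ?_, ?_⟩
    · rw [Submodule.coe_add, h1, h2, adS_apply, adS_apply, adS_apply, add_mul, mul_add]
      abel
    · rw [map_add, h1', h2', add_lie]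
  have hsmul : ∀ (c : k) D x, rel D x → rel (c • D) (c • x) := by
    intro c D x hD w
    obtain ⟨w1, h1, h1'⟩ := hD w
    refine ⟨c • w1, ?_, ?_⟩
    · rw [Submodule.coe_smul, h1, adS_apply, adS_apply, smul_mul_assoc, mul_smul_comm, smul_sub]
    · rw [map_smul, h1', smul_lie]
  have hzero : rel 0 0 := by
    intro w
    refine ⟨0, ?_, ?_⟩
    · rw [adS_apply, zero_mul, mul_zero, sub_zero]
      rfl
    · rw [map_zero, zero_lie]
  have hlie' : ∀ D E x y, rel D x → rel E y → rel ⁅D, E⁆ ⁅x, y⁆ := by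
    intro D E x y hD hE w
    obtain ⟨w1, h1, h1'⟩ := hE w
    obtain ⟨w2, h2, h2'⟩ := hD w1
    obtain ⟨w3, h3, h3'⟩ := hD w
    obtain ⟨w4, h4, h4'⟩ := hE w3
    refine ⟨w2 - w4, ?_, ?_⟩
    · rw [AddSubgroupClass.coe_sub, h2, h4, h1, h3]
      simp only [adS_apply, Ring.lie_def]
      noncomm_ring
    · rw [map_sub, h2', h4', h1', h3', lie_lie]
  have hpow : ∀ D x, rel D x → rel (D ^ p) (P x) := by
    intro D x hD w
    have h1 : ∀ n : ℕ, ∃ w' : W k p (mO M),
        (w' : Module.End k (DP k p (mO M))) = (adS D ^ n) w ∧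
          ι w' = (LieAlgebra.ad k G x ^ n) (ι w) := by
      intro n
      induction n with
      | zero => exact ⟨w, rfl, rfl⟩
      | succ n ih =>
        obtain ⟨w', h1, h2⟩ := ih
        obtain ⟨w'', h3, h4⟩ := hD w'
        refine ⟨w'', ?_, ?_⟩
        · rw [h3, h1, pow_succ', Module.End.mul_apply]
        · rw [h4, h2, pow_succ', Module.End.mul_apply, LieAlgebra.ad_apply]
    obtain ⟨w', h2, h3⟩ := h1 p
    refine ⟨w', ?_, ?_⟩
    · rw [h2, adS_pow_p]
    · rw [h3, hP]
  have hW : ∀ D ∈ W k p (mO M), ∃ x, rel D x := by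
    intro D hD
    refine ⟨ι ⟨D, hD⟩, fun w => ⟨⟨⁅D, (w : Module.End k (DP k p (mO M)))⁆, W_lie hD w.2⟩, ?_, ?_⟩⟩
    · rfl
    · exact hlie ⟨D, hD⟩ w _ rfl
  -- everything in the envelope is related to something
  have hEnv : ∀ D ∈ Env k p (mO M), ∃ x, rel D x := by
    let G' : LieSubalgebra k (Module.End k (DP k p (mO M))) :=
      { carrier := {D | ∃ x, rel D x}
        add_mem' := by
          rintro D E ⟨x, hx⟩ ⟨y, hy⟩
          exact ⟨x + y, hadd _ _ _ _ hx hy⟩
        zero_mem' := ⟨0, hzero⟩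
        smul_mem' := by
          rintro c D ⟨x, hx⟩
          exact ⟨c • x, hsmul _ _ _ hx⟩
        lie_mem' := by
          rintro D E ⟨x, hx⟩ ⟨y, hy⟩
          exact ⟨⁅x, y⁆, hlie' _ _ _ _ hx hy⟩ }
    have hle : Env k p (mO M) ≤ G' := Env_le (fun D hD => hW D hD) (by
      rintro D ⟨x, hx⟩
      exact ⟨P x, hpow _ _ hx⟩)
    intro D hD
    exact hle hD
  let R : Submodule k (Env k p (mO M) × G) :=
    { carrier := {z | rel z.1 z.2}
      add_mem' := by
        rintro ⟨D, x⟩ ⟨E, y⟩ hx hy
        exact hadd _ _ _ _ hx hy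
      zero_mem' := hzero
      smul_mem' := by
        rintro c ⟨D, x⟩ hx
        exact hsmul _ _ _ hx }
  let f1 : R →ₗ[k] Env k p (mO M) := (LinearMap.fst k _ _).comp R.subtype
  let f2 : R →ₗ[k] G := (LinearMap.snd k _ _).comp R.subtype
  have h2 : Function.Injective f2 := by
    rw [injective_iff_map_eq_zero]
    rintro ⟨⟨D, x⟩, hz⟩ h
    have hx : x = 0 := h
    subst hx
    have hD : (D : Module.End k (DP k p (mO M))) = 0 := by
      refine centralizer_zero D.2 fun w hw => ?_
      obtain ⟨w', h3, h4⟩ := hz ⟨w, hw⟩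
      have h5 : ι w' = 0 := by
        rw [h4]
        exact zero_lie _
      have h6 : w' = 0 := hinj (by rw [h5, map_zero])
      have h7 : adS (D : Module.End k (DP k p (mO M))) w = 0 := by
        have h8 : (w' : Module.End k (DP k p (mO M))) = adS (D : Module.End k (DP k p (mO M))) w :=
          h3
        rw [← h8, h6]
        rfl
      exact h7
    have hD' : D = 0 := Subtype.ext hD
    subst hD'
    rfl
  have h1 : Function.Surjective f1 := by
    intro D
    obtain ⟨x, hx⟩ := hEnv D D.2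
    exact ⟨⟨(D, x), hx⟩, rfl⟩
  have : Module.Finite k R := Module.Finite.of_injective f2 h2
  exact (LinearMap.finrank_le_finrank_of_surjective h1).trans
    (LinearMap.finrank_le_finrank_of_injective h2)

end EnvMin

end Pool.Agent.W_MP_e80488_al
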