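import Pool.Agent.W_MP_e80488_al.Gens

set_option autoImplicit false

/-!
# The character has non-maximal height
-/

namespace Pool.Agent.W_MP_e80488_al

open Finset

attribute [local instance 100] LieRing.ofAssociativeRing

section Height

variable {k : Type*} [Field k] {p M : ℕ} [hp : Fact p.Prime] [CharP k p]

omit hp [CharP k p] in
lemma mono_mem_homog {a : Fin 2 → ℕ} {d : ℤ} (h : (a 0 : ℤ) + a 1 = d) :
    mono k p (mO M) a ∈ homog k p (mO M) d := by
  by_cases ha : ∀ i, a i < p ^ (mO M i)
  · refine Submodule.subset_span ⟨fun i => ⟨a i, ha i⟩, ?_, rfl⟩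
    rw [Fin.sum_univ_two]
    exact h
  · push Not at ha
    obtain ⟨i, hi⟩ := ha
    rw [mono_of_not i hi]
    exact Submodule.zero_mem _

omit [CharP k p] in
lemma homog_big {d : ℤ} (h : (p : ℤ) - 1 + ((p ^ M : ℕ) - 1) < d) : homog k p (mO M) d = ⊥ := by
  rw [homog, Submodule.span_eq_bot]
  rintro f ⟨a, ha, rfl⟩
  rw [Fin.sum_univ_two] at ha
  have h0 : (a 0 : ℕ) < p := by simpa using (a 0).2
  have h1 : (a 1 : ℕ) < p ^ M := (a 1).2
  exfalso
  omega

omit hp [CharP k p] in
lemma homog_neg {d : ℤ} (h : d < 0) : homog k p (mO M) d = ⊥ := by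
  rw [homog, Submodule.span_eq_bot]
  rintro f ⟨a, ha, rfl⟩
  rw [Fin.sum_univ_two] at ha
  exfalso
  omega

/-- the coordinate at `(0, q-1)` as a value of the top coordinate -/
lemma coord_topO_eq (f : DP k p (mO M)) :
    coord (topO p M) f = coord (tau p (mO M)) (f * mo k p M (p - 1) 0) := by
  induction f using DP.induction with
  | h0 => simp
  | hadd f g hf hg => rw [map_add, hf, hg, add_mul, map_add]
  | hsmul c a =>
    rw [map_smul, smul_mul_assoc, map_smul, mono_mul_mono, map_smul, coord_mono, coord_mono]
    congr 1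
    have hp0 := hp.out.pos
    have ha0 : (a 0 : ℕ) < p := by simpa using (a 0).2
    by_cases h : (fun i => (a i : ℕ)) = (fun i => (topO p M i : ℕ))
    · rw [if_pos h, if_pos]
      · have h1 := congrFun h 0
        have h2 := congrFun h 1
        have h1' : (a 0 : ℕ) = 0 := h1
        have h2' : (a 1 : ℕ) = p ^ M - 1 := h2
        simp [cc, h1', h2']
      · funext i
        have h1 := congrFun h i
        have h1' : (a i : ℕ) = topO p M i := h1
        rw [h1', tau_val]
        fin_cases i
        · show 0 + (p - 1) = p ^ (mO M 0) - 1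
          simp
        · show p ^ M - 1 + 0 = p ^ M - 1
          rfl
    · rw [if_neg h, if_neg, smul_zero]
      intro h1
      apply h
      have h2 := congrFun h1 0
      have h3 := congrFun h1 1
      have h2' : (a 0 : ℕ) + (p - 1) = p ^ (mO M 0) - 1 := h2
      have h3' : (a 1 : ℕ) + 0 = p ^ M - 1 := h3
      have h4 : p ^ (mO M 0) = p := by simp
      funext i
      fin_cases i
      · show (a 0 : ℕ) = 0
        omega
      · show (a 1 : ℕ) = p ^ M - 1
        omega

omit [CharP k p] in
lemma tau_homog {f : DP k p (mO M)} {d : ℤ} (hf : f ∈ homog k p (mO M) d)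
    (h : d ≠ (p : ℤ) - 1 + ((p ^ M : ℕ) - 1)) : coord (tau p (mO M)) f = 0 := by
  rw [homog] at hf
  induction hf using Submodule.span_induction with
  | zero => rw [map_zero]
  | add x y _ _ h1 h2 => rw [map_add, h1, h2, add_zero]
  | smul c x _ h1 => rw [map_smul, h1, smul_zero]
  | mem x hx =>
    obtain ⟨a, ha, rfl⟩ := hx
    rw [coord_mono, if_neg]
    intro h1
    apply h
    rw [Fin.sum_univ_two] at ha
    have h2 := congrFun h1 0
    have h3 := congrFun h1 1
    have h2' : (a 0 : ℕ) = p ^ (mO M 0) - 1 := h2
    have h3' : (a 1 : ℕ) = p ^ M - 1 := h3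
    have h4 : p ^ (mO M 0) = p := by simp
    have := hp.out.pos
    have := pow_pos hp.out.pos M
    omega

/-- the top degree of the envelope is `p + p ^ M - 3` -/
lemma isGreatest_deg (hM : M ≠ 0) :
    IsGreatest {d : ℤ | envDeg k p (mO M) d ≠ ⊥} ((p : ℤ) + (p ^ M : ℕ) - 3) := by
  have hp0 := hp.out.two_le
  have hq := one_lt_q (p := p) hM
  constructor
  · -- the element `x^(p-1) y^(q-1) ∂_x`
    intro h
    have hmem : (⟨fpd (mo k p M (p - 1) (p ^ M - 1)) 0, fpd_mem_Env _ _⟩ : Env k p (mO M))
        ∈ envDeg k p (mO M) ((p : ℤ) + (p ^ M : ℕ) - 3) := by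
      intro e f hf
      rw [homog] at hf
      show fpd (mo k p M (p - 1) (p ^ M - 1)) 0 f ∈ _
      induction hf using Submodule.span_induction with
      | zero => rw [map_zero]; exact Submodule.zero_mem _
      | add x y _ _ h1 h2 => rw [map_add]; exact Submodule.add_mem _ h1 h2
      | smul c x _ h1 => rw [map_smul]; exact Submodule.smul_mem _ _ h1
      | mem x hx =>
        obtain ⟨a, ha, rfl⟩ := hx
        rw [Fin.sum_univ_two] at ha
        rw [fpd_apply]
        by_cases h0 : (a 0 : ℕ) = 0
        · rw [pd_mono_of_zero 0 h0, mul_zero]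
          exact Submodule.zero_mem _
        · rw [pd_mono_of_pos 0 h0 (fun j => (a j).2), mono_mul_mono]
          refine Submodule.smul_mem _ _ (mono_mem_homog ?_)
          show ((p - 1 + ((a 0 : ℕ) - 1) : ℕ) : ℤ) + ((p ^ M - 1 + (a 1 : ℕ) : ℕ) : ℤ) = _
          omega
    rw [h, Submodule.mem_bot] at hmem
    have h1 := congrArg (fun D : Env k p (mO M) => (D : Module.End k (DP k p (mO M)))
      (mo k p M 1 0)) hmem
    have h2 : fpd (mo k p M (p - 1) (p ^ M - 1)) 0 (mo k p M 1 0) = 0 := h1
    rw [fpd_apply, pd_mono_of_pos 0 (by simp), mono_mul_mono] at h2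
    · have h3 := congrArg (coord (tau p (mO M))) h2
      rw [map_zero, map_smul, coord_mono, if_pos] at h3
      · simp [cc] at h3
      · funext i
        rw [tau_val]
        fin_cases i
        · show p - 1 + 0 = p ^ (mO M 0) - 1
          simp
        · show p ^ M - 1 + 0 = p ^ M - 1
          rfl
    · intro j
      fin_cases j
      · show 1 < p ^ (mO M 0)
        simpa using hp.out.one_lt
      · show 0 < p ^ M
        omega
  · intro d hd
    by_contra hlt
    push Not at hlt
    apply hd
    rw [Submodule.eq_bot_iff]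
    intro D hD
    apply Subtype.ext
    refine LinearMap.ext fun f => ?_
    show (D : Module.End k (DP k p (mO M))) f = 0
    induction f using DP.induction with
    | h0 => rw [map_zero]
    | hadd f g hf hg => rw [map_add, hf, hg, add_zero]
    | hsmul c a =>
      rw [map_smul]
      by_cases ha : (a 0 : ℕ) = 0 ∧ (a 1 : ℕ) = 0
      · have h1 : mono k p (mO M) (fun i => (a i : ℕ)) = 1 := by
          rw [DP.one_def]
          congr 1
          funext i
          fin_cases i
          · exact ha.1
          · exact ha.2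
        rw [h1, ← toDer_apply, Derivation.map_one_eq_zero, smul_zero]
      · have h1 := hD _ _ (mono_mem_homog (k := k) (p := p) (M := M)
          (a := fun i => (a i : ℕ)) rfl)
        rw [homog_big, Submodule.mem_bot] at h1
        · rw [h1, smul_zero]
        · push_cast at hlt ⊢
          omega

/-- The character `chi` has non-maximal height. -/
theorem chi_height (hM : M ≠ 0) (hp2 : p ≠ 2) : NonMaximalHeight k p (mO M) (chi k p M) := by
  refine ⟨_, isGreatest_deg hM, ?_⟩
  intro D hD
  have hp3 : 3 ≤ p := by
    have := hp.out.two_le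
    omega
  rw [chi_apply, coord_topO_eq, ← frobDP_lam, Frob.lam_div, toDer_apply, frobDP_lam, tau_homog
    (hD _ _ (mono_mem_homog (k := k) (p := p) (M := M) (a := ![p - 1, 0]) rfl)), neg_zero]
  simp only [Matrix.cons_val_zero, Matrix.cons_val_one]
  have : 1 ≤ p := by omega
  push_cast [Nat.cast_sub this]
  omega

end Height

end Pool.Agent.W_MP_e80488_al
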