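import Pool.Agent.W_MP_e80488_al.Simples
import Pool.Agent.W_MP_e80488_al.Height
import Pool.Agent.W_MP_e80488_al.EnvMin

set_option autoImplicit false

/-!
# Counting the simple modules
-/

namespace Pool.Agent.W_MP_e80488_al

open Finset Polynomial

attribute [local instance 100] LieRing.ofAssociativeRing

section Count

universe u

variable {k : Type u} [Field k] {p M : ℕ} [hp : Fact p.Prime] [CharP k p]

/-- roots of `X^q + cX` -/
lemma exists_roots [IsAlgClosed k] (hM : M ≠ 0) {c : k} (hc : c ≠ 0) :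
    ∃ s : Finset k, s.card = p ^ M ∧ ∀ ζ ∈ s, ζ ^ (p ^ M) = - (c * ζ) := by
  classical
  have hq := one_lt_q (p := p) hM
  set f : k[X] := X ^ (p ^ M) + C c * X with hf
  have hdeg : f.natDegree = p ^ M := by
    rw [hf]
    refine natDegree_add_eq_left_of_degree_lt ?_ |>.trans (natDegree_X_pow _)
    rw [degree_X_pow]
    refine (degree_C_mul_X_le c).trans_lt ?_
    exact_mod_cast hq
  have hder : f.derivative = C c := by
    have h1 : ((p ^ M : ℕ) : k) = 0 := by
      rw [Nat.cast_pow, CharP.cast_eq_zero, zero_pow hM]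
    rw [hf, derivative_add, derivative_X_pow, h1, derivative_C_mul, derivative_X]
    simp
  have hsep : f.Separable := by
    rw [Separable, hder]
    refine ⟨0, C c⁻¹, ?_⟩
    rw [zero_mul, zero_add, ← C_mul, inv_mul_cancel₀ hc, C_1]
  have hf0 : f ≠ 0 := hsep.ne_zero
  refine ⟨f.roots.toFinset, ?_, ?_⟩
  · rw [Multiset.toFinset_card_of_nodup (nodup_roots hsep), ← hdeg]
    exact splits_iff_card_roots.1 (IsAlgClosed.splits f)
  · intro ζ hζ
    rw [Multiset.mem_toFinset, mem_roots hf0, IsRoot.def, hf] at hζ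
    simp only [eval_add, eval_pow, eval_X, eval_mul, eval_C] at hζ
    linear_combination hζ

/-- the parameters `(c, ζ)` -/
lemma exists_pairs [IsAlgClosed k] (hM : M ≠ 0) :
    ∃ P : Finset (k × k), P.card = (p - 1) * p ^ M + 1 ∧
      ∀ x ∈ P, x.1 ^ p = x.1 ∧ x.2 ^ (p ^ M) = - (x.1 * x.2) := by
  classical
  have hex : ∀ c : k, ∃ s : Finset k, c ≠ 0 → s.card = p ^ M ∧ ∀ ζ ∈ s, ζ ^ (p ^ M) = - (c * ζ) := by
    intro c
    by_cases hc : c = 0
    · exact ⟨∅, fun h => absurd hc h⟩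
    · obtain ⟨s, hs⟩ := exists_roots hM hc
      exact ⟨s, fun _ => hs⟩
  choose s hs using hex
  have hcast : ∀ a ∈ Finset.Ioo 0 p, (a : k) ≠ 0 := by
    intro a ha
    rw [mem_Ioo] at ha
    rw [Ne, CharP.cast_eq_zero_iff k p]
    intro h
    exact absurd (Nat.le_of_dvd ha.1 h) (not_le.2 ha.2)
  have hinj : ∀ a ∈ Finset.Ioo 0 p, ∀ b ∈ Finset.Ioo 0 p, (a : k) = b → a = b := by
    intro a ha b hb h
    rw [mem_Ioo] at ha hb
    rw [CharP.cast_eq_iff_mod_eq k p, Nat.mod_eq_of_lt ha.2, Nat.mod_eq_of_lt hb.2] at h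
    exact h
  set P0 : Finset (k × k) := (Finset.Ioo 0 p).biUnion fun a => {(a : k)} ×ˢ s a with hP0
  have hP0mem : ∀ x ∈ P0, ∃ a ∈ Finset.Ioo 0 p, x.1 = a ∧ x.2 ∈ s a := by
    intro x hx
    rw [hP0, mem_biUnion] at hx
    obtain ⟨a, ha, hx⟩ := hx
    rw [mem_product, mem_singleton] at hx
    exact ⟨a, ha, hx.1, hx.2⟩
  have hcard : P0.card = (p - 1) * p ^ M := by
    rw [hP0, card_biUnion]
    · rw [sum_congr rfl fun a ha => by
        rw [card_product, card_singleton, one_mul, (hs (a : k) (hcast a ha)).1]]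
      rw [sum_const, Nat.card_Ioo, smul_eq_mul, Nat.sub_zero]
    · intro a ha b hb hab
      rw [Function.onFun, Finset.disjoint_left]
      intro x hx hx'
      rw [mem_product, mem_singleton] at hx hx'
      exact hab (hinj a ha b hb (hx.1.symm.trans hx'.1))
  refine ⟨insert (0, 0) P0, ?_, ?_⟩
  · rw [card_insert_of_notMem, hcard]
    intro h
    obtain ⟨a, ha, h1, _⟩ := hP0mem _ h
    exact hcast a ha h1.symm
  · intro x hx
    rcases mem_insert.1 hx with rfl | hx
    · refine ⟨zero_pow hp.out.ne_zero, ?_⟩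
      simp only [mul_zero, neg_zero]
      exact zero_pow (pow_ne_zero _ hp.out.ne_zero)
    · obtain ⟨a, ha, h1, h2⟩ := hP0mem _ hx
      refine ⟨?_, ?_⟩
      · rw [h1, natCast_pow_p]
      · rw [h1]
        exact (hs (a : k) (hcast a ha)).2 _ h2

/-- There are many simple modules. -/
theorem many_simples [IsAlgClosed k] (hM : M ≠ 0) (hp2 : p ≠ 2) :
    AtLeastSimples k (AA k p M) ((p - 1) * p ^ M + 1) := by
  classical
  obtain ⟨P, hPc, hP⟩ := exists_pairs (k := k) (p := p) (M := M) hM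
  have key : ∀ c : k, c ^ p = c → ∃ Zc : AA k p M, ∀ ζ : k, ζ ^ (p ^ M) = - (c * ζ) →
      ∃ (V : Type u) (_ : AddCommGroup V) (_ : Module k V) (_ : Module (AA k p M) V)
        (_ : IsScalarTower k (AA k p M) V),
        IsSimpleModule (AA k p M) V ∧ Module.Finite k V ∧
        (∃ v : V, v ≠ 0 ∧ ∀ g ∈ gmS k p M, g • v = 0) ∧
        ∀ v : V, (∀ g ∈ gmS k p M, g • v = 0) →
          gen (mo k p M 1 0) 0 • v = c • v ∧ Zc • v = ζ • v :=
    fun c hc => exists_simple hM hp2 hc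
  choose! Z hZ using key
  let e : Fin ((p - 1) * p ^ M + 1) → k × k := fun i => ((P.equivFinOfCardEq hPc).symm i : k × k)
  have he : Function.Injective e := fun i j h =>
    (P.equivFinOfCardEq hPc).symm.injective (Subtype.ext h)
  have heP : ∀ i, (e i).1 ^ p = (e i).1 ∧ (e i).2 ^ (p ^ M) = - ((e i).1 * (e i).2) := fun i =>
    hP _ ((P.equivFinOfCardEq hPc).symm i).2
  have hV := fun i => hZ (e i).1 (heP i).1 (e i).2 (heP i).2
  choose V i1 i2 i3 i4 h1 h2 h3 h4 using hV
  refine ⟨V, i1, i2, i3, i4, h1, h2, ?_⟩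
  rintro i j ⟨φ⟩
  obtain ⟨v, hv0, hv⟩ := h3 i
  have hφv : ∀ g ∈ gmS k p M, g • φ v = 0 := fun g hg => by
    rw [← map_smul, hv g hg, map_zero]
  have hφ0 : φ v ≠ 0 := fun h => hv0 (φ.injective (by rw [h, map_zero]))
  have hsc : ∀ t : k, φ (t • v) = t • φ v := fun t => by
    rw [← algebraMap_smul (AA k p M) t v, map_smul, algebraMap_smul]
  obtain ⟨ha1, ha2⟩ := h4 i v hv
  obtain ⟨hb1, hb2⟩ := h4 j (φ v) hφv
  have hc : (e i).1 = (e j).1 := by
    rw [← map_smul, ha1, hsc] at hb1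
    exact smul_left_injective k hφ0 hb1
  have hζ : (e i).2 = (e j).2 := by
    rw [← hc, ← map_smul, ha2, hsc] at hb2
    exact smul_left_injective k hφ0 hb2
  exact he (Prod.ext hc hζ)

end Count

end Pool.Agent.W_MP_e80488_al
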