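import Mathlib

set_option autoImplicit false

/-!
# Lowest weight modules, abstractly
-/

namespace Pool.Agent.W_MP_e80488_al

open Finset

section LW

/-- Commuting nilpotent elements kill a common nonzero vector. -/
lemma exists_killed {A V : Type*} [Ring A] [AddCommGroup V] [Module A V] [Nontrivial V] (p : ℕ)
    (s : Set A) (hs : s.Finite) (hcomm : ∀ g ∈ s, ∀ g' ∈ s, g * g' = g' * g)
    (hnil : ∀ g ∈ s, g ^ p = 0) : ∃ v : V, v ≠ 0 ∧ ∀ g ∈ s, g • v = 0 := by
  classical
  induction s, hs using Set.Finite.induction_on with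
  | empty =>
    obtain ⟨v, hv⟩ := exists_ne (0 : V)
    exact ⟨v, hv, by simp⟩
  | @insert a s ha hs ih =>
    obtain ⟨v, hv, hv'⟩ := ih (fun g hg g' hg' => hcomm g (Set.mem_insert_of_mem _ hg) g'
      (Set.mem_insert_of_mem _ hg')) (fun g hg => hnil g (Set.mem_insert_of_mem _ hg))
    have hex : ∃ n : ℕ, a ^ n • v = 0 := ⟨p, by
      rw [hnil a (Set.mem_insert _ _), zero_smul]⟩
    set n := Nat.find hex with hn
    have hn1 : a ^ n • v = 0 := Nat.find_spec hex
    have hn0 : n ≠ 0 := by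
      intro h0
      rw [h0, pow_zero, one_smul] at hn1
      exact hv hn1
    obtain ⟨m, hm⟩ : ∃ m, n = m + 1 := ⟨n - 1, by omega⟩
    refine ⟨a ^ m • v, Nat.find_min hex (m := m) (by omega), ?_⟩
    intro g hg
    rcases Set.mem_insert_iff.1 hg with h | h
    · rw [h, smul_smul, ← pow_succ', ← hm, hn1]
    · have hc : Commute g a := hcomm g hg a (Set.mem_insert _ _)
      rw [smul_smul, (hc.pow_right m).eq, mul_smul, hv' g h, smul_zero]

variable {k A F : Type*} [Field k] [Ring A] [Algebra k A] [AddCommGroup F] [Module k F]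
  [Module A F] [IsScalarTower k A F]

/-- the largest `A`-submodule contained in `Fp` -/
def core (A : Type*) [Ring A] [Algebra k A] [Module A F] [IsScalarTower k A F]
    (Fp : Submodule k F) : Submodule A F where
  carrier := {v | ∀ a : A, a • v ∈ Fp}
  add_mem' := fun {v w} hv hw a => by rw [smul_add]; exact Fp.add_mem (hv a) (hw a)
  zero_mem' := fun a => by rw [smul_zero]; exact Fp.zero_mem
  smul_mem' := fun b v hv a => by rw [smul_smul]; exact hv (a * b)

lemma mem_core {Fp : Submodule k F} {v : F} : v ∈ core A Fp ↔ ∀ a : A, a • v ∈ Fp := Iff.rfl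

lemma core_le {Fp : Submodule k F} {v : F} (h : v ∈ core A Fp) : v ∈ Fp := by
  have := h (1 : A)
  rwa [one_smul] at this

/-- Hypotheses on the generators of the algebra. -/
structure GenHyp (k : Type*) {A : Type*} [Field k] [Ring A] [Algebra k A] (p : ℕ)
    (gm g0 gp : Set A) : Prop where
  gen : Algebra.adjoin k (gm ∪ (g0 ∪ gp)) = ⊤
  br : ∀ g ∈ gm, ∀ a ∈ g0 ∪ gp, g * a - a * g ∈ Submodule.span k (gm ∪ (g0 ∪ gp))
  fin : gm.Finite
  comm : ∀ g ∈ gm, ∀ g' ∈ gm, g * g' = g' * g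
  nil : ∀ g ∈ gm, g ^ p = 0

/-- Hypotheses on the module. -/
structure LWHyp (gm g0 gp : Set A) (S Fp : Submodule k F) : Prop where
  killS : ∀ g ∈ gm, ∀ s ∈ S, g • s = 0
  zeroS : ∀ g ∈ g0, ∀ s ∈ S, g • s ∈ S
  posS : ∀ g ∈ gp, ∀ s ∈ S, g • s ∈ Fp
  stabF : ∀ g ∈ g0 ∪ gp, ∀ f ∈ Fp, g • f ∈ Fp
  disj : ∀ s ∈ S, s ∈ Fp → s = 0
  ne : S ≠ ⊥
  simple : ∀ T : Submodule k F, (∀ g ∈ g0, ∀ t ∈ T, g • t ∈ T) → ∀ s ∈ S, s ≠ 0 → s ∈ T → S ≤ T

section Stable

variable {p : ℕ} {gm g0 gp : Set A}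

/-- a subspace stable under the generators is stable under `A` -/
lemma stable_of_gen {s : Set A} (hs : Algebra.adjoin k s = ⊤) (X : Submodule k F)
    (h : ∀ g ∈ s, ∀ x ∈ X, g • x ∈ X) (a : A) {x : F} (hx : x ∈ X) : a • x ∈ X := by
  have ha : a ∈ Algebra.adjoin k s := by rw [hs]; trivial
  induction ha using Algebra.adjoin_induction generalizing x with
  | mem a ha => exact h a ha x hx
  | algebraMap c => rw [algebraMap_smul]; exact X.smul_mem c hx
  | add a b _ _ h1 h2 => rw [add_smul]; exact X.add_mem (h1 hx) (h2 hx)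
  | mul a b _ _ h1 h2 => rw [mul_smul]; exact h1 (h2 hx)

/-- the smallest subspace containing `X` and `C` and stable under `g0 ∪ gp` -/
def pspan (g0 gp : Set A) (X : Set F) (C : Submodule A F) : Submodule k F :=
  sInf {Y | X ⊆ Y ∧ (C : Set F) ⊆ Y ∧ ∀ g ∈ g0 ∪ gp, ∀ y ∈ Y, g • y ∈ Y}

lemma subset_pspan (X : Set F) (C : Submodule A F) {x : F} (hx : x ∈ X) :
    x ∈ (pspan g0 gp X C : Submodule k F) := by
  rw [pspan, Submodule.mem_sInf]
  intro Y hY
  exact hY.1 hx

lemma le_pspan (X : Set F) (C : Submodule A F) {x : F} (hx : x ∈ C) :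
    x ∈ (pspan g0 gp X C : Submodule k F) := by
  rw [pspan, Submodule.mem_sInf]
  intro Y hY
  exact hY.2.1 hx

lemma pspan_stable (X : Set F) (C : Submodule A F) {g : A} (hg : g ∈ g0 ∪ gp) {x : F}
    (hx : x ∈ (pspan g0 gp X C : Submodule k F)) :
    g • x ∈ (pspan g0 gp X C : Submodule k F) := by
  rw [pspan, Submodule.mem_sInf] at hx ⊢
  intro Y hY
  exact hY.2.2 g hg x (hx Y hY)

lemma pspan_le {X : Set F} {C : Submodule A F} {Y : Submodule k F} (h1 : X ⊆ Y)
    (h2 : (C : Set F) ⊆ Y) (h3 : ∀ g ∈ g0 ∪ gp, ∀ y ∈ Y, g • y ∈ Y) :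
    pspan g0 gp X C ≤ Y := sInf_le ⟨h1, h2, h3⟩

lemma smul_mem_of_span {s : Set A} {X : Submodule k F} {y : F} (h : ∀ g ∈ s, g • y ∈ X) {a : A}
    (ha : a ∈ Submodule.span k s) : a • y ∈ X := by
  induction ha using Submodule.span_induction with
  | mem a ha => exact h a ha
  | zero => rw [zero_smul]; exact X.zero_mem
  | add a b _ _ h1 h2 => rw [add_smul]; exact X.add_mem h1 h2
  | smul c a _ h1 => rw [smul_assoc]; exact X.smul_mem c h1

/-- if `gm` sends `X` into `C`, then the `pspan` is stable under everything -/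
lemma pspan_stable_all (H : GenHyp k p gm g0 gp) (X : Set F) (C : Submodule A F)
    (hX : ∀ g ∈ gm, ∀ x ∈ X, g • x ∈ C) (a : A) {x : F}
    (hx : x ∈ (pspan g0 gp X C : Submodule k F)) :
    a • x ∈ (pspan g0 gp X C : Submodule k F) := by
  refine stable_of_gen H.gen _ ?_ a hx
  set Y : Submodule k F := pspan g0 gp X C with hY
  let Y' : Submodule k F :=
    { carrier := {y | y ∈ Y ∧ ∀ g ∈ gm, g • y ∈ Y}
      add_mem' := fun {y z} hy hz => ⟨Y.add_mem hy.1 hz.1, fun g hg => by
        rw [smul_add]; exact Y.add_mem (hy.2 g hg) (hz.2 g hg)⟩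
      zero_mem' := ⟨Y.zero_mem, fun g _ => by rw [smul_zero]; exact Y.zero_mem⟩
      smul_mem' := fun c y hy => ⟨Y.smul_mem c hy.1, fun g hg => by
        rw [smul_algebra_smul_comm]; exact Y.smul_mem c (hy.2 g hg)⟩ }
  have hle : Y ≤ Y' := by
    refine pspan_le ?_ ?_ ?_
    · intro x hx
      exact ⟨subset_pspan X C hx, fun g hg => le_pspan X C (hX g hg x hx)⟩
    · intro x hx
      exact ⟨le_pspan X C hx, fun g hg => le_pspan X C (C.smul_mem g hx)⟩
    · intro q hq y hy
      refine ⟨pspan_stable X C hq hy.1, fun g hg => ?_⟩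
      have h1 : g • q • y = q • g • y + (g * q - q * g) • y := by
        rw [sub_smul, mul_smul, mul_smul]
        abel
      rw [h1]
      refine Y.add_mem (pspan_stable X C hq (hy.2 g hg)) ?_
      refine smul_mem_of_span ?_ (H.br g hg q hq)
      rintro a (ha | ha)
      · exact hy.2 a ha
      · exact pspan_stable X C ha hy.1
  rintro g (hg | hg) y hy
  · exact (hle hy).2 g hg
  · exact pspan_stable X C hg hy

end Stable

section Main

variable {p : ℕ} {gm g0 gp : Set A} {S Fp : Submodule k F}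

lemma mem_core_of_kill (H : GenHyp k p gm g0 gp) (h : LWHyp gm g0 gp S Fp) {f : F} (hf : f ∈ Fp)
    (hg : ∀ g ∈ gm, g • f ∈ core A Fp) : f ∈ core A Fp := by
  intro a
  have h1 : a • f ∈ (pspan g0 gp {f} (core A Fp) : Submodule k F) :=
    pspan_stable_all H {f} (core A Fp) (by
      intro g hg' x hx
      rw [Set.mem_singleton_iff.1 hx]
      exact hg g hg') a (subset_pspan _ _ (Set.mem_singleton f))
  refine (pspan_le ?_ ?_ h.stabF : pspan g0 gp {f} (core A Fp) ≤ Fp) h1
  · rintro x hx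
    rw [Set.mem_singleton_iff.1 hx]
    exact hf
  · intro x hx
    exact core_le hx

/-- the submodule generated by `S` -/
def genS (A : Type*) [Ring A] [Algebra k A] [Module A F] (S : Submodule k F) : Submodule A F :=
  Submodule.span A (S : Set F)

lemma genS_le (H : GenHyp k p gm g0 gp) (h : LWHyp gm g0 gp S Fp) {v : F} (hv : v ∈ genS A S) :
    v ∈ S ⊔ Fp := by
  have h1 : v ∈ (pspan g0 gp (S : Set F) (⊥ : Submodule A F) : Submodule k F) := by
    rw [genS] at hv
    induction hv using Submodule.span_induction with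
    | mem x hx => exact subset_pspan _ _ hx
    | zero => exact Submodule.zero_mem _
    | add x y _ _ h1 h2 => exact Submodule.add_mem _ h1 h2
    | smul a x _ h1 =>
      refine pspan_stable_all H _ _ ?_ a h1
      intro g hg x hx
      rw [h.killS g hg x hx]
      exact Submodule.zero_mem _
  refine (pspan_le ?_ ?_ ?_ : pspan g0 gp (S : Set F) (⊥ : Submodule A F) ≤ S ⊔ Fp) h1
  · intro x hx
    exact Submodule.mem_sup_left hx
  · intro x hx
    rw [SetLike.mem_coe, Submodule.mem_bot] at hx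
    rw [hx]
    exact Submodule.zero_mem _
  · intro g hg y hy
    obtain ⟨s, hs, f, hf, rfl⟩ := Submodule.mem_sup.1 hy
    rw [smul_add]
    refine Submodule.add_mem _ ?_ (Submodule.mem_sup_right (h.stabF g hg f hf))
    rcases hg with hg | hg
    · exact Submodule.mem_sup_left (h.zeroS g hg s hs)
    · exact Submodule.mem_sup_right (h.posS g hg s hs)

lemma lowest (H : GenHyp k p gm g0 gp) (h : LWHyp gm g0 gp S Fp) {v : F} (hv : v ∈ genS A S)
    (hk : ∀ g ∈ gm, g • v ∈ core A Fp) : ∃ s ∈ S, v - s ∈ core A Fp := by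
  obtain ⟨s, hs, f, hf, rfl⟩ := Submodule.mem_sup.1 (genS_le H h hv)
  refine ⟨s, hs, ?_⟩
  rw [add_sub_cancel_left]
  refine mem_core_of_kill H h hf fun g hg => ?_
  have := hk g hg
  rwa [smul_add, h.killS g hg s hs, zero_add] at this

/-- The simple module. -/
abbrev Lmod (A : Type*) [Ring A] [Algebra k A] [Module A F] [IsScalarTower k A F]
    (S Fp : Submodule k F) : Type _ :=
  (genS A S) ⧸ (core A Fp).comap (genS A S).subtype

lemma Lmod_killed (H : GenHyp k p gm g0 gp) (h : LWHyp gm g0 gp S Fp) (v : Lmod A S Fp)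
    (hv : ∀ g ∈ gm, g • v = 0) : ∃ (s : F) (hs : s ∈ S), v = Submodule.Quotient.mk
      ⟨s, Submodule.subset_span hs⟩ := by
  obtain ⟨⟨v, hv'⟩, rfl⟩ := Submodule.Quotient.mk_surjective _ v
  obtain ⟨s, hs, h1⟩ := lowest H h hv' (by
    intro g hg
    have := hv g hg
    rw [← Submodule.Quotient.mk_smul, Submodule.Quotient.mk_eq_zero] at this
    exact this)
  refine ⟨s, hs, ?_⟩
  rw [Submodule.Quotient.eq]
  exact h1

lemma Lmod_eigen (H : GenHyp k p gm g0 gp) (h : LWHyp gm g0 gp S Fp) {a : A} {ζ : k}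
    (ha : ∀ s ∈ S, a • s = ζ • s) (v : Lmod A S Fp)
    (hv : ∀ g ∈ gm, g • v = 0) : a • v = ζ • v := by
  obtain ⟨s, hs, rfl⟩ := Lmod_killed H h v hv
  rw [← Submodule.Quotient.mk_smul, ← Submodule.Quotient.mk_smul]
  congr 1
  exact Subtype.ext (ha s hs)

lemma Lmod_ne_zero (h : LWHyp gm g0 gp S Fp) {s : F} (hs : s ∈ S) (h0 : s ≠ 0) :
    (Submodule.Quotient.mk ⟨s, Submodule.subset_span hs⟩ : Lmod A S Fp) ≠ 0 := by
  rw [Ne, Submodule.Quotient.mk_eq_zero]
  intro h1
  exact h0 (h.disj s hs (core_le h1))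

theorem Lmod_simple (H : GenHyp k p gm g0 gp) (h : LWHyp gm g0 gp S Fp) :
    IsSimpleModule A (Lmod A S Fp) := by
  obtain ⟨s0, hs0, hs0'⟩ := Submodule.exists_mem_ne_zero_of_ne_bot h.ne
  have hnt : Nontrivial (Lmod A S Fp) := ⟨⟨_, 0, Lmod_ne_zero h hs0 hs0'⟩⟩
  rw [isSimpleModule_iff]
  refine { toNontrivial := inferInstance, eq_bot_or_eq_top := fun M => ?_ }
  by_cases hM : M = ⊥
  · exact Or.inl hM
  right
  have hM' : Nontrivial M := (Submodule.nontrivial_iff_ne_bot).2 hM
  obtain ⟨v, hv0, hv⟩ := exists_killed (A := A) (V := M) p gm H.fin H.comm H.nil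
  obtain ⟨s, hs, h1⟩ := Lmod_killed H h (v : Lmod A S Fp) (by
    intro g hg
    have := congrArg Subtype.val (hv g hg)
    simpa using this)
  have hs' : s ≠ 0 := by
    rintro rfl
    apply hv0
    apply Subtype.ext
    rw [h1]
    exact (Submodule.Quotient.mk_eq_zero _).2 (Submodule.zero_mem _)
  -- the subspace of vectors which land in `M`
  let T : Submodule k F :=
    { carrier := {t | ∃ ht : t ∈ genS A S, (Submodule.Quotient.mk ⟨t, ht⟩ : Lmod A S Fp) ∈ M}
      add_mem' := by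
        rintro x y ⟨hx, hx'⟩ ⟨hy, hy'⟩
        exact ⟨Submodule.add_mem _ hx hy, M.add_mem hx' hy'⟩
      zero_mem' := ⟨Submodule.zero_mem _, M.zero_mem⟩
      smul_mem' := by
        rintro c x ⟨hx, hx'⟩
        refine ⟨?_, ?_⟩
        · rw [← algebraMap_smul A c x]
          exact Submodule.smul_mem _ _ hx
        · have := M.smul_mem (algebraMap k A c) hx'
          rw [algebraMap_smul] at this
          exact this }
  have hST : S ≤ T := by
    refine h.simple T ?_ s hs hs' ⟨Submodule.subset_span hs, ?_⟩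
    · rintro g _ t ⟨ht, ht'⟩
      exact ⟨Submodule.smul_mem _ _ ht, M.smul_mem g ht'⟩
    · rw [← h1]
      exact v.2
  -- hence `M` is everything
  rw [eq_top_iff]
  rintro w -
  obtain ⟨⟨w, hw⟩, rfl⟩ := Submodule.Quotient.mk_surjective _ w
  have hgen : ∀ (w : F) (hw : w ∈ Submodule.span A (S : Set F)),
      (Submodule.Quotient.mk ⟨w, hw⟩ : Lmod A S Fp) ∈ M := by
    intro w hw
    induction hw using Submodule.span_induction with
    | mem x hx => exact (hST hx).2
    | zero => exact M.zero_mem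
    | add x y _ _ h1 h2 => exact M.add_mem h1 h2
    | smul a x _ h1 => exact M.smul_mem a h1
  exact hgen w hw

/-- Distinguishing the simple modules. -/
theorem Lmod_eq_of_equiv {F' : Type*} [AddCommGroup F'] [Module k F'] [Module A F']
    [IsScalarTower k A F'] {S' Fp' : Submodule k F'}
    (H : GenHyp k p gm g0 gp) (h : LWHyp gm g0 gp S Fp) (h' : LWHyp gm g0 gp S' Fp')
    (e : Lmod A S Fp ≃ₗ[A] Lmod A S' Fp') {a : A} {ζ ζ' : k}
    (ha : ∀ s ∈ S, a • s = ζ • s) (ha' : ∀ s ∈ S', a • s = ζ' • s) : ζ = ζ' := by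
  obtain ⟨s, hs, hs0⟩ := Submodule.exists_mem_ne_zero_of_ne_bot h.ne
  set v : Lmod A S Fp := Submodule.Quotient.mk ⟨s, Submodule.subset_span hs⟩ with hv
  have hv0 : v ≠ 0 := Lmod_ne_zero h hs hs0
  have hk : ∀ g ∈ gm, g • v = 0 := by
    intro g hg
    rw [hv, ← Submodule.Quotient.mk_smul, Submodule.Quotient.mk_eq_zero]
    have : (g • (⟨s, Submodule.subset_span hs⟩ : genS A S)) = 0 :=
      Subtype.ext (h.killS g hg s hs)
    rw [this]
    exact Submodule.zero_mem _
  have hk' : ∀ g ∈ gm, g • e v = 0 := by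
    intro g hg
    rw [← map_smul, hk g hg, map_zero]
  have h1 := Lmod_eigen H h ha v hk
  have h2 := Lmod_eigen H h' ha' (e v) hk'
  have h3 : e (ζ • v) = ζ • e v := by
    rw [← algebraMap_smul A ζ v, map_smul, algebraMap_smul]
  rw [← map_smul, h1, h3] at h2
  have h4 : (ζ - ζ') • e v = 0 := by rw [sub_smul, h2, sub_self]
  rcases smul_eq_zero.1 h4 with h5 | h5
  · exact sub_eq_zero.1 h5
  · exfalso
    apply hv0
    have : e v = e 0 := by rw [h5, map_zero]
    exact e.injective this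

/-- Summary. -/
theorem LW_main.{v} {k A : Type*} {F : Type v} [Field k] [Ring A] [Algebra k A] [AddCommGroup F]
    [Module k F] [Module A F] [IsScalarTower k A F] [Module.Finite k F]
    {p : ℕ} {gm g0 gp : Set A} {S Fp : Submodule k F}
    (H : GenHyp k p gm g0 gp) (h : LWHyp gm g0 gp S Fp) :
    ∃ (V : Type v) (_ : AddCommGroup V) (_ : Module k V) (_ : Module A V)
      (_ : IsScalarTower k A V), IsSimpleModule A V ∧ Module.Finite k V ∧
      (∃ v : V, v ≠ 0 ∧ ∀ g ∈ gm, g • v = 0) ∧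
      ∀ (a : A) (ζ : k), (∀ s ∈ S, a • s = ζ • s) →
        ∀ v : V, (∀ g ∈ gm, g • v = 0) → a • v = ζ • v := by
  refine ⟨Lmod A S Fp, inferInstance, inferInstance, inferInstance, inferInstance,
    Lmod_simple H h, ?_, ?_, ?_⟩
  · have h1 : Module.Finite k (genS A S) :=
      Module.Finite.of_injective ((genS A S).subtype.restrictScalars k)
        (Submodule.subtype_injective _)
    exact Module.Finite.of_surjective
      ((Submodule.mkQ ((core A Fp).comap (genS A S).subtype)).restrictScalars k)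
      (Submodule.mkQ_surjective _)
  · obtain ⟨s, hs, hs0⟩ := Submodule.exists_mem_ne_zero_of_ne_bot h.ne
    refine ⟨_, Lmod_ne_zero h hs hs0, ?_⟩
    intro g' hg'
    rw [← Submodule.Quotient.mk_smul, Submodule.Quotient.mk_eq_zero]
    have : (g' • (⟨s, Submodule.subset_span hs⟩ : genS A S)) = 0 :=
      Subtype.ext (h.killS g' hg' s hs)
    rw [this]
    exact Submodule.zero_mem _
  · intro a ζ ha v hv
    exact Lmod_eigen H h ha v hv

end Main

end LW

end Pool.Agent.W_MP_e80488_al
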