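import Pool.Agent.W_MP_e80488_al.Emb
import Pool.Agent.W_MP_e80488_al.EnvDer
import Pool.Agent.W_MP_e80488_al.LW

set_option autoImplicit false

/-!
# Generators of the reduced enveloping algebra
-/

namespace Pool.Agent.W_MP_e80488_al

open Finset

attribute [local instance 100] LieRing.ofAssociativeRing

section WLie

variable {k : Type*} [Field k] {p n : ℕ} {m : Fin n → ℕ} [hp : Fact p.Prime] [CharP k p]

omit [CharP k p] in
lemma pd_comm (i j : Fin n) (f : DP k p m) :
    pd k p m i (pd k p m j f) = pd k p m j (pd k p m i f) := by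
  by_cases hij : i = j
  · rw [hij]
  induction f using DP.induction with
  | h0 => simp
  | hadd f g hf hg => simp only [map_add, hf, hg]
  | hsmul c a =>
    simp only [map_smul]
    congr 1
    by_cases hj : (a j : ℕ) = 0
    · rw [pd_mono_of_zero j hj, map_zero]
      by_cases hi : (a i : ℕ) = 0
      · rw [pd_mono_of_zero i hi, map_zero]
      · rw [pd_mono_of_pos i hi (fun l => (a l).2), pd_mono_of_zero j]
        rw [if_neg (Ne.symm hij), hj]
    · by_cases hi : (a i : ℕ) = 0
      · rw [pd_mono_of_zero i hi, map_zero, pd_mono_of_pos j hj (fun l => (a l).2),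
          pd_mono_of_zero i]
        rw [if_neg hij, hi]
      · rw [pd_mono_of_pos i hi (fun l => (a l).2), pd_mono_of_pos j hj (fun l => (a l).2),
          pd_mono_of_pos i (by rw [if_neg hij]; exact hi), pd_mono_of_pos j
          (by rw [if_neg (Ne.symm hij)]; exact hj)]
        · congr 1
          funext l
          by_cases h1 : l = i
          · subst h1
            rw [if_pos rfl, if_neg hij, if_neg hij, if_pos rfl]
          · rw [if_neg h1]
            by_cases h2 : l = j
            · rw [if_pos h2, if_pos h2, if_neg h1]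
            · rw [if_neg h2, if_neg h2, if_neg h1]
        · intro l
          have := (a l).2
          split_ifs <;> omega
        · intro l
          have := (a l).2
          split_ifs <;> omega

omit hp [CharP k p] in
/-- the operator `f ∂_i` -/
noncomputable def fpd (f : DP k p m) (i : Fin n) : Module.End k (DP k p m) := mulL f * pd k p m i

omit hp [CharP k p] in
lemma fpd_apply (f : DP k p m) (i : Fin n) (x : DP k p m) :
    fpd f i x = f * pd k p m i x := rfl

omit hp [CharP k p] in
lemma fpd_add (f g : DP k p m) (i : Fin n) : fpd (f + g) i = fpd f i + fpd g i := by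
  rw [fpd, map_add, add_mul]; rfl

omit hp [CharP k p] in
lemma fpd_smul (c : k) (f : DP k p m) (i : Fin n) : fpd (c • f) i = c • fpd f i := by
  rw [fpd, map_smul, smul_mul_assoc]; rfl

omit hp [CharP k p] in
lemma fpd_zero (i : Fin n) : fpd (0 : DP k p m) i = 0 := by
  rw [fpd, map_zero, zero_mul]

omit hp [CharP k p] in
lemma fpd_mem_W (f : DP k p m) (i : Fin n) : fpd f i ∈ W k p m := by
  induction f using DP.induction with
  | h0 => rw [fpd_zero]; exact Submodule.zero_mem _
  | hadd f g hf hg => rw [fpd_add]; exact Submodule.add_mem _ hf hg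
  | hsmul c a =>
    rw [fpd_smul]
    refine Submodule.smul_mem _ _ (Submodule.subset_span ⟨a, i, ?_⟩)
    rw [fpd, mulL_mono]

omit hp [CharP k p] in
lemma fpd_mem_Env (f : DP k p m) (i : Fin n) : fpd f i ∈ Env k p m := W_le_Env (fpd_mem_W f i)

lemma fpd_lie (f g : DP k p m) (i j : Fin n) :
    ⁅fpd f i, fpd g j⁆ = fpd (f * pd k p m i g) j - fpd (g * pd k p m j f) i := by
  rw [Ring.lie_def]
  refine LinearMap.ext fun x => ?_
  rw [LinearMap.sub_apply, LinearMap.sub_apply, Module.End.mul_apply, Module.End.mul_apply]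
  simp only [fpd_apply]
  rw [← pdD_apply i (g * pd k p m j x), ← pdD_apply j (f * pd k p m i x), Derivation.leibniz,
    Derivation.leibniz]
  simp only [smul_eq_mul, pdD_apply]
  rw [pd_comm i j]
  ring

omit hp [CharP k p] in
/-- `W` is spanned by the `f ∂_i` -/
lemma W_eq_span : W k p m = Submodule.span k {D | ∃ (f : DP k p m) (i : Fin n), D = fpd f i} := by
  refine le_antisymm ?_ ?_
  · rw [W, Submodule.span_le]
    rintro D ⟨a, i, rfl⟩
    exact Submodule.subset_span ⟨mono k p m (fun j => (a j : ℕ)), i, by rw [fpd, mulL_mono]⟩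
  · rw [Submodule.span_le]
    rintro D ⟨f, i, rfl⟩
    exact fpd_mem_W f i

lemma W_lie {D E : Module.End k (DP k p m)} (hD : D ∈ W k p m) (hE : E ∈ W k p m) :
    ⁅D, E⁆ ∈ W k p m := by
  rw [W_eq_span] at hD hE
  induction hD using Submodule.span_induction with
  | zero => rw [zero_lie]; exact Submodule.zero_mem _
  | add x y _ _ h1 h2 => rw [add_lie]; exact Submodule.add_mem _ h1 h2
  | smul c x _ h1 =>
    have h2 : ⁅c • x, E⁆ = c • ⁅x, E⁆ := by
      rw [Ring.lie_def, Ring.lie_def, smul_mul_assoc, mul_smul_comm, smul_sub]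
    rw [h2]
    exact Submodule.smul_mem _ _ h1
  | mem x hx =>
    obtain ⟨f, i, rfl⟩ := hx
    induction hE using Submodule.span_induction with
    | zero => rw [lie_zero]; exact Submodule.zero_mem _
    | add x y _ _ h1 h2 => rw [lie_add]; exact Submodule.add_mem _ h1 h2
    | smul c x _ h1 =>
      have h2 : ⁅fpd f i, c • x⁆ = c • ⁅fpd f i, x⁆ := by
        rw [Ring.lie_def, Ring.lie_def, smul_mul_assoc, mul_smul_comm, smul_sub]
      rw [h2]
      exact Submodule.smul_mem _ _ h1
    | mem y hy =>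
      obtain ⟨g, j, rfl⟩ := hy
      rw [fpd_lie]
      exact Submodule.sub_mem _ (fpd_mem_W _ _) (fpd_mem_W _ _)

lemma toDer_fpd (f : DP k p m) (i : Fin n) (h : fpd f i ∈ Env k p m) :
    toDer ⟨fpd f i, h⟩ = f • pdD i := by
  refine Derivation.ext fun x => ?_
  rw [toDer_apply, Derivation.smul_apply, smul_eq_mul, pdD_apply]
  rfl

end WLie

section Gens

variable {k : Type*} [Field k] {p M : ℕ} [hp : Fact p.Prime] [CharP k p]

/-- The character. -/
noncomputable def chi (k : Type*) [Field k] (p M : ℕ) [hp : Fact p.Prime] [CharP k p] :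
    Module.Dual k (Env k p (mO M)) :=
  coord (topO p M) ∘ₗ (frobDP (k := k) (p := p) (m := mO M)).div ∘ₗ
    (toDer (k := k) (p := p) (m := mO M)).toLinearMap

lemma chi_apply (D : Env k p (mO M)) :
    chi k p M D = coord (topO p M) ((frobDP (k := k) (p := p) (m := mO M)).div (toDer D)) := rfl

lemma chi_fpd (f : DP k p (mO M)) (i : Fin 2) (h : fpd f i ∈ Env k p (mO M)) :
    chi k p M ⟨fpd f i, h⟩ = coord (topO p M) (pdD i f) := by
  rw [chi_apply, toDer_fpd, div_smul_pd]

/-- The reduced enveloping algebra in question. -/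
abbrev AA (k : Type*) [Field k] (p M : ℕ) [hp : Fact p.Prime] [CharP k p] : Type _ :=
  RedEnv p (Env k p (mO M)) (chi k p M)

/-- the generators `f ∂_i` in the reduced enveloping algebra -/
noncomputable def gen (f : DP k p (mO M)) (i : Fin 2) : AA k p M :=
  RedEnv.iota p _ (chi k p M) ⟨fpd f i, fpd_mem_Env f i⟩

lemma gen_add (f g : DP k p (mO M)) (i : Fin 2) : gen (f + g) i = gen f i + gen g i := by
  rw [gen, gen, gen, ← map_add]
  congr 1
  exact Subtype.ext (fpd_add f g i)

lemma gen_smul (c : k) (f : DP k p (mO M)) (i : Fin 2) : gen (c • f) i = c • gen f i := by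
  rw [gen, gen, ← map_smul]
  congr 1
  exact Subtype.ext (fpd_smul c f i)

lemma gen_zero (i : Fin 2) : gen (0 : DP k p (mO M)) i = 0 := by
  have h := gen_smul (0 : k) (0 : DP k p (mO M)) i
  rwa [zero_smul, zero_smul] at h

lemma gen_lie (f g : DP k p (mO M)) (i j : Fin 2) :
    gen f i * gen g j - gen g j * gen f i
      = gen (f * pd k p _ i g) j - gen (g * pd k p _ j f) i := by
  rw [gen, gen, ← RedEnv.iota_lie, gen, gen, ← map_sub]
  congr 1
  exact Subtype.ext (fpd_lie f g i j)

/-- monomials -/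
noncomputable abbrev mo (k : Type*) [Field k] (p M : ℕ) (a b : ℕ) : DP k p (mO M) :=
  mono k p (mO M) ![a, b]

lemma mo_out (b : ℕ) {a : ℕ} (h : p ≤ a) : mo k p M a b = 0 :=
  mono_of_not (m := mO M) 0 (by simpa using h)

/-- negative generators -/
def gmS (k : Type*) [Field k] (p M : ℕ) [hp : Fact p.Prime] [CharP k p] : Set (AA k p M) :=
  Set.range (fun b : Fin (p ^ M) => gen (mo k p M 0 b) 0)

/-- generators of degree zero -/
def g0S (k : Type*) [Field k] (p M : ℕ) [hp : Fact p.Prime] [CharP k p] : Set (AA k p M) :=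
  {x | ∃ b : ℕ, x = gen (mo k p M 1 b) 0} ∪ {x | ∃ b : ℕ, x = gen (mo k p M 0 b) 1}

/-- positive generators -/
def gpS (k : Type*) [Field k] (p M : ℕ) [hp : Fact p.Prime] [CharP k p] : Set (AA k p M) :=
  {x | ∃ a b : ℕ, 2 ≤ a ∧ x = gen (mo k p M a b) 0} ∪
    {x | ∃ a b : ℕ, 1 ≤ a ∧ x = gen (mo k p M a b) 1}

lemma gen_mono_mem (a : Idx p (mO M)) (i : Fin 2) :
    gen (mono k p (mO M) (fun j => (a j : ℕ))) i ∈ gmS k p M ∪ (g0S k p M ∪ gpS k p M) := by
  have h1 : (fun j => (a j : ℕ)) = ![(a 0 : ℕ), (a 1 : ℕ)] := by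
    funext j
    fin_cases j <;> rfl
  rw [h1]
  have hb : (a 1 : ℕ) < p ^ M := (a 1).2
  fin_cases i
  · rcases Nat.lt_or_ge (a 0 : ℕ) 2 with h | h
    · rcases Nat.lt_or_ge (a 0 : ℕ) 1 with h' | h'
      · left
        refine ⟨⟨a 1, hb⟩, ?_⟩
        have : (a 0 : ℕ) = 0 := by omega
        rw [this]
        rfl
      · right; left; left
        have : (a 0 : ℕ) = 1 := by omega
        rw [this]
        exact ⟨_, rfl⟩
    · right; right; left
      exact ⟨_, _, h, rfl⟩
  · rcases Nat.lt_or_ge (a 0 : ℕ) 1 with h' | h'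
    · right; left; right
      have : (a 0 : ℕ) = 0 := by omega
      rw [this]
      exact ⟨_, rfl⟩
    · right; right; right
      exact ⟨_, _, h', rfl⟩

lemma gen_mem_span (f : DP k p (mO M)) (i : Fin 2) :
    gen f i ∈ Submodule.span k (gmS k p M ∪ (g0S k p M ∪ gpS k p M)) := by
  induction f using DP.induction with
  | h0 => rw [gen_zero]; exact Submodule.zero_mem _
  | hadd f g hf hg => rw [gen_add]; exact Submodule.add_mem _ hf hg
  | hsmul c a =>
    rw [gen_smul]
    exact Submodule.smul_mem _ _ (Submodule.subset_span (gen_mono_mem a i))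

lemma exists_gen_of_mem {x : AA k p M} (hx : x ∈ gmS k p M ∪ (g0S k p M ∪ gpS k p M)) :
    ∃ (f : DP k p (mO M)) (i : Fin 2), x = gen f i := by
  rcases hx with ⟨b, rfl⟩ | (⟨b, rfl⟩ | ⟨b, rfl⟩) | ⟨a, b, _, rfl⟩ | ⟨a, b, _, rfl⟩ <;>
  exact ⟨_, _, rfl⟩

omit [CharP k p] in
lemma pd_zero_pow (n : ℕ) (a : Idx p (mO M)) (h : (a 0 : ℕ) < n) :
    (pd k p (mO M) 0 ^ n) (mono k p (mO M) (fun j => (a j : ℕ))) = 0 := by
  induction n generalizing a with
  | zero => omega
  | succ n ih =>
    rw [pow_succ, Module.End.mul_apply]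
    by_cases h0 : (a 0 : ℕ) = 0
    · rw [pd_mono_of_zero 0 h0, map_zero]
    · rw [pd_mono_of_pos 0 h0 (fun j => (a j).2)]
      exact ih (fun j => ⟨if j = 0 then (a j : ℕ) - 1 else (a j : ℕ), by
        have := (a j).2
        split_ifs <;> omega⟩) (by
          simp only [if_true]
          omega)

lemma fpd_pow_zero (b : ℕ) : (fpd (mo k p M 0 b) 0) ^ p = 0 := by
  have hcomm : Commute (mulL (mo k p M 0 b)) (pd k p (mO M) 0) := by
    refine LinearMap.ext fun x => ?_
    rw [Module.End.mul_apply, Module.End.mul_apply]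
    show (mo k p M 0 b) * pd k p (mO M) 0 x = pd k p (mO M) 0 (mo k p M 0 b * x)
    rw [← pdD_apply, ← pdD_apply, Derivation.leibniz, pdD_apply 0 (mo k p M 0 b),
      pd_mono_of_zero 0 (by simp), smul_zero, add_zero, smul_eq_mul]
  have h1 : pd k p (mO M) 0 ^ p = 0 := by
    refine LinearMap.ext fun x => ?_
    rw [LinearMap.zero_apply]
    induction x using DP.induction with
    | h0 => simp
    | hadd f g hf hg => rw [map_add, hf, hg, add_zero]
    | hsmul c a =>
      rw [map_smul, pd_zero_pow p a (by simpa using (a 0).2), smul_zero]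
  rw [fpd, hcomm.mul_pow, h1, mul_zero]

/-- the hypotheses on the generators hold -/
theorem genHyp : GenHyp k p (gmS k p M) (g0S k p M) (gpS k p M) where
  gen := by
    set S : Subalgebra k (AA k p M) := Algebra.adjoin k (gmS k p M ∪ (g0S k p M ∪ gpS k p M))
      with hS
    have hgen : ∀ f i, gen f i ∈ S := fun f i =>
      (Submodule.span_le.2 Algebra.subset_adjoin :
        Submodule.span k (gmS k p M ∪ (g0S k p M ∪ gpS k p M)) ≤ Subalgebra.toSubmodule S)
        (gen_mem_span f i)
    let G' : LieSubalgebra k (Module.End k (DP k p (mO M))) :=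
      { carrier := {D | ∃ h : D ∈ Env k p (mO M), RedEnv.iota p _ (chi k p M) ⟨D, h⟩ ∈ S}
        add_mem' := by
          rintro D E ⟨hD, hD'⟩ ⟨hE, hE'⟩
          refine ⟨(Env k p (mO M)).add_mem hD hE, ?_⟩
          have := S.add_mem hD' hE'
          rw [← map_add] at this
          exact this
        zero_mem' := by
          refine ⟨(Env k p (mO M)).zero_mem, ?_⟩
          have : RedEnv.iota p _ (chi k p M) ⟨0, (Env k p (mO M)).zero_mem⟩ = 0 := map_zero _
          rw [this]
          exact S.zero_mem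
        smul_mem' := by
          rintro c D ⟨hD, hD'⟩
          refine ⟨(Env k p (mO M)).smul_mem c hD, ?_⟩
          have := S.smul_mem hD' c
          rw [← map_smul] at this
          exact this
        lie_mem' := by
          rintro D E ⟨hD, hD'⟩ ⟨hE, hE'⟩
          refine ⟨(Env k p (mO M)).lie_mem hD hE, ?_⟩
          have := S.sub_mem (S.mul_mem hD' hE') (S.mul_mem hE' hD')
          rw [← RedEnv.iota_lie] at this
          exact this }
    have hle : Env k p (mO M) ≤ G' := by
      refine Env_le ?_ ?_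
      · rw [W_eq_span, Submodule.span_le]
        rintro D ⟨f, i, rfl⟩
        exact ⟨fpd_mem_Env f i, hgen f i⟩
      · rintro D ⟨hD, hD'⟩
        refine ⟨Env_pow_mem hD, ?_⟩
        have h1 := RedEnv.iota_pow p _ (chi k p M) ⟨D, hD⟩ ⟨D ^ p, Env_pow_mem hD⟩ rfl
        have h2 := S.pow_mem hD' p
        rw [h1] at h2
        have h3 := S.sub_mem h2 (S.algebraMap_mem (chi k p M ⟨D, hD⟩ ^ p))
        rwa [add_sub_cancel_right] at h3
    rw [← top_le_iff, ← RedEnv.adjoin_iota, Algebra.adjoin_le_iff]
    rintro _ ⟨⟨D, hD⟩, rfl⟩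
    obtain ⟨_, h⟩ := hle hD
    exact h
  br := by
    intro g hg a ha
    obtain ⟨f, i, rfl⟩ := exists_gen_of_mem (Or.inl hg)
    obtain ⟨f', j, rfl⟩ := exists_gen_of_mem (Or.inr ha)
    rw [gen_lie]
    exact Submodule.sub_mem _ (gen_mem_span _ _) (gen_mem_span _ _)
  fin := Set.finite_range _
  comm := by
    rintro _ ⟨b, rfl⟩ _ ⟨b', rfl⟩
    simp only
    rw [← sub_eq_zero, gen_lie, pd_mono_of_zero 0 (by simp), pd_mono_of_zero 0 (by simp), mul_zero,
      mul_zero, sub_self]
  nil := by
    rintro _ ⟨b, rfl⟩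
    simp only
    rw [gen, RedEnv.iota_pow p _ (chi k p M) _ 0 (by
      simp only [fpd_pow_zero]
      rfl), map_zero, zero_add, chi_fpd, pdD_apply, pd_mono_of_zero 0 (by simp), map_zero,
      zero_pow hp.out.ne_zero, map_zero]

end Gens

end Pool.Agent.W_MP_e80488_al
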