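import Mathlib

set_option autoImplicit false

/-!
# The p-th power of a derivation plus a multiplication (Jacobson, Hochschild)

For a derivation `δ` of a commutative algebra `C` of characteristic `p` and `f : C`,
`(δ + f)^p = δ^p + (δ^(p-1) f + f^p)`.
-/

namespace Pool.Agent.W_MP_e80488_al

open Finset

section Jac

variable {k C : Type*} [Field k] [CommRing C] [Algebra k C]

/-- `Y δ f n i` is the coefficient of `t^i` in `(δ + t f)^n 1`. -/
def Y (δ : Derivation k C C) (f : C) : ℕ → ℕ → C
  | 0, 0 => 1
  | 0, _ + 1 => 0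
  | n + 1, 0 => δ (Y δ f n 0)
  | n + 1, i + 1 => δ (Y δ f n (i + 1)) + f * Y δ f n i

variable (δ : Derivation k C C) (f : C)

@[simp] lemma Y_zero_zero : Y δ f 0 0 = 1 := by rw [Y]
@[simp] lemma Y_zero_succ (i : ℕ) : Y δ f 0 (i + 1) = 0 := by rw [Y]
lemma Y_succ_zero (n : ℕ) : Y δ f (n + 1) 0 = δ (Y δ f n 0) := by rw [Y]
lemma Y_succ_succ (n i : ℕ) : Y δ f (n + 1) (i + 1) = δ (Y δ f n (i + 1)) + f * Y δ f n i := by
  rw [Y]

lemma Y_of_lt {n i : ℕ} (h : n < i) : Y δ f n i = 0 := by
  induction n generalizing i with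
  | zero =>
    obtain ⟨j, rfl⟩ : ∃ j, i = j + 1 := ⟨i - 1, by omega⟩
    simp
  | succ n ih =>
    obtain ⟨j, rfl⟩ : ∃ j, i = j + 1 := ⟨i - 1, by omega⟩
    rw [Y_succ_succ, ih (by omega), ih (by omega)]
    simp

lemma Y_self (n : ℕ) : Y δ f n n = f ^ n := by
  induction n with
  | zero => simp
  | succ n ih =>
    rw [Y_succ_succ, ih, Y_of_lt δ f (by omega : n < n + 1), pow_succ']
    simp

lemma Y_succ_left_zero (n : ℕ) : Y δ f (n + 1) 0 = 0 := by
  induction n with
  | zero => rw [Y_succ_zero]; simp
  | succ n ih => rw [Y_succ_zero, ih]; simp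

/-- the twisted derivation `δ + f` -/
noncomputable def tw : Module.End k C := (δ : C →ₗ[k] C) + LinearMap.mulLeft k f

@[simp] lemma tw_apply (x : C) : tw δ f x = δ x + f * x := by simp [tw]

lemma tw_pow_one (n : ℕ) : ((tw δ f) ^ n) 1 = ∑ i ∈ range (n + 1), Y δ f n i := by
  induction n with
  | zero => simp
  | succ n ih =>
    rw [pow_succ', Module.End.mul_apply, ih, tw_apply, map_sum, mul_sum,
      sum_range_succ' (fun i => Y δ f (n + 1) i) (n + 1)]
    simp only [Y_succ_succ, Y_succ_zero]
    rw [sum_add_distrib]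
    rw [sum_range_succ' (fun i => δ (Y δ f n i)) n]
    rw [sum_range_succ (fun i => δ (Y δ f n (i + 1))) n]
    rw [Y_of_lt δ f (by omega : n < n + 1)]
    simp only [map_zero, add_zero]
    ring

lemma Y_formula (n : ℕ) : ∀ i : ℕ, ((i : C) + 1) * Y δ f n (i + 1) =
    ∑ j ∈ range n, (n.choose (j + 1) : C) * (δ^[j] f) * Y δ f (n - (j + 1)) i := by
  induction n with
  | zero => intro i; simp
  | succ n ih =>
    intro i
    have key : ∑ j ∈ range (n + 1), ((n + 1).choose (j + 1) : C) * (δ^[j] f)
          * Y δ f (n + 1 - (j + 1)) i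
        = f * Y δ f n i
          + ∑ j ∈ range n, (n.choose (j + 1) : C) * (δ^[j + 1] f) * Y δ f (n - (j + 1)) i
          + ∑ j ∈ range n, (n.choose (j + 1) : C) * (δ^[j] f) * Y δ f (n - (j + 1) + 1) i := by
      have h1 : ∀ j ∈ range (n + 1), ((n + 1).choose (j + 1) : C) * (δ^[j] f)
          * Y δ f (n + 1 - (j + 1)) i = (n.choose j : C) * (δ^[j] f) * Y δ f (n - j) i
            + (n.choose (j + 1) : C) * (δ^[j] f) * Y δ f (n - j) i := by
        intro j _
        rw [Nat.choose_succ_succ, Nat.add_sub_add_right]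
        push_cast
        ring
      rw [sum_congr rfl h1, sum_add_distrib]
      congr 1
      · rw [sum_range_succ']
        simp only [Nat.choose_zero_right, Nat.cast_one, one_mul, Function.iterate_zero, id,
          Nat.sub_zero]
        rw [add_comm]
      · rw [sum_range_succ, Nat.choose_succ_self]
        simp only [Nat.cast_zero, zero_mul, add_zero]
        refine sum_congr rfl fun j hj => ?_
        have : n - j = n - (j + 1) + 1 := by
          have := mem_range.1 hj
          omega
        rw [this]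
    rw [key, Y_succ_succ, mul_add]
    have h2 : ((i : C) + 1) * δ (Y δ f n (i + 1)) = δ (((i : C) + 1) * Y δ f n (i + 1)) := by
      have : ((i : C) + 1) = ((i + 1 : ℕ) : C) := by push_cast; ring
      rw [this, ← nsmul_eq_mul, ← nsmul_eq_mul, map_nsmul]
    rw [h2, ih i, map_sum]
    have h3 : ∀ j ∈ range n, δ ((n.choose (j + 1) : C) * (δ^[j] f) * Y δ f (n - (j + 1)) i)
        = (n.choose (j + 1) : C) * (δ^[j + 1] f) * Y δ f (n - (j + 1)) i
          + (n.choose (j + 1) : C) * (δ^[j] f) * δ (Y δ f (n - (j + 1)) i) := by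
      intro j _
      rw [mul_assoc, ← nsmul_eq_mul, map_nsmul, Derivation.leibniz, nsmul_eq_mul,
        Function.iterate_succ_apply']
      simp only [smul_eq_mul]
      ring
    rw [sum_congr rfl h3, sum_add_distrib]
    cases i with
    | zero =>
      simp only [Y_succ_zero, Nat.cast_zero, zero_add, one_mul]
      ring
    | succ i =>
      have h4 : (((i + 1 : ℕ) : C) + 1) * (f * Y δ f n (i + 1))
          = f * (((i : C) + 1) * Y δ f n (i + 1)) + f * Y δ f n (i + 1) := by
        push_cast
        ring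
      rw [h4, ih i]
      simp only [Y_succ_succ]
      have h5 : ∀ j ∈ range n, (n.choose (j + 1) : C) * (δ^[j] f)
          * (δ (Y δ f (n - (j + 1)) (i + 1)) + f * Y δ f (n - (j + 1)) i)
          = (n.choose (j + 1) : C) * (δ^[j] f) * δ (Y δ f (n - (j + 1)) (i + 1))
            + f * ((n.choose (j + 1) : C) * (δ^[j] f) * Y δ f (n - (j + 1)) i) := by
        intro j _
        ring
      rw [sum_congr rfl h5, sum_add_distrib, ← mul_sum]
      ring

variable (p : ℕ) [hp : Fact p.Prime] [CharP C p]

include hp in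
lemma tw_pow_p_one : ((tw δ f) ^ p) 1 = δ^[p - 1] f + f ^ p := by
  have hp0 : 0 < p := hp.out.pos
  have hp1 : 1 < p := hp.out.one_lt
  have hY : ∀ i : ℕ, ((i : C) + 1) * Y δ f p (i + 1) = (δ^[p - 1] f) * Y δ f 0 i := by
    intro i
    rw [Y_formula, sum_eq_single (p - 1)]
    · have h1 : p - 1 + 1 = p := by omega
      rw [h1, Nat.choose_self, Nat.sub_self]
      simp
    · intro j hj hne
      have hj' := mem_range.1 hj
      have : p ∣ p.choose (j + 1) := hp.out.dvd_choose_self (by omega) (by omega)
      rw [(CharP.cast_eq_zero_iff C p _).2 this]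
      simp
    · intro h
      exact absurd (mem_range.2 (by omega)) h
  rw [tw_pow_one, sum_range_succ, Y_self]
  congr 1
  rw [show p = p - 2 + 1 + 1 by omega, sum_range_succ', sum_range_succ']
  have h1 : Y δ f (p - 2 + 1 + 1) 0 = 0 := Y_succ_left_zero _ _ _
  have h2 : Y δ f (p - 2 + 1 + 1) (0 + 1) = δ^[p - 2 + 1 + 1 - 1] f := by
    have := hY 0
    rw [show p - 2 + 1 + 1 = p by omega]
    simpa using this
  have h3 : ∑ i ∈ range (p - 2), Y δ f (p - 2 + 1 + 1) (i + 1 + 1) = 0 := by
    refine sum_eq_zero fun i hi => ?_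
    have hi' := mem_range.1 hi
    have h4 := hY (i + 1)
    rw [Y_zero_succ, mul_zero] at h4
    rw [show p - 2 + 1 + 1 = p by omega]
    have h5 : IsUnit (((i + 1 : ℕ) : C) + 1) := by
      have h6 : (((i + 1 : ℕ) : C) + 1) = ((i + 2 : ℕ) : C) := by push_cast; ring
      rw [h6]
      have h7 : Nat.Coprime (i + 2) p := by
        rw [Nat.coprime_comm, hp.out.coprime_iff_not_dvd]
        intro h
        have := Nat.le_of_dvd (by omega) h
        omega
      have h8 := (ZMod.isUnit_iff_coprime (i + 2) p).2 h7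
      have h9 := h8.map (ZMod.castHom (dvd_refl p) C)
      rwa [map_natCast] at h9
    exact (h5.mul_right_eq_zero).1 h4
  rw [h1, h2, h3]
  simp

end Jac

section Tensor

open TensorProduct

variable {k M N : Type*} [Field k] [AddCommGroup M] [Module k M] [AddCommGroup N] [Module k N]
variable (p : ℕ) [hp : Fact p.Prime] [CharP k p]

include hp in
lemma End_natCast_p (M : Type*) [AddCommGroup M] [Module k M] :
    ((p : ℕ) : Module.End k M) = 0 := by
  have h : ((p : ℕ) : Module.End k M) = algebraMap k (Module.End k M) (p : k) :=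
    (map_natCast _ _).symm
  rw [h, CharP.cast_eq_zero, map_zero]

include hp in
lemma add_pow_p_of_commute {M : Type*} [AddCommGroup M] [Module k M] {a b : Module.End k M}
    (h : Commute a b) : (a + b) ^ p = a ^ p + b ^ p := by
  obtain ⟨r, hr⟩ := h.exists_add_pow_prime_eq hp.out
  rw [hr, End_natCast_p (k := k) p M]
  simp

include hp in
lemma tensor_pow (a : Module.End k M) (b : Module.End k N) :
    ((a.rTensor N + b.lTensor M : Module.End k (M ⊗[k] N))) ^ p
      = (a ^ p).rTensor N + (b ^ p).lTensor M := by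
  rw [add_pow_p_of_commute p (k := k), LinearMap.rTensor_pow, LinearMap.lTensor_pow]
  show a.rTensor N * b.lTensor M = b.lTensor M * a.rTensor N
  rw [Module.End.mul_eq_comp, Module.End.mul_eq_comp, LinearMap.rTensor_comp_lTensor,
    LinearMap.lTensor_comp_rTensor]

end Tensor

section Jac2

open TensorProduct

variable {k C : Type*} [Field k] [CommRing C] [Algebra k C]
variable (δ : Derivation k C C) (f : C)
variable (p : ℕ) [hp : Fact p.Prime] [CharP k p]

include hp in
/-- twisted Leibniz rule for the `p`-th power -/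
lemma tw_pow_p_mul (x y : C) : (tw δ f ^ p) (x * y)
    = (tw δ f ^ p) x * y + x * (((δ : C →ₗ[k] C) : Module.End k C) ^ p) y := by
  set T : Module.End k (C ⊗[k] C) := (tw δ f).rTensor C + (δ : C →ₗ[k] C).lTensor C with hT
  have h1 : ∀ w, tw δ f (LinearMap.mul' k C w) = LinearMap.mul' k C (T w) := by
    intro w
    induction w using TensorProduct.induction_on with
    | zero => simp
    | tmul x y =>
      simp only [hT, LinearMap.add_apply, LinearMap.rTensor_tmul, LinearMap.lTensor_tmul,
        map_add, LinearMap.mul'_apply, tw_apply, Derivation.leibniz, smul_eq_mul,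
        Derivation.coeFn_coe]
      ring
    | add x y hx hy => simp only [map_add, hx, hy]
  have h2 : ∀ (n : ℕ) w, (tw δ f ^ n) (LinearMap.mul' k C w) = LinearMap.mul' k C ((T ^ n) w) := by
    intro n
    induction n with
    | zero => intro w; simp
    | succ n ih =>
      intro w
      rw [pow_succ, Module.End.mul_apply, h1, ih, pow_succ, Module.End.mul_apply]
  have h3 := h2 p (x ⊗ₜ y)
  rw [hT, tensor_pow] at h3
  simpa using h3

include hp in
/-- The Jacobson, Hochschild formula. -/
lemma tw_pow_p [CharP C p] :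
    tw δ f ^ p = ((δ : C →ₗ[k] C) : Module.End k C) ^ p
      + LinearMap.mulLeft k (δ^[p - 1] f + f ^ p) := by
  refine LinearMap.ext fun x => ?_
  have := tw_pow_p_mul δ f p 1 x
  rw [one_mul, one_mul, tw_pow_p_one] at this
  rw [this, LinearMap.add_apply, LinearMap.mulLeft_apply, add_comm]

/-- the `p`-th power of a derivation is a derivation -/
noncomputable def derPow : Derivation k C C :=
  Derivation.mk' ((((δ : C →ₗ[k] C) : Module.End k C) ^ p : Module.End k C)) (by
    intro a b
    have h := tw_pow_p_mul δ 0 p a b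
    have h0 : tw δ 0 = ((δ : C →ₗ[k] C) : Module.End k C) := by
      refine LinearMap.ext fun x => ?_
      simp
    rw [h0] at h
    rw [h]
    simp only [smul_eq_mul]
    ring)

lemma derPow_coe : ((derPow δ p : C →ₗ[k] C) : Module.End k C)
    = ((δ : C →ₗ[k] C) : Module.End k C) ^ p := rfl

lemma derPow_apply (x : C) : derPow δ p x = (((δ : C →ₗ[k] C) : Module.End k C) ^ p) x := rfl

end Jac2

end Pool.Agent.W_MP_e80488_al
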