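import Pool.Agent.W_MP_e80488_al.Frob

set_option autoImplicit false

/-!
# The truncated symmetric algebra of a commutative algebra
-/

namespace Pool.Agent.W_MP_e80488_al

open Finset MvPolynomial

section Phi

variable {k O : Type*} [Field k] [CommRing O] [Algebra k O] (p : ℕ) (ψ : O →ₗ[k] k)

/-- relations of `Phi`: linearity, `z 1 = ψ 1`, `(z f)^p = (ψ f)^p`. -/
noncomputable def PhiRels : Set (MvPolynomial O k) :=
  {x | ∃ f g : O, x = X (f + g) - X f - X g} ∪
    {x | ∃ (c : k) (f : O), x = X (c • f) - C c * X f} ∪ {X 1 - C (ψ 1)} ∪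
    {x | ∃ f : O, x = X f ^ p - C (ψ f ^ p)}

/-- the ideal of relations -/
noncomputable def PhiIdeal : Ideal (MvPolynomial O k) := Ideal.span (PhiRels p ψ)

/-- The algebra `Sym(O)` modulo `z 1 = ψ 1` and `(z f)^p = (ψ f)^p`. -/
def Phi : Type _ := MvPolynomial O k ⧸ PhiIdeal p ψ

noncomputable instance : CommRing (Phi p ψ) :=
  inferInstanceAs (CommRing (MvPolynomial O k ⧸ PhiIdeal p ψ))

noncomputable instance : Algebra k (Phi p ψ) :=
  inferInstanceAs (Algebra k (MvPolynomial O k ⧸ PhiIdeal p ψ))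

/-- projection -/
noncomputable def Phi.mk : MvPolynomial O k →ₐ[k] Phi p ψ := Ideal.Quotient.mkₐ k (PhiIdeal p ψ)

lemma Phi.smul_eq (c : k) (x : Phi p ψ) : c • x = algebraMap k (Phi p ψ) c * x :=
  Algebra.smul_def (R := k) (A := Phi p ψ) c x

lemma Phi.mk_surjective : Function.Surjective (Phi.mk p ψ) := Ideal.Quotient.mkₐ_surjective _ _

lemma Phi.mk_eq_zero {x : MvPolynomial O k} (h : x ∈ PhiRels p ψ) : Phi.mk p ψ x = 0 := by
  have : x ∈ PhiIdeal p ψ := Ideal.subset_span h
  exact Ideal.Quotient.eq_zero_iff_mem.2 this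

/-- the generators -/
noncomputable def Phi.z : O →ₗ[k] Phi p ψ where
  toFun f := Phi.mk p ψ (X f)
  map_add' f g := by
    have h := Phi.mk_eq_zero p ψ (x := X (f + g) - X f - X g) (Or.inl (Or.inl (Or.inl ⟨f, g, rfl⟩)))
    rw [map_sub, map_sub] at h
    have := sub_eq_zero.1 h
    rw [← this]
    ring
  map_smul' c f := by
    have h := Phi.mk_eq_zero p ψ (x := X (c • f) - C c * X f) (Or.inl (Or.inl (Or.inr ⟨c, f, rfl⟩)))
    rw [map_sub, sub_eq_zero] at h
    have h2 : Phi.mk p ψ (C c) = algebraMap k _ c := (Phi.mk p ψ).commutes c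
    rw [h, map_mul, RingHom.id_apply, h2]
    exact (Algebra.smul_def c _).symm

lemma Phi.z_apply (f : O) : Phi.z p ψ f = Phi.mk p ψ (X f) := rfl

@[simp] lemma Phi.z_one : Phi.z p ψ 1 = algebraMap k _ (ψ 1) := by
  have h := Phi.mk_eq_zero p ψ (x := X 1 - C (ψ 1)) (Or.inl (Or.inr rfl))
  rw [map_sub, sub_eq_zero] at h
  rw [Phi.z_apply, h]
  exact (Phi.mk p ψ).commutes _

lemma Phi.z_pow (f : O) : Phi.z p ψ f ^ p = algebraMap k _ (ψ f ^ p) := by
  have h := Phi.mk_eq_zero p ψ (x := X f ^ p - C (ψ f ^ p)) (Or.inr ⟨f, rfl⟩)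
  rw [map_sub, sub_eq_zero, map_pow] at h
  rw [Phi.z_apply, h]
  exact (Phi.mk p ψ).commutes _

lemma Phi.induction {P : Phi p ψ → Prop} (h0 : ∀ c, P (algebraMap k _ c))
    (hadd : ∀ x y, P x → P y → P (x + y)) (hmul : ∀ x f, P x → P (x * Phi.z p ψ f)) (x) : P x := by
  obtain ⟨y, rfl⟩ := Phi.mk_surjective p ψ x
  induction y using MvPolynomial.induction_on with
  | C a => exact (by simpa using h0 a : P (Phi.mk p ψ (algebraMap k _ a)))
  | add f g hf hg => rw [map_add]; exact hadd _ _ hf hg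
  | mul_X f i hf => rw [map_mul]; exact hmul _ _ hf

section Lift

variable {S : Type*} [CommRing S] [Algebra k S]

/-- the universal property -/
noncomputable def Phi.lift (φ : O →ₗ[k] S) (h1 : φ 1 = algebraMap k S (ψ 1))
    (h2 : ∀ f, φ f ^ p = algebraMap k S (ψ f ^ p)) : Phi p ψ →ₐ[k] S :=
  Ideal.Quotient.liftₐ _ (MvPolynomial.aeval (fun f : O => φ f)) (by
    intro a ha
    have hle : PhiIdeal p ψ ≤ RingHom.ker (MvPolynomial.aeval (fun f : O => φ f)) := by
      rw [PhiIdeal, Ideal.span_le]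
      rintro x (((⟨f, g, rfl⟩ | ⟨c, f, rfl⟩) | rfl) | ⟨f, rfl⟩)
      · simp
      · simp only [SetLike.mem_coe, RingHom.mem_ker, map_sub, map_mul, aeval_X, aeval_C, map_smul]
        rw [← Algebra.smul_def, sub_self]
      · simp [h1]
      · simp only [SetLike.mem_coe, RingHom.mem_ker, map_sub, map_pow, aeval_X, h2, aeval_C,
          sub_self]
    exact hle ha)

@[simp] lemma Phi.lift_z (φ : O →ₗ[k] S) (h1 : φ 1 = algebraMap k S (ψ 1))
    (h2 : ∀ f, φ f ^ p = algebraMap k S (ψ f ^ p)) (f : O) :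
    Phi.lift p ψ φ h1 h2 (Phi.z p ψ f) = φ f := by
  rw [Phi.z_apply]
  have : Phi.lift p ψ φ h1 h2 (Phi.mk p ψ (X f)) = MvPolynomial.aeval (fun f : O => φ f) (X f) :=
    rfl
  rw [this, aeval_X]

lemma Phi.algHom_ext {f g : Phi p ψ →ₐ[k] S} (h : ∀ x, f (Phi.z p ψ x) = g (Phi.z p ψ x)) :
    f = g := by
  refine AlgHom.ext fun x => ?_
  induction x using Phi.induction p ψ with
  | h0 c => simp only [AlgHom.commutes]
  | hadd x y hx hy => rw [map_add, map_add, hx, hy]
  | hmul x y hx => rw [map_mul, map_mul, hx, h]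

/-- intertwining of derivations along an algebra homomorphism -/
lemma Phi.intertwine (φ : Phi p ψ →ₐ[k] S) (δ : Derivation k (Phi p ψ) (Phi p ψ))
    (δ' : Derivation k S S) (h : ∀ f, φ (δ (Phi.z p ψ f)) = δ' (φ (Phi.z p ψ f))) (x : Phi p ψ) :
    φ (δ x) = δ' (φ x) := by
  induction x using Phi.induction p ψ with
  | h0 c => rw [δ.map_algebraMap, map_zero, AlgHom.commutes, δ'.map_algebraMap]
  | hadd x y hx hy => rw [map_add, map_add, map_add, map_add, hx, hy]
  | hmul x y hx =>
    rw [δ.leibniz, map_mul, δ'.leibniz, ← hx, ← h]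
    simp only [smul_eq_mul, map_add, map_mul]

end Lift

lemma Phi.der_ext {δ δ' : Derivation k (Phi p ψ) (Phi p ψ)}
    (h : ∀ f, δ (Phi.z p ψ f) = δ' (Phi.z p ψ f)) : δ = δ' := by
  refine Derivation.ext fun x => ?_
  exact Phi.intertwine p ψ (AlgHom.id k _) δ δ' (by simpa using h) x

variable [hp : Fact p.Prime] [CharP k p]

/-- The derivation of `MvPolynomial O k` induced by a linear operator. -/
noncomputable def Phi.derPre (E : O →ₗ[k] O) :
    Derivation k (MvPolynomial O k) (MvPolynomial O k) :=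
  MvPolynomial.mkDerivation k (fun f => X (E f))

lemma Phi.derPre_X (E : O →ₗ[k] O) (f : O) : Phi.derPre E (X f) = X (E f) := by
  simp [Phi.derPre]

include hp in
lemma Phi.derPre_mem (E : O →ₗ[k] O) (hE : E 1 = 0) (x : MvPolynomial O k)
    (hx : Phi.mk p ψ x = 0) : Phi.mk p ψ (Phi.derPre E x) = 0 := by
  have hx' : x ∈ PhiIdeal p ψ := Ideal.Quotient.eq_zero_iff_mem.1 hx
  rw [PhiIdeal] at hx'
  clear hx
  induction hx' using Submodule.span_induction with
  | mem x h =>
    rcases h with (((⟨f, g, rfl⟩ | ⟨c, f, rfl⟩) | rfl) | ⟨f, rfl⟩)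
    · simp only [map_sub, Phi.derPre_X, map_add, ← Phi.z_apply]
      ring
    · rw [map_sub, Derivation.leibniz, Phi.derPre_X, Phi.derPre_X]
      have h1 : Phi.derPre E (C c) = 0 := (Phi.derPre E).map_algebraMap c
      rw [h1]
      have h2 : Phi.mk p ψ (C c) = algebraMap k _ c := (Phi.mk p ψ).commutes c
      rw [map_smul, smul_zero, add_zero, smul_eq_mul, map_sub, map_mul, ← Phi.z_apply,
        ← Phi.z_apply, map_smul, h2, sub_eq_zero]
      exact Algebra.smul_def c (Phi.z p ψ (E f))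
    · have h1 : Phi.derPre E (C (ψ 1)) = 0 := (Phi.derPre E).map_algebraMap _
      rw [map_sub, h1, Phi.derPre_X, hE, sub_zero, ← Phi.z_apply, map_zero]
    · have h1 : Phi.derPre E (C (ψ f ^ p)) = 0 := (Phi.derPre E).map_algebraMap _
      rw [map_sub, h1, Derivation.leibniz_pow, sub_zero]
      have h2 : (p : MvPolynomial O k) = 0 := by
        have : (p : MvPolynomial O k) = C (p : k) := by simp
        rw [this, CharP.cast_eq_zero, map_zero]
      rw [nsmul_eq_mul, h2, zero_mul, map_zero]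
  | zero => simp
  | add x y hx hy h1 h2 =>
    rw [map_add, map_add, h1, h2, add_zero]
  | smul a x hx h1 =>
    have h3 : Phi.mk p ψ x = 0 := Ideal.Quotient.eq_zero_iff_mem.2 hx
    rw [smul_eq_mul, Derivation.leibniz, map_add, smul_eq_mul, smul_eq_mul, map_mul, map_mul, h3,
      h1]
    simp

/-- The derivation of `Phi` induced by a linear operator killing `1`. -/
noncomputable def Phi.der (E : O →ₗ[k] O) (hE : E 1 = 0) :
    Derivation k (Phi p ψ) (Phi p ψ) :=
  Derivation.liftOfSurjective (Phi.mk_surjective p ψ) (Phi.derPre_mem p ψ E hE)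

@[simp] lemma Phi.der_z (E : O →ₗ[k] O) (hE : E 1 = 0) (f : O) :
    Phi.der p ψ E hE (Phi.z p ψ f) = Phi.z p ψ (E f) := by
  rw [Phi.z_apply, Phi.der, Derivation.liftOfSurjective_apply, Phi.derPre_X, Phi.z_apply]

/-- The action of derivations of `O` on `Phi` by derivations. -/
noncomputable def Phi.dstar : Derivation k O O →ₗ⁅k⁆ Derivation k (Phi p ψ) (Phi p ψ) where
  toFun D := Phi.der p ψ D D.map_one_eq_zero
  map_add' D E := Phi.der_ext p ψ fun f => by
    rw [Derivation.add_apply, Phi.der_z, Phi.der_z, Phi.der_z, ← map_add]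
    rfl
  map_smul' c D := Phi.der_ext p ψ fun f => by
    rw [RingHom.id_apply, Derivation.smul_apply, Phi.der_z, Phi.der_z, ← map_smul]
    rfl
  map_lie' := by
    intro D E
    refine Phi.der_ext p ψ fun f => ?_
    rw [Derivation.commutator_apply]
    simp only [Phi.der_z]
    rw [← map_sub]
    rfl

@[simp] lemma Phi.dstar_z (D : Derivation k O O) (f : O) :
    Phi.dstar p ψ D (Phi.z p ψ f) = Phi.z p ψ (D f) := Phi.der_z p ψ D D.map_one_eq_zero f

lemma Phi.dstar_derPow (D : Derivation k O O) :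
    Phi.dstar p ψ (derPow D p) = derPow (Phi.dstar p ψ D) p := by
  refine Phi.der_ext p ψ fun f => ?_
  rw [Phi.dstar_z, derPow_apply, derPow_apply]
  have h : ∀ n : ℕ, ∀ f, ((((Phi.dstar p ψ D : Phi p ψ →ₗ[k] Phi p ψ)) : Module.End k _) ^ n)
      (Phi.z p ψ f) = Phi.z p ψ ((((D : O →ₗ[k] O) : Module.End k O) ^ n) f) := by
    intro n
    induction n with
    | zero => intro f; simp
    | succ n ih =>
      intro f
      rw [pow_succ, Module.End.mul_apply, pow_succ, Module.End.mul_apply, Derivation.coeFn_coe,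
        Phi.dstar_z, ih]
      rfl
  rw [h]

lemma Phi.dstar_iterate_z (D : Derivation k O O) (n : ℕ) (f : O) :
    (Phi.dstar p ψ D)^[n] (Phi.z p ψ f) = Phi.z p ψ (D^[n] f) := by
  induction n generalizing f with
  | zero => simp
  | succ n ih => rw [Function.iterate_succ_apply, Phi.dstar_z, ih, ← Function.iterate_succ_apply]

omit [CharP k p] in
include hp in
lemma Phi.finite [Module.Finite k O] : Module.Finite k (Phi p ψ) := by
  classical
  obtain ⟨s, hs⟩ : (⊤ : Submodule k O).FG := Module.Finite.fg_top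
  have h1 : (Algebra.adjoin k ((Phi.z p ψ) '' (s : Set O))).toSubmodule.FG := by
    refine fg_adjoin_of_finite (s.finite_toSet.image _) ?_
    rintro _ ⟨f, _, rfl⟩
    refine ⟨Polynomial.X ^ p - Polynomial.C (ψ f ^ p),
      Polynomial.monic_X_pow_sub_C _ hp.out.ne_zero, ?_⟩
    simp only [Polynomial.eval₂_sub, Polynomial.eval₂_pow, Polynomial.eval₂_X,
      Polynomial.eval₂_C, Phi.z_pow, sub_self]
  have h2 : Algebra.adjoin k ((Phi.z p ψ) '' (s : Set O)) = ⊤ := by
    rw [eq_top_iff]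
    rintro x -
    have hz : ∀ f, Phi.z p ψ f ∈ Algebra.adjoin k ((Phi.z p ψ) '' (s : Set O)) := by
      intro f
      have hf : f ∈ Submodule.span k (s : Set O) := by rw [hs]; trivial
      have : Phi.z p ψ f ∈ Submodule.span k ((Phi.z p ψ) '' (s : Set O)) := by
        rw [Submodule.span_image]
        exact ⟨f, hf, rfl⟩
      exact (Submodule.span_le.2 Algebra.subset_adjoin :
        Submodule.span k ((Phi.z p ψ) '' (s : Set O)) ≤
          Subalgebra.toSubmodule (Algebra.adjoin k ((Phi.z p ψ) '' (s : Set O)))) this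
    induction x using Phi.induction p ψ with
    | h0 c => exact Subalgebra.algebraMap_mem _ c
    | hadd x y hx hy => exact Subalgebra.add_mem _ hx hy
    | hmul x y hx => exact Subalgebra.mul_mem _ hx (hz y)
  rw [h2] at h1
  exact ⟨by simpa using h1⟩

end Phi

end Pool.Agent.W_MP_e80488_al
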