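import Pool.Agent.W_MP_e80488_al.Rep

set_option autoImplicit false

/-!
# Functoriality of `Phi` and of the tensor representations
-/

namespace Pool.Agent.W_MP_e80488_al

open Finset TensorProduct

attribute [local instance 100] LieRing.ofAssociativeRing

section PhiMap

variable {k O O' : Type*} [Field k] [CommRing O] [Algebra k O] [CommRing O'] [Algebra k O']
variable (p : ℕ) (ψ : O →ₗ[k] k) (ψ' : O' →ₗ[k] k)

/-- functoriality of `Phi` -/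
noncomputable def PhiMap (φ : O →ₐ[k] O') (h : ∀ f, ψ' (φ f) = ψ f) : Phi p ψ →ₐ[k] Phi p ψ' :=
  Phi.lift p ψ (Phi.z p ψ' ∘ₗ φ.toLinearMap)
    (by
      have h1 := h 1
      rw [map_one] at h1
      simp [h1])
    (by
      intro f
      have h1 := Phi.z_pow p ψ' (φ f)
      rw [h] at h1
      exact h1)

@[simp] lemma PhiMap_z (φ : O →ₐ[k] O') (h : ∀ f, ψ' (φ f) = ψ f) (f : O) :
    PhiMap p ψ ψ' φ h (Phi.z p ψ f) = Phi.z p ψ' (φ f) := Phi.lift_z _ _ _ _ _ _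

variable [hp : Fact p.Prime] [CharP k p]

lemma PhiMap_dstar (φ : O →ₐ[k] O') (h : ∀ f, ψ' (φ f) = ψ f) (D : Derivation k O O)
    (D' : Derivation k O' O') (hD : ∀ f, φ (D f) = D' (φ f)) (x : Phi p ψ) :
    PhiMap p ψ ψ' φ h (Phi.dstar p ψ D x) = Phi.dstar p ψ' D' (PhiMap p ψ ψ' φ h x) := by
  refine Phi.intertwine p ψ _ _ _ (fun f => ?_) x
  rw [Phi.dstar_z, PhiMap_z, PhiMap_z, Phi.dstar_z, hD]

/-- The operator `(D_* + z_b) ⊗ 1 + 1 ⊗ D`. -/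
noncomputable def rhoG (D : Derivation k O O) (b : O) : Module.End k (Phi p ψ ⊗[k] O) :=
  (tw (Phi.dstar p ψ D) (Phi.z p ψ b)).rTensor O + (D : O →ₗ[k] O).lTensor (Phi p ψ)

lemma rhoG_tmul (D : Derivation k O O) (b : O) (x : Phi p ψ) (f : O) :
    rhoG p ψ D b (x ⊗ₜ f) = (Phi.dstar p ψ D x + Phi.z p ψ b * x) ⊗ₜ f + x ⊗ₜ D f := by
  simp [rhoG, tw_apply]

lemma rho_eq_rhoG {ι : Type*} [Fintype ι] (F : Frob k O ι) (D : Derivation k O O) :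
    rho F p ψ D = rhoG p ψ D (F.div D) := rfl

/-- The map `Phi ⊗ O → Phi' ⊗ O'`. -/
noncomputable def tmap (φ : O →ₐ[k] O') (h : ∀ f, ψ' (φ f) = ψ f) :
    Phi p ψ ⊗[k] O →ₗ[k] Phi p ψ' ⊗[k] O' :=
  TensorProduct.map (PhiMap p ψ ψ' φ h).toLinearMap φ.toLinearMap

omit hp [CharP k p] in
lemma tmap_tmul (φ : O →ₐ[k] O') (h : ∀ f, ψ' (φ f) = ψ f) (x : Phi p ψ) (f : O) :
    tmap p ψ ψ' φ h (x ⊗ₜ f) = PhiMap p ψ ψ' φ h x ⊗ₜ φ f := rfl

lemma tmap_rhoG (φ : O →ₐ[k] O') (h : ∀ f, ψ' (φ f) = ψ f) (D : Derivation k O O)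
    (D' : Derivation k O' O') (hD : ∀ f, φ (D f) = D' (φ f)) (b : O) (w : Phi p ψ ⊗[k] O) :
    tmap p ψ ψ' φ h (rhoG p ψ D b w) = rhoG p ψ' D' (φ b) (tmap p ψ ψ' φ h w) := by
  induction w using TensorProduct.induction_on with
  | zero => simp only [map_zero]
  | add x y hx hy => simp only [map_add, hx, hy]
  | tmul x f =>
    rw [rhoG_tmul, tmap_tmul, rhoG_tmul, map_add, tmap_tmul, tmap_tmul, map_add, map_mul,
      PhiMap_z, PhiMap_dstar p ψ ψ' φ h D D' hD, hD]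

end PhiMap

end Pool.Agent.W_MP_e80488_al
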