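import Pool.Agent.W_MP_e80488_al.Act

set_option autoImplicit false

/-!
# Construction of the simple modules
-/

namespace Pool.Agent.W_MP_e80488_al

open Finset TensorProduct

attribute [local instance 100] LieRing.ofAssociativeRing

section Minimal

/-- A minimal nonzero stable subspace. -/
lemma exists_minimal_stable {k E : Type*} [Field k] [AddCommGroup E] [Module k E]
    [Module.Finite k E] (P : Submodule k E → Prop) (T : Submodule k E) (hT : T ≠ ⊥) (hP : P T) :
    ∃ S ≤ T, S ≠ ⊥ ∧ P S ∧ ∀ S' ≤ S, S' ≠ ⊥ → P S' → S' = S := by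
  have hwf : WellFounded ((· < ·) : Submodule k E → Submodule k E → Prop) := wellFounded_lt
  obtain ⟨S, ⟨hS1, hS2, hS3⟩, hS4⟩ := hwf.has_min {S | S ≤ T ∧ S ≠ ⊥ ∧ P S} ⟨T, le_rfl, hT, hP⟩
  refine ⟨S, hS1, hS2, hS3, fun S' h1 h2 h3 => ?_⟩
  by_contra hne
  exact hS4 S' ⟨h1.trans hS1, h2, h3⟩ (lt_of_le_of_ne h1 hne)

end Minimal

section Main

universe u

variable {k : Type u} [Field k] {p M : ℕ} [hp : Fact p.Prime] [CharP k p]

lemma gen_one_mem_span (b : DP k p (mB M)) :
    gen (iO b) 1 ∈ Submodule.span k (g0S k p M) := by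
  induction b using DP.induction with
  | h0 => rw [map_zero, gen_zero]; exact Submodule.zero_mem _
  | hadd f g hf hg => rw [map_add, gen_add]; exact Submodule.add_mem _ hf hg
  | hsmul t a =>
    rw [map_smul, gen_smul]
    refine Submodule.smul_mem _ _ (Submodule.subset_span (Or.inr ⟨a 0, ?_⟩))
    rw [iO_mono]

lemma gen_zero_mem_span (b : DP k p (mB M)) :
    gen (mo k p M 1 0 * iO b) 0 ∈ Submodule.span k (g0S k p M) := by
  induction b using DP.induction with
  | h0 => rw [map_zero, mul_zero, gen_zero]; exact Submodule.zero_mem _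
  | hadd f g hf hg => rw [map_add, mul_add, gen_add]; exact Submodule.add_mem _ hf hg
  | hsmul t a =>
    rw [map_smul, mul_smul_comm, gen_smul]
    refine Submodule.smul_mem _ _ (Submodule.subset_span (Or.inl ⟨a 0, ?_⟩))
    rw [mo_one_eq (a 0 : ℕ), iO_mono, iO_mono]

/-- For every `c` with `c ^ p = c` there are simple modules with lowest eigenvalues `(c, ζ)`. -/
theorem exists_simple (hM : M ≠ 0) (hp2 : p ≠ 2) {c : k} (hc : c ^ p = c) :
    ∃ Zc : AA k p M, ∀ ζ : k, ζ ^ (p ^ M) = - (c * ζ) →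
      ∃ (V : Type u) (_ : AddCommGroup V) (_ : Module k V) (_ : Module (AA k p M) V)
        (_ : IsScalarTower k (AA k p M) V),
        IsSimpleModule (AA k p M) V ∧ Module.Finite k V ∧
        (∃ v : V, v ≠ 0 ∧ ∀ g ∈ gmS k p M, g • v = 0) ∧
        ∀ v : V, (∀ g ∈ gmS k p M, g • v = 0) →
          gen (mo k p M 1 0) 0 • v = c • v ∧ Zc • v = ζ • v := by
  classical
  set F := frobDP (k := k) (p := p) (m := mB M) with hF
  have hfinB : Module.Finite k (Phi p (psiB k p M c)) := Phi.finite p _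
  have hfinO : Module.Finite k (Phi p (psiO k p M c)) := Phi.finite p _
  -- the inverse of `h`
  have hpow : hEl F p (psiB k p M c) ^ p = 1 :=
    hEl_pow F p (psiB k p M c) eps DP.pow_p (sum_psi_eps hM hp2 c)
  obtain ⟨r, hr⟩ : ∃ r, p = r + 1 := ⟨p - 1, by have := hp.out.pos; omega⟩
  obtain ⟨g, hg⟩ : ∃ g, hEl F p (psiB k p M c) * g = 1 :=
    ⟨hEl F p (psiB k p M c) ^ (p - 1), by
      rw [← pow_succ', show p - 1 + 1 = p by omega, hpow]⟩
  obtain ⟨Zc, hZc⟩ := exists_Z hM hc hg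
  refine ⟨Zc, fun ζ hζ => ?_⟩
  -- the module structure
  let modF : Module (AA k p M) (FO k p M c) := Module.compHom _ (actO hM hc).toRingHom
  have hsm : ∀ (a : AA k p M) (w : FO k p M c), a • w = actO hM hc a w := fun a w => rfl
  have tower : IsScalarTower k (AA k p M) (FO k p M c) := ⟨fun t a w => by
    rw [hsm, hsm, map_smul, LinearMap.smul_apply]⟩
  -- stable subspaces of `E`
  let Stab : Submodule k (EB k p M c) → Prop := fun T =>
    ∀ (b b' : DP k p (mB M)), ∀ t ∈ T, rhoG p (psiB k p M c) (b • pdD 0) b' t ∈ T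
  let Z0 : Submodule k (EB k p M c) :=
    LinearMap.ker (Zop p (psiB k p M c) (pdD 0) g - ζ • LinearMap.id)
  have hZ0 : ∀ w, w ∈ Z0 ↔ Zop p (psiB k p M c) (pdD 0) g w = ζ • w := fun w => by
    rw [LinearMap.mem_ker, LinearMap.sub_apply, LinearMap.smul_apply, LinearMap.id_apply,
      sub_eq_zero]
  have hZ0ne : Z0 ≠ ⊥ := by
    obtain ⟨u, hu, hu'⟩ := exists_eigen p (psiB k p M c) F (pdD 0) hg ζ (eigV k p M ζ)
      (eigV_ne ζ) (eigV_eq hM hp2 c ζ hζ)
    exact Submodule.ne_bot_iff _ |>.2 ⟨u, (hZ0 u).2 hu', hu⟩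
  have hZ0st : Stab Z0 := by
    intro b b' t ht
    rw [hZ0] at ht ⊢
    rw [Zop_comm F p (psiB k p M c) (pdD 0) (lam_pd 0) hg, ht, map_smul]
  obtain ⟨SE, hSE1, hSE2, hSE3, hSE4⟩ := exists_minimal_stable Stab Z0 hZ0ne hZ0st
  set S : Submodule k (FO k p M c) := SE.map (iF c) with hS
  set Fp : Submodule k (FO k p M c) := LinearMap.ker (pF c) with hFp
  -- the hypotheses of the lowest weight theory
  have hLW : LWHyp (gmS k p M) (g0S k p M) (gpS k p M) S Fp := by
    refine ⟨?_, ?_, ?_, ?_, ?_, ?_, ?_⟩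
    · rintro _ ⟨b, rfl⟩ _ ⟨w, hw, rfl⟩
      simp only
      rw [hsm, mo_zero_eq, act_X0]
    · rintro g' hg' _ ⟨w, hw, rfl⟩
      rw [hsm]
      rcases hg' with ⟨b, rfl⟩ | ⟨b, rfl⟩
      · rw [mo_one_eq, act_X1]
        refine Submodule.mem_map_of_mem ?_
        have := hSE3 0 (mono k p (mB M) (fun _ => b)) w hw
        rwa [zero_smul] at this
      · rw [mo_zero_eq, act_Y0]
        exact Submodule.mem_map_of_mem (hSE3 _ _ w hw)
    · rintro g' hg' w hw
      rw [hsm, hFp, LinearMap.mem_ker]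
      exact pF_gp hM hc hg' w
    · rintro g' hg' w hw
      rw [hFp, LinearMap.mem_ker] at hw
      rw [hsm, hFp, LinearMap.mem_ker]
      rcases hg' with hg' | hg'
      · exact pF_g0 hM hc hg' w hw
      · exact pF_gp hM hc hg' w
    · rintro _ ⟨w, hw, rfl⟩ h
      rw [hFp, LinearMap.mem_ker, pF_iF] at h
      rw [h, map_zero]
    · rw [hS]
      intro h
      apply hSE2
      rw [eq_bot_iff]
      intro w hw
      have h1 : iF c w ∈ SE.map (iF c) := Submodule.mem_map_of_mem hw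
      rw [h, Submodule.mem_bot] at h1
      rw [Submodule.mem_bot]
      exact iF_injective c (by rw [h1, map_zero])
    · rintro T hT _ ⟨w, hw, rfl⟩ hw0 hwT
      have hT0 : ∀ a ∈ Submodule.span k (g0S k p M), ∀ t ∈ T, a • t ∈ T := fun a ha t ht =>
        smul_mem_of_span (fun g' hg' => hT g' hg' t ht) ha
      have h1 : SE ⊓ T.comap (iF c) = SE := by
        refine hSE4 _ inf_le_left ?_ ?_
        · refine Submodule.ne_bot_iff _ |>.2 ⟨w, ⟨hw, hwT⟩, ?_⟩
          rintro rfl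
          exact hw0 (map_zero _)
        · rintro b b' t ⟨ht1, ht2⟩
          refine ⟨hSE3 b b' t ht1, ?_⟩
          have h2 : iF c (rhoG p (psiB k p M c) (b • pdD 0) b' t)
              = gen (iO b) 1 • iF c t + gen (mo k p M 1 0 * iO (b' - pdD 0 b)) 0 • iF c t := by
            rw [hsm, hsm, act_Y0, act_X1, ← map_add, ← LinearMap.add_apply, ← rhoG_add,
              add_zero, add_sub_cancel]
          show iF c (rhoG p (psiB k p M c) (b • pdD 0) b' t) ∈ T
          rw [h2]
          exact T.add_mem (hT0 _ (gen_one_mem_span b) _ ht2) (hT0 _ (gen_zero_mem_span _) _ ht2)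
      rintro _ ⟨w', hw', rfl⟩
      rw [← h1] at hw'
      exact hw'.2
  obtain ⟨V, i1, i2, i3, i4, h1, h2, h3, h4⟩ := LW_main (genHyp (k := k) (p := p) (M := M)) hLW
  refine ⟨V, i1, i2, i3, i4, h1, h2, h3, fun v hv => ⟨h4 _ _ ?_ v hv, h4 _ _ ?_ v hv⟩⟩
  · rintro _ ⟨w, hw, rfl⟩
    have h1 := act_X1 hM hc 1 w
    rw [map_one, mul_one] at h1
    rw [hsm, h1, ← map_smul]
    congr 1
    rw [rhoG_eq, Phi.z_one, psiB_one hM]
    have h3 : rhoG p (psiB k p M c) 0 0 = 0 := by
      refine TensorProduct.ext' fun r f => ?_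
      rw [rhoG_tmul]
      simp
    rw [h3, LinearMap.zero_apply, zero_add, ← Algebra.TensorProduct.algebraMap_apply]
    exact (Algebra.smul_def c w).symm
  · rintro _ ⟨w, hw, rfl⟩
    rw [hsm, hZc, ← map_smul, (hZ0 w).1 (hSE1 hw)]

end Main

end Pool.Agent.W_MP_e80488_al
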