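import Pool.Agent.W_MP_e80488_al.Gens

set_option autoImplicit false

/-!
# The maximal toral rank of `W(2;(1,1))` is `2`
-/

namespace Pool.Agent.W_MP_e80488_al

open Finset

attribute [local instance 100] LieRing.ofAssociativeRing

section Semisimple

variable {k V : Type*} [Field k] [IsAlgClosed k] [AddCommGroup V] [Module k V]
  [FiniteDimensional k V] {p : ℕ} [hp : Fact p.Prime] [CharP k p]

omit [IsAlgClosed k] [FiniteDimensional k V] in
lemma add_pow_pp {a b : Module.End k V} (h : Commute a b) (N : ℕ) :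
    (a + b) ^ (p ^ N) = a ^ (p ^ N) + b ^ (p ^ N) := by
  induction N with
  | zero => simp
  | succ N ih =>
    rw [pow_succ, pow_mul, ih, add_pow_p_of_commute p (h.pow_pow _ _), ← pow_mul, ← pow_mul]

lemma semisimple_of_roots {x : Module.End k V} (h : ∀ N : ℕ, ∃ y, y ^ (p ^ N) = x) :
    x.IsSemisimple := by
  obtain ⟨y, rfl⟩ := h (Module.finrank k V)
  obtain ⟨n, hn, s, hs, hnil, hss, hy⟩ := Module.End.exists_isNilpotent_isSemisimple (f := y)
  have hcomm : Commute n s := (Algebra.commute_of_mem_adjoin_singleton_of_commute hn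
    (Algebra.commute_of_mem_adjoin_self hs).symm).symm
  have h1 : n ^ (p ^ Module.finrank k V) = 0 := by
    have h2 : n ^ Module.finrank k V = 0 := by
      have h3 := LinearMap.aeval_self_charpoly n
      rw [IsNilpotent.charpoly_eq_X_pow_finrank hnil] at h3
      simpa using h3
    exact pow_eq_zero_of_le (Nat.lt_pow_self hp.out.one_lt).le h2
  rw [hy, add_pow_pp hcomm, h1, zero_add]
  exact hss.pow _

omit hp [CharP k p] [IsAlgClosed k] in
lemma mulLeft_semisimple {x : Module.End k V} (hx : x.IsSemisimple) :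
    Module.End.IsSemisimple (LinearMap.mulLeft k x) := by
  refine Module.End.isSemisimple_of_squarefree_aeval_eq_zero hx.minpoly_squarefree ?_
  have h : LinearMap.mulLeft k x = Algebra.lmul k (Module.End k V) x := rfl
  rw [h, Polynomial.aeval_algHom_apply, minpoly.aeval, map_zero]

omit hp [CharP k p] [IsAlgClosed k] in
lemma mulRight_semisimple {x : Module.End k V} (hx : x.IsSemisimple) :
    Module.End.IsSemisimple (LinearMap.mulRight k x) := by
  refine Module.End.isSemisimple_of_squarefree_aeval_eq_zero hx.minpoly_squarefree ?_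
  have h : ∀ P : Polynomial k, Polynomial.aeval (LinearMap.mulRight k x) P
      = LinearMap.mulRight k (Polynomial.aeval x P) := by
    intro P
    induction P using Polynomial.induction_on' with
    | add P Q h1 h2 =>
      rw [map_add, h1, h2, map_add]
      refine LinearMap.ext fun y => ?_
      simp [mul_add]
    | monomial n a =>
      rw [Polynomial.aeval_monomial, Polynomial.aeval_monomial, LinearMap.pow_mulRight]
      refine LinearMap.ext fun y => ?_
      rw [Module.End.mul_apply, LinearMap.mulRight_apply, LinearMap.mulRight_apply,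
        Module.algebraMap_end_apply, ← Algebra.smul_def, mul_smul_comm]
  rw [h, minpoly.aeval, LinearMap.mulRight_zero_eq_zero]

/-- `ad x` on all operators -/
noncomputable def adS (x : Module.End k V) : Module.End k (Module.End k V) :=
  LinearMap.mulLeft k x - LinearMap.mulRight k x

omit [IsAlgClosed k] [FiniteDimensional k V] in
lemma adS_apply (x y : Module.End k V) : adS x y = x * y - y * x := rfl

lemma adS_semisimple {x : Module.End k V} (hx : x.IsSemisimple) : (adS x).IsSemisimple :=
  Module.End.IsSemisimple.sub_of_commute (LinearMap.commute_mulLeft_right x x)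
    (mulLeft_semisimple hx) (mulRight_semisimple hx)

omit [IsAlgClosed k] [FiniteDimensional k V] in
lemma ker_sq {A : Module.End k V} (hA : A.IsSemisimple) {u : V} (h : A (A u) = 0) : A u = 0 := by
  have h1 : u ∈ A.genEigenspace 0 ((2 : ℕ) : ℕ∞) := by
    rw [Module.End.mem_genEigenspace_nat]
    simp [pow_two, h]
  rw [hA.isFinitelySemisimple.genEigenspace_eq_eigenspace 0 (by norm_num)] at h1
  simpa using Module.End.mem_eigenspace_iff.1 h1

lemma torus_comm (t : LieSubalgebra k (Module.End k V)) (hss : ∀ x ∈ t, x.IsSemisimple)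
    {x y : Module.End k V} (hx : x ∈ t) (hy : y ∈ t) : x * y = y * x := by
  have hstab : ∀ z ∈ t.toSubmodule, adS x z ∈ t.toSubmodule := fun z hz => by
    have := t.lie_mem hx hz
    rwa [Ring.lie_def] at this
  set B : Module.End k t.toSubmodule := (adS x).restrict hstab with hB
  have hBss : B.IsSemisimple := (adS_semisimple (hss x hx)).restrict hstab
  have hB0 : B = 0 := by
    rw [hBss.eq_zero_iff_forall_eigenvalue]
    intro μ hμ
    obtain ⟨z, hz⟩ := hμ.exists_hasEigenvector
    have h1 : adS x (z : Module.End k V) = μ • (z : Module.End k V) := by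
      have := congrArg Subtype.val hz.apply_eq_smul
      exact this
    have hz0 : (z : Module.End k V) ≠ 0 := fun h => hz.2 (Subtype.ext h)
    have h2 : adS (z : Module.End k V) x = - (μ • (z : Module.End k V)) := by
      rw [← h1, adS_apply, adS_apply]
      abel
    have h3 : adS (z : Module.End k V) (adS (z : Module.End k V) x) = 0 := by
      rw [h2, map_neg, map_smul, adS_apply, sub_self, smul_zero, neg_zero]
    have h4 := ker_sq (adS_semisimple (hss z z.2)) h3
    rw [h2, neg_eq_zero] at h4
    rcases smul_eq_zero.1 h4 with h5 | h5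
    · exact h5
    · exact absurd h5 hz0
  have h1 : (B ⟨y, hy⟩ : Module.End k V) = 0 := by
    rw [hB0]
    rfl
  have h2 : adS x y = 0 := h1
  rwa [adS_apply, sub_eq_zero] at h2

lemma exists_eig (t : LieSubalgebra k (Module.End k V)) (hss : ∀ x ∈ t, x.IsSemisimple)
    {φ : V →ₗ[k] k} (hφ : φ ≠ 0) :
    ∃ u : V, φ u ≠ 0 ∧ ∀ x ∈ t, x u ∈ Submodule.span k {u} := by
  have h1 := Module.End.iSup_iInf_maxGenEigenspace_eq_top_of_iSup_maxGenEigenspace_eq_top_of_commute
    (fun x : t => (x : Module.End k V)) (fun x y _ => torus_comm t hss x.2 y.2)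
    (fun x => Module.End.iSup_maxGenEigenspace_eq_top _)
  by_contra hcon
  push Not at hcon
  apply hφ
  have h2 : (⊤ : Submodule k V) ≤ LinearMap.ker φ := by
    rw [← h1, iSup_le_iff]
    intro χ u hu
    rw [LinearMap.mem_ker]
    by_contra hu0
    obtain ⟨x, hx, hx'⟩ := hcon u hu0
    apply hx'
    rw [Submodule.mem_iInf] at hu
    have h3 := hu ⟨x, hx⟩
    rw [(hss x hx).isFinitelySemisimple.maxGenEigenspace_eq_eigenspace,
      Module.End.mem_eigenspace_iff] at h3
    rw [Submodule.mem_span_singleton]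
    exact ⟨_, h3.symm⟩
  exact LinearMap.ker_eq_top.1 (top_le_iff.1 h2)

end Semisimple

section Rank

variable {k : Type*} [Field k] {p M : ℕ} [hp : Fact p.Prime] [CharP k p]

omit [CharP k p] in
lemma eps_mul (f g : DP k p (mO M)) : eps (f * g) = eps f * eps g := by
  induction f using DP.induction with
  | h0 => simp
  | hadd f f' hf hf' => rw [add_mul, map_add, hf, hf', map_add, add_mul]
  | hsmul c a =>
    induction g using DP.induction with
    | h0 => simp
    | hadd f f' hf hf' => rw [mul_add, map_add, hf, hf', map_add, mul_add]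
    | hsmul d b =>
      rw [smul_mul_smul_comm, map_smul, map_smul, map_smul, mono_mul_mono, map_smul, eps_mono,
        eps_mono, eps_mono]
      simp only [smul_eq_mul]
      by_cases ha : (fun i => (a i : ℕ)) = 0
      · by_cases hb : (fun i => (b i : ℕ)) = 0
        · have ha' : ∀ i, (a i : ℕ) = 0 := fun i => congrFun ha i
          have hb' : ∀ i, (b i : ℕ) = 0 := fun i => congrFun hb i
          rw [if_pos ha, if_pos hb, if_pos]
          · simp [cc, ha', hb']
          · funext i
            simp [ha', hb']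
        · rw [if_neg hb, if_neg]
          · ring
          · intro h
            apply hb
            funext i
            have h1 : (a i : ℕ) + b i = 0 := congrFun h i
            show (b i : ℕ) = 0
            omega
      · rw [if_neg ha, if_neg]
        · ring
        · intro h
          apply ha
          funext i
          have h1 : (a i : ℕ) + b i = 0 := congrFun h i
          show (a i : ℕ) = 0
          omega

lemma eq_zero_of_unit {f g : DP k p (mO M)} (h : f * g = 0) (hf : eps f ≠ 0) : g = 0 := by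
  have h1 : f ^ p * g = 0 := by
    have hp1 : f ^ p = f ^ (p - 1) * f := by
      rw [← pow_succ, Nat.sub_add_cancel hp.out.one_le]
    rw [hp1, mul_assoc, h, mul_zero]
  rw [DP.pow_p, ← Algebra.smul_def] at h1
  rcases smul_eq_zero.1 h1 with h2 | h2
  · exact absurd h2 (pow_ne_zero _ hf)
  · exact h2

omit hp [CharP k p] in
lemma W_two {D : Module.End k (DP k p (mO M))} (hD : D ∈ W k p (mO M)) :
    ∃ f g : DP k p (mO M), D = fpd f 0 + fpd g 1 := by
  rw [W_eq_span] at hD
  induction hD using Submodule.span_induction with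
  | zero => exact ⟨0, 0, by rw [fpd_zero, fpd_zero, add_zero]⟩
  | add x y _ _ h1 h2 =>
    obtain ⟨f, g, rfl⟩ := h1
    obtain ⟨f', g', rfl⟩ := h2
    exact ⟨f + f', g + g', by rw [fpd_add, fpd_add]; abel⟩
  | smul c x _ h1 =>
    obtain ⟨f, g, rfl⟩ := h1
    exact ⟨c • f, c • g, by rw [fpd_smul, fpd_smul, smul_add]⟩
  | mem x hx =>
    obtain ⟨f, i, rfl⟩ := hx
    fin_cases i
    · exact ⟨f, 0, by rw [fpd_zero, add_zero]; rfl⟩
    · exact ⟨0, f, by rw [fpd_zero, zero_add]; rfl⟩

omit [CharP k p] in
lemma pd_x : pd k p (mO M) 0 (mono k p (mO M) ![1, 0]) = 1 := by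
  rw [pd_mono_of_pos 0 (by simp)]
  · rw [DP.one_def]
    congr 1
    funext j
    fin_cases j <;> rfl
  · intro j
    fin_cases j
    · show 1 < p ^ (mO M 0)
      simpa using hp.out.one_lt
    · exact pow_pos hp.out.pos _

omit [CharP k p] in
lemma pd_y (hM : M ≠ 0) : pd k p (mO M) 1 (mono k p (mO M) ![0, 1]) = 1 := by
  rw [pd_mono_of_pos 1 (by simp)]
  · rw [DP.one_def]
    congr 1
    funext j
    fin_cases j <;> rfl
  · intro j
    fin_cases j
    · show 0 < p ^ (mO M 0)
      exact pow_pos hp.out.pos _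
    · exact one_lt_q hM

omit [CharP k p] in
lemma eps_one' : eps (1 : DP k p (mO M)) = 1 := by
  rw [DP.one_def, eps_mono, if_pos (show (fun _ : Fin 2 => 0) = 0 from rfl)]

lemma torus_le (hM : M ≠ 0) [IsAlgClosed k] (t : LieSubalgebra k (Module.End k (DP k p (mO M))))
    (ht : t.toSubmodule ≤ W k p (mO M))
    (hb : Set.BijOn (fun x => x ^ p) (t : Set (Module.End k (DP k p (mO M)))) t) :
    Module.finrank k t ≤ 2 := by
  have : Module.Finite k (DP k p (mO M)) := Module.Finite.of_basis (DP.basis k p (mO M))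
  -- all elements are semisimple
  have hroots : ∀ N : ℕ, ∀ x ∈ t, ∃ y ∈ t, y ^ (p ^ N) = x := by
    intro N
    induction N with
    | zero => intro x hx; exact ⟨x, hx, by simp⟩
    | succ N ih =>
      intro x hx
      obtain ⟨y, hy, rfl⟩ := hb.surjOn hx
      obtain ⟨z, hz, rfl⟩ := ih y hy
      exact ⟨z, hz, by simp only [← pow_mul, ← pow_succ]⟩
  have hss : ∀ x ∈ t, x.IsSemisimple := fun x hx =>
    semisimple_of_roots (p := p) fun N => by
      obtain ⟨y, _, hy⟩ := hroots N x hx
      exact ⟨y, hy⟩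
  -- the first eigenvector
  set φ1 : DP k p (mO M) →ₗ[k] k := eps ∘ₗ (pd k p (mO M) 0) with hφ1
  have hφ1ne : φ1 ≠ 0 := by
    intro h
    have h1 := LinearMap.congr_fun h (mono k p (mO M) ![1, 0])
    rw [hφ1, LinearMap.comp_apply, pd_x, eps_one', LinearMap.zero_apply] at h1
    exact one_ne_zero h1
  obtain ⟨u1, hu1, hu1'⟩ := exists_eig t hss hφ1ne
  set a : k := eps (pd k p (mO M) 0 u1) with ha
  set b : k := eps (pd k p (mO M) 1 u1) with hb'
  set φ2 : DP k p (mO M) →ₗ[k] k := a • (eps ∘ₗ (pd k p (mO M) 1)) - b • (eps ∘ₗ (pd k p (mO M) 0))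
    with hφ2
  have hφ2ne : φ2 ≠ 0 := by
    intro h
    have h1 := LinearMap.congr_fun h (mono k p (mO M) ![0, 1])
    rw [hφ2, LinearMap.sub_apply, LinearMap.smul_apply, LinearMap.smul_apply,
      LinearMap.comp_apply, LinearMap.comp_apply, pd_y hM, pd_mono_of_zero 0 (by simp), map_zero,
      smul_zero, sub_zero, eps_one', LinearMap.zero_apply, smul_eq_mul, mul_one] at h1
    exact hu1 h1
  obtain ⟨u2, hu2, hu2'⟩ := exists_eig t hss hφ2ne
  -- the weights
  let τ : t →ₗ[k] (Submodule.span k {u1}) × (Submodule.span k {u2}) :=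
    { toFun := fun x => (⟨(x : Module.End k (DP k p (mO M))) u1, hu1' x x.2⟩,
        ⟨(x : Module.End k (DP k p (mO M))) u2, hu2' x x.2⟩)
      map_add' := fun x y => rfl
      map_smul' := fun c x => rfl }
  have hinj : Function.Injective τ := by
    rw [injective_iff_map_eq_zero]
    intro x hx
    have h1 : (x : Module.End k (DP k p (mO M))) u1 = 0 := congrArg (fun z => (z.1 : DP k p (mO M))) hx
    have h2 : (x : Module.End k (DP k p (mO M))) u2 = 0 := congrArg (fun z => (z.2 : DP k p (mO M))) hx
    obtain ⟨f, g, hfg⟩ := W_two (ht x.2)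
    rw [hfg, LinearMap.add_apply, fpd_apply, fpd_apply] at h1 h2
    set Δ : DP k p (mO M) := pd k p (mO M) 0 u1 * pd k p (mO M) 1 u2
      - pd k p (mO M) 1 u1 * pd k p (mO M) 0 u2 with hΔ
    have hΔ0 : eps Δ ≠ 0 := by
      rw [hΔ, map_sub, eps_mul, eps_mul]
      exact hu2
    have hf : f = 0 := by
      refine eq_zero_of_unit (f := Δ) ?_ hΔ0
      rw [hΔ]
      linear_combination pd k p (mO M) 1 u2 * h1 - pd k p (mO M) 1 u1 * h2
    have hg : g = 0 := by
      refine eq_zero_of_unit (f := Δ) ?_ hΔ0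
      rw [hΔ]
      linear_combination pd k p (mO M) 0 u1 * h2 - pd k p (mO M) 0 u2 * h1
    apply Subtype.ext
    rw [hfg, hf, hg, fpd_zero, fpd_zero, add_zero]
    rfl
  have h1 := LinearMap.finrank_le_finrank_of_injective hinj
  rw [Module.finrank_prod] at h1
  have h2 : Module.finrank k (Submodule.span k {u1}) = 1 :=
    finrank_span_singleton (fun h => hu1 (by rw [h, map_zero]))
  have h3 : Module.finrank k (Submodule.span k {u2}) = 1 :=
    finrank_span_singleton (fun h => hu2 (by rw [h, map_zero]))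
  omega

/-- `x ∂_x` -/
noncomputable def E0 (k : Type*) [Field k] (p M : ℕ) : Module.End k (DP k p (mO M)) :=
  fpd (mono k p (mO M) ![1, 0]) 0

/-- `y ∂_y` -/
noncomputable def E1 (k : Type*) [Field k] (p M : ℕ) : Module.End k (DP k p (mO M)) :=
  fpd (mono k p (mO M) ![0, 1]) 1

omit hp [CharP k p] in
lemma E0_mono (a : Idx p (mO M)) : E0 k p M (mono k p (mO M) (fun i => (a i : ℕ)))
    = ((a 0 : ℕ) : k) • mono k p (mO M) (fun i => (a i : ℕ)) := by
  rw [E0, fpd_apply]
  by_cases h : (a 0 : ℕ) = 0
  · rw [pd_mono_of_zero 0 h, h, Nat.cast_zero, zero_smul, mul_zero]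
  · rw [pd_mono_of_pos 0 h (fun j => (a j).2), mono_mul_mono]
    obtain ⟨b, hb⟩ : ∃ b, (a 0 : ℕ) = b + 1 := ⟨(a 0 : ℕ) - 1, by omega⟩
    congr 1
    · simp only [cc, Fin.prod_univ_two]
      simp [hb, add_comm]
    · congr 1
      funext i
      fin_cases i
      · show 1 + ((a 0 : ℕ) - 1) = a 0
        omega
      · show 0 + (a 1 : ℕ) = a 1
        omega

omit hp [CharP k p] in
lemma E1_mono (a : Idx p (mO M)) : E1 k p M (mono k p (mO M) (fun i => (a i : ℕ)))
    = ((a 1 : ℕ) : k) • mono k p (mO M) (fun i => (a i : ℕ)) := by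
  rw [E1, fpd_apply]
  by_cases h : (a 1 : ℕ) = 0
  · rw [pd_mono_of_zero 1 h, h, Nat.cast_zero, zero_smul, mul_zero]
  · rw [pd_mono_of_pos 1 h (fun j => (a j).2), mono_mul_mono]
    obtain ⟨b, hb⟩ : ∃ b, (a 1 : ℕ) = b + 1 := ⟨(a 1 : ℕ) - 1, by omega⟩
    congr 1
    · simp only [cc, Fin.prod_univ_two]
      simp [hb, add_comm]
    · congr 1
      funext i
      fin_cases i
      · show 0 + (a 0 : ℕ) = a 0
        omega
      · show 1 + ((a 1 : ℕ) - 1) = a 1
        omega

omit hp [CharP k p] in
lemma pow_mono_of_eigen {D : Module.End k (DP k p (mO M))} {v : DP k p (mO M)} {c : k}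
    (h : D v = c • v) (n : ℕ) : (D ^ n) v = c ^ n • v := by
  induction n with
  | zero => simp
  | succ n ih => rw [pow_succ, Module.End.mul_apply, h, map_smul, ih, smul_smul, pow_succ']

lemma natCast_pow_p (n : ℕ) : (n : k) ^ p = n := by
  exact map_natCast (frobenius k p) n

lemma E0_pow : E0 k p M ^ p = E0 k p M := by
  refine LinearMap.ext fun f => ?_
  induction f using DP.induction with
  | h0 => simp
  | hadd f g hf hg => rw [map_add, map_add, hf, hg]
  | hsmul c a =>
    rw [map_smul, map_smul, pow_mono_of_eigen (E0_mono a), natCast_pow_p, E0_mono]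

lemma E1_pow : E1 k p M ^ p = E1 k p M := by
  refine LinearMap.ext fun f => ?_
  induction f using DP.induction with
  | h0 => simp
  | hadd f g hf hg => rw [map_add, map_add, hf, hg]
  | hsmul c a =>
    rw [map_smul, map_smul, pow_mono_of_eigen (E1_mono a), natCast_pow_p, E1_mono]

omit hp [CharP k p] in
lemma E_comm : E0 k p M * E1 k p M = E1 k p M * E0 k p M := by
  refine LinearMap.ext fun f => ?_
  rw [Module.End.mul_apply, Module.End.mul_apply]
  induction f using DP.induction with
  | h0 => simp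
  | hadd f g hf hg => simp only [map_add, hf, hg]
  | hsmul c a =>
    simp only [map_smul, E0_mono, E1_mono]
    rw [smul_comm ((a 1 : ℕ) : k)]

omit [CharP k p] in
lemma E0_x : E0 k p M (mono k p (mO M) ![1, 0]) = mono k p (mO M) ![1, 0] := by
  rw [E0, fpd_apply, pd_x, mul_one]

omit [CharP k p] in
lemma E1_y (hM : M ≠ 0) : E1 k p M (mono k p (mO M) ![0, 1]) = mono k p (mO M) ![0, 1] := by
  rw [E1, fpd_apply, pd_y hM, mul_one]

omit hp [CharP k p] in
lemma E0_y : E0 k p M (mono k p (mO M) ![0, 1]) = 0 := by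
  rw [E0, fpd_apply, pd_mono_of_zero 0 (by simp), mul_zero]

omit hp [CharP k p] in
lemma E1_x : E1 k p M (mono k p (mO M) ![1, 0]) = 0 := by
  rw [E1, fpd_apply, pd_mono_of_zero 1 (by simp), mul_zero]

omit [CharP k p] in
lemma mono_x_ne : mono k p (mO M) ![1, 0] ≠ 0 := by
  intro h
  have h1 := pd_x (k := k) (p := p) (M := M)
  rw [h, map_zero] at h1
  have h2 := congrArg eps h1
  rw [map_zero, eps_one'] at h2
  exact zero_ne_one h2

omit [CharP k p] in
lemma mono_y_ne (hM : M ≠ 0) : mono k p (mO M) ![0, 1] ≠ 0 := by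
  intro h
  have h1 := pd_y (k := k) (p := p) hM
  rw [h, map_zero] at h1
  have h2 := congrArg eps h1
  rw [map_zero, eps_one'] at h2
  exact zero_ne_one h2

/-- the standard torus -/
noncomputable def stdTorus (k : Type*) [Field k] (p M : ℕ) :
    LieSubalgebra k (Module.End k (DP k p (mO M))) :=
  { Submodule.span k {E0 k p M, E1 k p M} with
    lie_mem' := by
      intro D E hD hE
      change D ∈ Submodule.span k {E0 k p M, E1 k p M} at hD
      change E ∈ Submodule.span k {E0 k p M, E1 k p M} at hE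
      obtain ⟨a, b, rfl⟩ := Submodule.mem_span_pair.1 hD
      obtain ⟨c, d, rfl⟩ := Submodule.mem_span_pair.1 hE
      have h : ⁅a • E0 k p M + b • E1 k p M, c • E0 k p M + d • E1 k p M⁆ = 0 := by
        rw [Ring.lie_def]
        simp only [add_mul, mul_add, smul_mul_assoc, mul_smul_comm, smul_add, smul_smul,
          E_comm (k := k) (p := p) (M := M)]
        rw [mul_comm c a, mul_comm d a, mul_comm c b, mul_comm d b]
        abel
      rw [h]
      exact Submodule.zero_mem _ }

omit hp [CharP k p] in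
lemma mem_stdTorus {D : Module.End k (DP k p (mO M))} :
    D ∈ stdTorus k p M ↔ ∃ a b : k, a • E0 k p M + b • E1 k p M = D :=
  Submodule.mem_span_pair

lemma stdTorus_pow (a b : k) :
    (a • E0 k p M + b • E1 k p M) ^ p = a ^ p • E0 k p M + b ^ p • E1 k p M := by
  have hc : Commute (a • E0 k p M) (b • E1 k p M) := by
    show _ * _ = _ * _
    rw [smul_mul_smul_comm, smul_mul_smul_comm, E_comm, mul_comm a b]
  rw [add_pow_p_of_commute p hc, smul_pow, smul_pow, E0_pow, E1_pow]

omit [CharP k p] in
lemma stdTorus_indep (hM : M ≠ 0) {a b c d : k}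
    (h : a • E0 k p M + b • E1 k p M = c • E0 k p M + d • E1 k p M) : a = c ∧ b = d := by
  have h1 := LinearMap.congr_fun h (mono k p (mO M) ![1, 0])
  have h2 := LinearMap.congr_fun h (mono k p (mO M) ![0, 1])
  simp only [LinearMap.add_apply, LinearMap.smul_apply, E0_x, E1_x, E0_y, E1_y hM, smul_zero,
    add_zero, zero_add] at h1 h2
  exact ⟨smul_left_injective k mono_x_ne h1, smul_left_injective k (mono_y_ne hM) h2⟩

/-- The maximal toral rank of `W(2;(1,M))` (as an algebra of operators) is `2`. -/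
theorem mt_eq_two (hM : M ≠ 0) [IsAlgClosed k] : mt p (W k p (mO M)) = 2 := by
  have hub : ∀ d ∈ {d | ∃ t : LieSubalgebra k (Module.End k (DP k p (mO M))),
      t.toSubmodule ≤ W k p (mO M) ∧
      Set.BijOn (fun x => x ^ p) (t : Set (Module.End k (DP k p (mO M)))) t ∧
      Module.finrank k t = d}, d ≤ 2 := by
    rintro d ⟨t, h1, h2, rfl⟩
    exact torus_le hM t h1 h2
  refine le_antisymm (csSup_le' hub) (le_csSup ⟨2, hub⟩ ?_)
  refine ⟨stdTorus k p M, ?_, ⟨?_, ?_, ?_⟩, ?_⟩
  · intro D hD
    obtain ⟨a, b, rfl⟩ := mem_stdTorus.1 hD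
    exact Submodule.add_mem _ (Submodule.smul_mem _ _ (fpd_mem_W _ _))
      (Submodule.smul_mem _ _ (fpd_mem_W _ _))
  · intro D hD
    obtain ⟨a, b, rfl⟩ := mem_stdTorus.1 hD
    exact mem_stdTorus.2 ⟨a ^ p, b ^ p, (stdTorus_pow a b).symm⟩
  · intro D hD E hE h
    obtain ⟨a, b, rfl⟩ := mem_stdTorus.1 hD
    obtain ⟨c, d, rfl⟩ := mem_stdTorus.1 hE
    simp only [stdTorus_pow] at h
    obtain ⟨h1, h2⟩ := stdTorus_indep hM h
    have h3 : a = c := frobenius_inj k p h1
    have h4 : b = d := frobenius_inj k p h2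
    rw [h3, h4]
  · intro D hD
    obtain ⟨a, b, rfl⟩ := mem_stdTorus.1 hD
    obtain ⟨c, hc⟩ := IsAlgClosed.exists_pow_nat_eq a hp.out.pos
    obtain ⟨d, hd⟩ := IsAlgClosed.exists_pow_nat_eq b hp.out.pos
    refine ⟨c • E0 k p M + d • E1 k p M, mem_stdTorus.2 ⟨c, d, rfl⟩, ?_⟩
    simp only [stdTorus_pow, hc, hd]
  · have hli : LinearIndependent k ![E0 k p M, E1 k p M] := by
      rw [LinearIndependent.pair_iff]
      intro s t h
      exact stdTorus_indep (k := k) (p := p) hM (a := s) (b := t) (c := 0) (d := 0)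
        (by rw [h, zero_smul, zero_smul, add_zero])
    have h1 := finrank_span_eq_card hli
    rw [Matrix.range_cons_cons_empty, Fintype.card_fin] at h1
    exact h1

end Rank

end Pool.Agent.W_MP_e80488_al
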